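import Mathlib
import Pool.Agent.H64.PM.FMA

/-!
# The average for general families, for a part of the roots
-/

set_option autoImplicit false

namespace Pool.Agent.H27.PG

open Finset Pool.Agent.W262.RK Pool.Agent.W762.RK2 Polynomial
open Pool.Agent.H64.PM
open Pool.Agent.H64.MM (Vk par dot Ik Lk sx)

/-- the number of the roots of `f` in the class `c` -/
noncomputable def rc (A B f : ℤ[X]) (c : Fin 4) (p : ℕ) : ℕ :=
  ((Zr f p).filter (fun x : ℕ => clq A B p (x : ℤ) = c)).card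

/-- sums over the roots -/
lemma rc_class (A B f : ℤ[X]) (p : ℕ) (F : Fin 4 → ℝ) :
    ∑ x ∈ Zr f p, F (clq A B p (x : ℤ)) = ∑ c : Fin 4, (rc A B f c p : ℝ) * F c := by
  rw [← sum_fiberwise (Zr f p) (fun x : ℕ => clq A B p (x : ℤ))]
  refine sum_congr rfl fun c _ => ?_
  unfold rc
  rw [← nsmul_eq_mul, ← sum_const]
  refine sum_congr rfl fun x hx => ?_
  rw [(mem_filter.1 hx).2]

lemma rc_sum (A B f : ℤ[X]) (p : ℕ) :
    (rho f p : ℝ) = ∑ c : Fin 4, (rc A B f c p : ℝ) := by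
  have h := rc_class A B f p (fun _ => 1)
  simp only [sum_const, nsmul_eq_mul, mul_one] at h
  exact h

/-- **The average for general families.** -/
theorem avg_famG (A B D f : ℤ[X]) (n z1 m : ℕ)
    (hρ : ∀ p : ℕ, p.Prime → z1 < p → rho f p ≤ n) (hfb : Smp (fT A B D) z1)
    (hM : ∀ c : Fin 4, c ≠ 3 → ∀ z : ℕ, ∃ C0 : ℝ, ∀ y : ℕ, 3 ≤ y →
      |∑ p ∈ PS z y, (rc A B f c p : ℝ) / p - (m : ℝ) * Real.log (Real.log y)| ≤ C0)
    (hM3 : m = 0 → ∀ z : ℕ, ∃ C0 : ℝ, ∀ y : ℕ, 3 ≤ y →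
      Real.log (Real.log y) - C0 ≤ ∑ p ∈ PS z y, (rc A B f 3 p : ℝ) / p) :
    ∃ z0 : ℕ, ∀ z, z0 ≤ z → ∃ C' : ℝ, ∀ y, z < y → ∑ s ∈ (PP z y).divisors,
      Gs (PhG 1 (TyF f) (Wt2 f) (LcQ A B D)) s ≤
      C' * Lam (fun p => (rho f p : ℝ) / p) z y := by
  classical
  obtain ⟨z0, hz0⟩ := avq 1 (2 * n) (1 / 4) (by norm_num)
  obtain ⟨CS, hCS0, hCS⟩ := sum_inv_sq
  refine ⟨z0 + z1 + (2 * n + 2) + 3, fun z hz => ?_⟩
  have hn : 2 * n + 2 ≤ z := by omega
  have hρ' : ∀ p : ℕ, p.Prime → z < p → rho f p ≤ n := fun p hp hzp => hρ p hp (by omega)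
  have hf' : Smp (fT A B D) z := fun p hp hzp => hfb p hp (by omega)
  have hfacts : ∀ p : ℕ, p.Prime → z < p → (0 : ℝ) < p ∧ 0 < (p : ℝ) - rho f p ∧
      (p : ℝ) / 2 ≤ (p : ℝ) - rho f p ∧ (rho f p : ℝ) ≤ n := by
    intro p hp hzp
    obtain ⟨h0, h1, h2⟩ := rho_half hn hρ' hp hzp
    have h4 : (p : ℝ) / 2 ≤ (p : ℝ) - rho f p := by
      have h5 : (rho f p : ℝ) / p ≤ 1 / 2 := by linarith
      rw [div_le_iff₀ h0] at h5
      linarith
    exact ⟨h0, by linarith, h4, h1⟩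
  set g : Ik Unit 1 → ℕ → ℝ := fun i p =>
    (1 / ((p : ℝ) - rho f p)) * ∑ c : Fin 4, (rc A B f c p : ℝ) * ia c i with hg
  have hgs : ∀ i : Ik Unit 1, ∀ p : ℕ, p.Prime → z < p →
      0 ≤ ∑ c : Fin 4, (rc A B f c p : ℝ) * ia c i ∧
      ∑ c : Fin 4, (rc A B f c p : ℝ) * ia c i ≤ rho f p := by
    intro i p hp hzp
    constructor
    · exact sum_nonneg fun c _ => mul_nonneg (Nat.cast_nonneg _) (ia_nonneg c i)
    · rw [rc_sum A B f p]
      exact sum_le_sum fun c _ => mul_le_of_le_one_right (Nat.cast_nonneg _) (ia_le c i)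
  set Cf : ℕ → Vk 1 → Vk 1 → ℝ := fun p v x => ∑ r ∈ Zr f p, (1 / ((p : ℝ) - rho f p)) *
    (if Al (clq A B p (r : ℤ)) (v 0) (x 0) = true then wc (clq A B p (r : ℤ)) *
      Jr (kc (clq A B p (r : ℤ)) (kpq A B D p (r : ℤ)) (v 0) (x 0)) p else 0) with hCf
  refine hz0 z (by omega) (PhG 1 (TyF f) (Wt2 f) (LcQ A B D)) Cf g
    (Lam (fun p => (rho f p : ℝ) / p) z)
    (fun i p hp hzp => ⟨?_, ?_⟩) (fun i => ?_) (fun y => (Real.exp_pos _).le) (fun U hU => ?_)
    (fun p hp hzp v hs hs' => ?_)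
  · obtain ⟨f0, f1, f2, f3⟩ := hfacts p hp hzp
    simp only [hCf, hg]
    refine (abs_sum_le_sum_abs _ _).trans ?_
    rw [← rc_class A B f p (fun c => ia c i), mul_sum]
    refine sum_le_sum fun r _ => ?_
    rw [abs_mul, abs_of_pos (by positivity : (0 : ℝ) < 1 / ((p : ℝ) - rho f p))]
    refine mul_le_mul_of_nonneg_left ?_ (by positivity)
    unfold ia
    split_ifs with h
    · rw [abs_mul, abs_of_nonneg (by unfold wc; split_ifs <;> norm_num)]
      exact mul_le_of_le_one_right (by unfold wc; split_ifs <;> norm_num) (abs_Jr_le _ _)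
    · simp
  · obtain ⟨f0, f1, f2, f3⟩ := hfacts p hp hzp
    obtain ⟨g0, g1⟩ := hgs i p hp hzp
    simp only [hg]
    rw [one_div_mul_eq_div, div_le_div_iff₀ f1 f0]
    have h7 : (0 : ℝ) ≤ n := Nat.cast_nonneg _
    nlinarith
  · have hgl : ∀ c : Fin 4, Al c (i.1.2.1 0) (i.1.2.2 0) = true → ∀ x : ℕ,
        wc c * ∑ p ∈ PS z x, (rc A B f c p : ℝ) / p ≤ ∑ p ∈ PS z x, g i p := by
      intro c hc x
      rw [mul_sum]
      refine sum_le_sum fun p hp => ?_
      obtain ⟨f0, f1, f2, f3⟩ := hfacts p (mem_PS.1 hp).2 (mem_PS.1 hp).1.1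
      have h4 : (rc A B f c p : ℝ) * ia c i ≤
          ∑ c : Fin 4, (rc A B f c p : ℝ) * ia c i :=
        single_le_sum (f := fun c => (rc A B f c p : ℝ) * ia c i)
          (fun c _ => mul_nonneg (Nat.cast_nonneg _) (ia_nonneg c i)) (mem_univ c)
      have h5 : ia c i = wc c := by
        unfold ia
        rw [if_pos hc]
      rw [h5] at h4
      have h6 : (0 : ℝ) ≤ rho f p := Nat.cast_nonneg _
      have h7 : (0 : ℝ) ≤ rc A B f c p := Nat.cast_nonneg _
      have h8 : 0 ≤ wc c := by unfold wc; split_ifs <;> norm_num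
      calc wc c * ((rc A B f c p : ℝ) / p) = ((rc A B f c p : ℝ) * wc c) / p := by
            ring
        _ ≤ ((rc A B f c p : ℝ) * wc c) / ((p : ℝ) - rho f p) :=
            div_le_div_of_nonneg_left (mul_nonneg h7 h8) f1 (by linarith)
        _ ≤ (∑ c : Fin 4, (rc A B f c p : ℝ) * ia c i) / ((p : ℝ) - rho f p) :=
            div_le_div_of_nonneg_right h4 f1.le
        _ = g i p := by
            simp only [hg]
            ring
    rcases Nat.eq_zero_or_pos m with hm0 | hm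
    · obtain ⟨C0, hC0⟩ := hM3 hm0 z
      refine ⟨1 / 4 * C0, fun x hx => ?_⟩
      have h1 := hC0 x hx
      have h2 := hgl 3 (al3 _ _ (by rw [← par_one]; exact i.2)) x
      have h3 : wc 3 = 1 / 4 := by unfold wc; rw [if_pos rfl]
      rw [h3] at h2
      linarith
    · obtain ⟨c, hc3, hc⟩ := al_ex (i.1.2.1 0) (i.1.2.2 0) (by rw [← par_one]; exact i.2)
      obtain ⟨C0, hC0⟩ := hM c hc3 z
      refine ⟨1 / 2 * C0, fun x hx => ?_⟩
      have h1 := (abs_le.1 (hC0 x hx)).1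
      have hxr : (3 : ℝ) ≤ x := by exact_mod_cast hx
      have hl1 : 1 ≤ Real.log x := by
        rw [Real.le_log_iff_exp_le (by linarith)]
        have := Real.exp_one_lt_d9
        linarith
      have hll : 0 ≤ Real.log (Real.log x) := Real.log_nonneg hl1
      have hm' : (1 : ℝ) ≤ m := by exact_mod_cast hm
      have h2 : Real.log (Real.log x) ≤ m * Real.log (Real.log x) := le_mul_of_one_le_left hll hm'
      have h3 := hgl c hc x
      have h5 : wc c = 1 / 2 := by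
        unfold wc
        rw [if_neg hc3]
      rw [h5] at h3
      linarith
  · -- the unlinked sets
    choose M0 hM0 using fun c : Fin 3 => hM c.castSucc (by
      intro h
      have := congrArg Fin.val h
      rw [Fin.val_castSucc] at this
      have := c.2
      simp at *
      omega) z
    set a : Fin 4 → ℝ := fun c => ∑ i ∈ U, ia c i with ha
    have ha0 : ∀ c, 0 ≤ a c := fun c => sum_nonneg fun i _ => ia_nonneg c i
    have ha3 : a 3 ≤ 1 := unl_w3 U hU
    have ha012 : a 0 + a 1 + a 2 ≤ 3 := unl_w012 U hU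
    have haU : ∀ c, a c ≤ 4 := by
      intro c
      have h1 : a c ≤ ∑ _i ∈ U, (1 : ℝ) := sum_le_sum fun i _ => ia_le c i
      rw [sum_const, nsmul_eq_mul, mul_one] at h1
      have h2 : (U.card : ℝ) ≤ 4 := by exact_mod_cast unl_card U hU
      linarith
    set T : ℝ := 10 * (|M0 0| + |M0 1| + |M0 2|) with hT
    refine ⟨Real.exp (T + 8 * n ^ 2 * CS), fun y hy => ?_⟩
    have hy3 : 3 ≤ y := by omega
    unfold Lam
    rw [← Real.exp_sum, ← Real.exp_add]
    apply Real.exp_le_exp.2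
    set S : Fin 4 → ℝ := fun c => ∑ p ∈ PS z y, (rc A B f c p : ℝ) / p with hS
    -- the sum of the weights
    have h1 : ∑ i ∈ U, ∑ p ∈ PS z y, g i p ≤ ∑ p ∈ PS z y,
        (∑ c : Fin 4, ((rc A B f c p : ℝ) / p) * a c + 8 * n ^ 2 * (1 / (p : ℝ) ^ 2)) := by
      rw [sum_comm]
      refine sum_le_sum fun p hp => ?_
      obtain ⟨f0, f1, f2, f3⟩ := hfacts p (mem_PS.1 hp).2 (mem_PS.1 hp).1.1
      have e1 : ∑ i ∈ U, g i p = (1 / ((p : ℝ) - rho f p)) *
          ∑ c : Fin 4, (rc A B f c p : ℝ) * a c := by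
        simp only [hg, ha]
        rw [← mul_sum, sum_comm]
        congr 1
        refine sum_congr rfl fun c _ => ?_
        rw [mul_sum]
      set R : ℝ := ∑ c : Fin 4, (rc A B f c p : ℝ) * a c with hR
      have e2 : ∑ c : Fin 4, ((rc A B f c p : ℝ) / p) * a c = R / p := by
        rw [hR, sum_div]
        refine sum_congr rfl fun c _ => ?_
        ring
      have hR0 : 0 ≤ R := sum_nonneg fun c _ => mul_nonneg (Nat.cast_nonneg _) (ha0 c)
      have hR4 : R ≤ 4 * n := by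
        have h2 : R ≤ ∑ c : Fin 4, (rc A B f c p : ℝ) * 4 :=
          sum_le_sum fun c _ => mul_le_mul_of_nonneg_left (haU c) (Nat.cast_nonneg _)
        rw [← sum_mul, ← rc_sum A B f p] at h2
        linarith
      rw [e1, e2]
      have h6 : (0 : ℝ) ≤ rho f p := Nat.cast_nonneg _
      have e3 : (1 / ((p : ℝ) - rho f p)) * R - R / p =
          R * rho f p / (p * (p - rho f p)) := by
        field_simp
        ring
      have e4 : R * rho f p / (p * (p - rho f p)) ≤ 8 * n ^ 2 * (1 / (p : ℝ) ^ 2) := by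
        rw [mul_one_div, div_le_div_iff₀ (by positivity) (by positivity)]
        have h7 : (0 : ℝ) ≤ n := Nat.cast_nonneg _
        calc R * rho f p * (p : ℝ) ^ 2 ≤ (4 * n) * n * (p : ℝ) ^ 2 := by gcongr
          _ = 8 * (n : ℝ) ^ 2 * (p * (p / 2)) := by ring
          _ ≤ 8 * (n : ℝ) ^ 2 * (p * (p - rho f p)) := by gcongr
      linarith
    have h2 : ∑ p ∈ PS z y, (∑ c : Fin 4, ((rc A B f c p : ℝ) / p) * a c +
        8 * n ^ 2 * (1 / (p : ℝ) ^ 2)) ≤ ∑ c : Fin 4, S c * a c + 8 * n ^ 2 * CS := by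
      rw [sum_add_distrib, sum_comm]
      refine add_le_add (le_of_eq (sum_congr rfl fun c _ => ?_)) ?_
      · simp only [hS]
        rw [sum_mul]
      · rw [← mul_sum]
        exact mul_le_mul_of_nonneg_left (hCS z y) (by positivity)
    have h3 : ∑ p ∈ PS z y, (rho f p : ℝ) / p = ∑ c : Fin 4, S c := by
      simp only [hS]
      rw [sum_comm]
      refine sum_congr rfl fun p hp => ?_
      rw [rc_sum A B f p, sum_div]
    have h4 : ∑ c : Fin 4, S c * a c ≤ ∑ c : Fin 4, S c + T := by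
      have b0 := abs_le.1 (hM0 0 y hy3)
      have b1 := abs_le.1 (hM0 1 y hy3)
      have b2 := abs_le.1 (hM0 2 y hy3)
      have hS3 : 0 ≤ S 3 := sum_nonneg fun p _ => by positivity
      set L : ℝ := (m : ℝ) * Real.log (Real.log y) with hL
      have hL0 : 0 ≤ L := by
        have hyr : (3 : ℝ) ≤ y := by exact_mod_cast hy3
        have hl1 : 1 ≤ Real.log y := by
          rw [Real.le_log_iff_exp_le (by linarith)]
          have := Real.exp_one_lt_d9
          linarith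
        exact mul_nonneg (Nat.cast_nonneg _) (Real.log_nonneg hl1)
      have c0 : |S 0 - L| ≤ |M0 0| := (hM0 0 y hy3).trans (le_abs_self _)
      have c1 : |S 1 - L| ≤ |M0 1| := (hM0 1 y hy3).trans (le_abs_self _)
      have c2 : |S 2 - L| ≤ |M0 2| := (hM0 2 y hy3).trans (le_abs_self _)
      rw [abs_le] at c0 c1 c2
      rw [Fin.sum_univ_four, Fin.sum_univ_four]
      have d0 : S 0 * a 0 ≤ L * a 0 + 4 * |M0 0| := by
        have := mul_le_mul_of_nonneg_right (show S 0 ≤ L + |M0 0| by linarith [c0.2]) (ha0 0)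
        nlinarith [haU 0, abs_nonneg (M0 0)]
      have d1 : S 1 * a 1 ≤ L * a 1 + 4 * |M0 1| := by
        have := mul_le_mul_of_nonneg_right (show S 1 ≤ L + |M0 1| by linarith [c1.2]) (ha0 1)
        nlinarith [haU 1, abs_nonneg (M0 1)]
      have d2 : S 2 * a 2 ≤ L * a 2 + 4 * |M0 2| := by
        have := mul_le_mul_of_nonneg_right (show S 2 ≤ L + |M0 2| by linarith [c2.2]) (ha0 2)
        nlinarith [haU 2, abs_nonneg (M0 2)]
      have d3 : S 3 * a 3 ≤ S 3 := mul_le_of_le_one_right hS3 ha3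
      have d4 : L * (a 0 + a 1 + a 2) ≤ L * 3 := mul_le_mul_of_nonneg_left ha012 hL0
      rw [hT]
      nlinarith [c0.1, c1.1, c2.1, abs_nonneg (M0 0), abs_nonneg (M0 1), abs_nonneg (M0 2)]
    rw [h3]
    linarith
  · -- the local function
    obtain ⟨f0, f1, f2, f3⟩ := hfacts p hp hzp
    have hl : ∀ r : ℕ, (ind (LL (clq A B p (r : ℤ)) (kpq A B D p (r : ℤ)) true p (v 0).1 (v 0).2
        (hs 0) (hs' 0)) + ind (LL (clq A B p (r : ℤ)) (kpq A B D p (r : ℤ)) false p (v 0).1 (v 0).2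
        (hs 0) (hs' 0))) / 2 = ∑ x : Vk 1, if Al (clq A B p (r : ℤ)) (v 0) (x 0) = true then
        wc (clq A B p (r : ℤ)) * Jr (kc (clq A B p (r : ℤ)) (kpq A B D p (r : ℤ)) (v 0) (x 0)) p *
          (sx (x 0).1 (hs 0) * sx (x 0).2 (hs' 0)) else 0 := by
      intro r
      rw [loc_id _ _ hp (kpq_ne hf' hp hzp _)]
      refine Fintype.sum_equiv (Equiv.funUnique (Fin 1) (Bool × Bool)).symm _ _ fun x => ?_
      rfl
    unfold PhG TyF LcQ
    rw [sum_product]
    simp only [Fintype.sum_bool, Fin.prod_univ_one, Fin.isValue]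
    have h2 : ∀ r : ℕ, Wt2 f p * ind (LL (clq A B p (r : ℤ)) (kpq A B D p (r : ℤ)) true p (v 0).1
        (v 0).2 (hs 0) (hs' 0)) + Wt2 f p * ind (LL (clq A B p (r : ℤ)) (kpq A B D p (r : ℤ)) false
        p (v 0).1 (v 0).2 (hs 0) (hs' 0)) = (1 / ((p : ℝ) - rho f p)) *
        ((ind (LL (clq A B p (r : ℤ)) (kpq A B D p (r : ℤ)) true p (v 0).1 (v 0).2
        (hs 0) (hs' 0)) + ind (LL (clq A B p (r : ℤ)) (kpq A B D p (r : ℤ)) false p (v 0).1 (v 0).2
        (hs 0) (hs' 0))) / 2) := by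
      intro r
      unfold Wt2
      field_simp
    rw [sum_congr rfl fun r _ => h2 r]
    rw [sum_congr rfl fun r _ => by rw [hl r, mul_sum]]
    rw [sum_comm]
    refine sum_congr rfl fun x _ => ?_
    simp only [hCf]
    by_cases hpx : par v x = false
    · rw [if_pos hpx, sum_mul]
      refine sum_congr rfl fun r _ => ?_
      split_ifs <;> ring
    · rw [if_neg hpx]
      refine sum_eq_zero fun r _ => ?_
      rw [if_neg, mul_zero]
      intro h
      exact hpx (by rw [par_one]; exact al_dot _ _ _ h)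

end Pool.Agent.H27.PG
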