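import Mathlib
import Pool.Agent.H64.QM.U2
import Pool.Agent.H64.PM.MTG

/-!
# An additional weight in the averages; the product over the primes
-/

set_option autoImplicit false

namespace Pool.Agent.H27.PG

open Finset Pool.Agent.W262.RK Polynomial
open Pool.Agent.H64.PM (rho Zr bw bw_nonneg rv_q mert_two nf cast_ge_one)

/-- an additional weight -/
noncomputable def hh (c : ℝ) (s : ℕ) : ℝ := ∏ p ∈ s.primeFactors, (1 + c / p)

lemma hh_ge_one {c : ℝ} (hc : 0 ≤ c) (s : ℕ) : 1 ≤ hh c s := by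
  unfold hh
  calc (1 : ℝ) = ∏ p ∈ s.primeFactors, (1 : ℝ) := by rw [prod_const_one]
    _ ≤ _ := prod_le_prod (fun _ _ => zero_le_one) fun p _ => by
        have : 0 ≤ c / (p : ℝ) := by positivity
        linarith

lemma hh_eq {c : ℝ} {s : ℕ} (hs : Squarefree s) : hh c s = ∑ e ∈ s.divisors, bw c 1 e := by
  unfold hh
  have h1 := Pool.Agent.W655.RK.sum_mult s.primeFactors
    (fun p hp => Nat.prime_of_mem_primeFactors hp) (fun p => c / (p : ℝ))
  rw [Nat.prod_primeFactors_of_squarefree hs] at h1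
  rw [← h1]
  refine sum_congr rfl fun e he => ?_
  have he2 : Squarefree e := hs.squarefree_of_dvd (Nat.dvd_of_mem_divisors he)
  unfold bw
  rw [pow_one, prod_div_distrib, prod_const]
  congr 1
  rw [← Nat.cast_prod, Nat.prod_primeFactors_of_squarefree he2]

/-- the average with the additional weight -/
lemma avg_hh (z : ℕ) (G : ℕ → ℝ) (K : ℕ → ℝ) (C' A c : ℝ) (hz : 2 ≤ z) (hA : 1 ≤ A) (hc : 1 ≤ c)
    (hG : ∀ s, 0 ≤ G s)
    (hsub : ∀ y, z < y → ∀ s e : ℕ, s * e ∣ PP z y → G (s * e) ≤ bw A 1 e * G s)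
    (havg : ∀ y, z < y → ∑ s ∈ (PP z y).divisors, G s ≤ C' * K y) :
    ∃ C'' : ℝ, ∀ y, z < y → ∑ s ∈ (PP z y).divisors, hh c s * G s ≤ C'' * K y := by
  classical
  obtain ⟨C, hC⟩ := rv_q z 0 (c * A) (one_le_mul_of_one_le_of_one_le hc hA) hz le_rfl
  refine ⟨C * C', fun y hy => ?_⟩
  have hC1 : ∑ v ∈ (PP z y).divisors, bw (c * A) 2 v ≤ C := by
    have h := hC y hy
    simp only [zero_div, Real.rpow_zero, mul_one] at h
    exact h
  set P := PP z y with hP
  have hP0 : P ≠ 0 := PP_ne_zero z y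
  have hcA : 1 ≤ c * A := one_le_mul_of_one_le_of_one_le hc hA
  have hS0 : 0 ≤ ∑ s ∈ P.divisors, G s := sum_nonneg fun s _ => hG s
  have h1 : ∀ s ∈ P.divisors, hh c s * G s =
      ∑ e ∈ P.divisors.filter (fun e => e ∣ s), bw c 1 e * G s := by
    intro s hs
    rw [hh_eq (dv_squarefree hs), sum_mul]
    refine sum_congr ?_ fun _ _ => rfl
    ext e
    rw [Nat.mem_divisors, mem_filter, Nat.mem_divisors]
    have h2 := (Nat.mem_divisors.1 hs).1
    constructor
    · rintro ⟨h3, _⟩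
      exact ⟨⟨h3.trans h2, hP0⟩, h3⟩
    · rintro ⟨_, h3⟩
      exact ⟨h3, dv_ne_zero hs⟩
  have h2 : ∀ e ∈ P.divisors, ∑ s ∈ P.divisors.filter (fun s => e ∣ s), bw c 1 e * G s ≤
      bw (c * A) 2 e * ∑ s ∈ P.divisors, G s := by
    intro e he
    have he0 : 0 < e := Nat.pos_of_ne_zero (dv_ne_zero he)
    have hb0 : 0 ≤ bw c 1 e := bw_nonneg hc _ _
    have hb1 : 0 ≤ bw A 1 e := bw_nonneg hA _ _
    have h3 : ∑ s ∈ P.divisors.filter (fun s => e ∣ s), G s ≤
        bw A 1 e * ∑ s ∈ P.divisors, G s := by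
      have h4 : ∀ s ∈ P.divisors.filter (fun s => e ∣ s), G s ≤ bw A 1 e * G (s / e) := by
        intro s hs
        rw [mem_filter] at hs
        have h5 : s / e * e = s := Nat.div_mul_cancel hs.2
        have h6 := hsub y hy (s / e) e (by
          rw [h5]
          exact (Nat.mem_divisors.1 hs.1).1)
        rwa [h5] at h6
      refine (sum_le_sum h4).trans ?_
      rw [← mul_sum]
      refine mul_le_mul_of_nonneg_left ?_ hb1
      have h5 : ∑ s ∈ P.divisors.filter (fun s => e ∣ s), G (s / e) =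
          ∑ s ∈ (P.divisors.filter (fun s => e ∣ s)).image (fun s => s / e), G s := by
        rw [sum_image]
        intro s hs s' hs' h
        rw [mem_coe, mem_filter] at hs hs'
        simp only at h
        rw [← Nat.div_mul_cancel hs.2, h, Nat.div_mul_cancel hs'.2]
      rw [h5]
      refine sum_le_sum_of_subset_of_nonneg ?_ fun s _ _ => hG s
      intro s hs
      obtain ⟨s', hs', rfl⟩ := mem_image.1 hs
      rw [mem_filter] at hs'
      exact Nat.mem_divisors.2 ⟨(Nat.div_dvd_of_dvd hs'.2).trans (Nat.mem_divisors.1 hs'.1).1, hP0⟩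
    rw [← mul_sum]
    refine (mul_le_mul_of_nonneg_left h3 hb0).trans (le_of_eq ?_)
    unfold bw
    rw [mul_pow]
    have he1 : (e : ℝ) ≠ 0 := by exact_mod_cast he0.ne'
    field_simp
  calc ∑ s ∈ P.divisors, hh c s * G s
      = ∑ s ∈ P.divisors, ∑ e ∈ P.divisors.filter (fun e => e ∣ s), bw c 1 e * G s :=
        sum_congr rfl h1
    _ = ∑ e ∈ P.divisors, ∑ s ∈ P.divisors.filter (fun s => e ∣ s), bw c 1 e * G s := by
        refine sum_comm' fun s e => ?_
        simp only [mem_filter]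
        tauto
    _ ≤ ∑ e ∈ P.divisors, bw (c * A) 2 e * ∑ s ∈ P.divisors, G s := sum_le_sum h2
    _ = (∑ e ∈ P.divisors, bw (c * A) 2 e) * ∑ s ∈ P.divisors, G s := by rw [sum_mul]
    _ ≤ C * ∑ s ∈ P.divisors, G s := mul_le_mul_of_nonneg_right hC1 hS0
    _ ≤ C * (C' * K y) := by
        refine mul_le_mul_of_nonneg_left (havg y hy) (le_trans ?_ hC1)
        exact sum_nonneg fun e _ => bw_nonneg hcA _ _
    _ = _ := by ring

/-- the upper bound of the product over the primes -/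
lemma prod_mertG {m : ℕ} (g : Fin m → ℤ[X])
    (hirr : ∀ j, Irreducible ((g j).map (Int.castRingHom ℚ))) (G : ℤ[X]) (z : ℕ)
    (hsum : ∀ p : ℕ, p.Prime → z < p → rho G p = ∑ j, rho (g j) p)
    (hle : ∀ p : ℕ, p.Prime → z < p → rho G p ≤ p) (hz : 2 ≤ z) :
    ∃ C : ℝ, 0 ≤ C ∧ ∀ y : ℕ, z < y →
    ∏ p ∈ PS z y, (1 - (rho G p : ℝ) / p) ≤ C / (Real.log y) ^ m := by
  classical
  have h0 : ∀ j, ∃ C0 : ℝ, ∀ y : ℕ, 3 ≤ y →
      Real.log (Real.log y) - C0 ≤ ∑ p ∈ PS z y, (rho (g j) p : ℝ) / p := by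
    intro j
    have hne : g j ≠ 0 := by
      intro h
      have h1 := (hirr j).ne_zero
      rw [h, Polynomial.map_zero] at h1
      exact h1 rfl
    obtain ⟨C0, hC0⟩ := mert_two (g j) hne (hirr j).squarefree z
    refine ⟨C0, fun y hy => ?_⟩
    have h1 := (abs_le.1 (hC0 y hy)).1
    have h2 : nf (g j) = 1 := by
      unfold nf
      rw [UniqueFactorizationMonoid.normalizedFactors_irreducible (hirr j), Multiset.card_singleton]
    rw [h2, Nat.cast_one, one_mul] at h1
    linarith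
  choose C0 hC0 using h0
  refine ⟨Real.exp (∑ j, C0 j), (Real.exp_pos _).le, fun y hy => ?_⟩
  have hy3 : 3 ≤ y := by omega
  have hyr : (3 : ℝ) ≤ y := by exact_mod_cast hy3
  have hl : 0 < Real.log y := Real.log_pos (by linarith)
  have h1 : m * Real.log (Real.log y) - ∑ j, C0 j ≤ ∑ p ∈ PS z y, (rho G p : ℝ) / p := by
    have h2 : ∑ p ∈ PS z y, (rho G p : ℝ) / p = ∑ j, ∑ p ∈ PS z y, (rho (g j) p : ℝ) / p := by
      rw [sum_comm]
      refine sum_congr rfl fun p hp => ?_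
      rw [hsum p (mem_PS.1 hp).2 (mem_PS.1 hp).1.1, Nat.cast_sum, sum_div]
    rw [h2]
    have h3 : ∑ j : Fin m, (Real.log (Real.log y) - C0 j) ≤
        ∑ j, ∑ p ∈ PS z y, (rho (g j) p : ℝ) / p := sum_le_sum fun j _ => hC0 j y hy3
    rw [sum_sub_distrib, sum_const, card_univ, Fintype.card_fin, nsmul_eq_mul] at h3
    exact h3
  have h3 : ∏ p ∈ PS z y, (1 - (rho G p : ℝ) / p) ≤
      ∏ p ∈ PS z y, Real.exp (-((rho G p : ℝ) / p)) := by
    refine prod_le_prod (fun p hp => ?_) fun p hp => ?_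
    · have h4 := mem_PS.1 hp
      have h5 : (rho G p : ℝ) ≤ p := by exact_mod_cast hle p h4.2 h4.1.1
      have h6 : (0 : ℝ) < p := by exact_mod_cast h4.2.pos
      rw [sub_nonneg, div_le_one h6]
      exact h5
    · have := Real.add_one_le_exp (-((rho G p : ℝ) / p))
      linarith
  refine h3.trans ?_
  rw [← Real.exp_sum, sum_neg_distrib]
  have h5 : Real.exp (∑ j, C0 j) / (Real.log y) ^ m =
      Real.exp (∑ j, C0 j - m * Real.log (Real.log y)) := by
    rw [Real.exp_sub, Real.exp_nat_mul (Real.log (Real.log y)), Real.exp_log hl]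
  rw [h5]
  apply Real.exp_le_exp.2
  linarith

end Pool.Agent.H27.PG
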