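import Mathlib
import Pool.Agent.H64.QM.U1
import Pool.Agent.H64.QM.U3
import Pool.Agent.H27.PG.G0
import Pool.Agent.H27.RU.SvP
import Pool.Agent.H27.RU.SvA

/-!
# Cells in arithmetic progressions, with a second polynomial that is sifted
-/

set_option autoImplicit false

namespace Pool.Agent.H27.PG

open Finset Pool.Agent.W262.RK Polynomial
open Pool.Agent.H64.PM (Zr rho dvd_congr ty Smp Om Om2 Wt2 bw bw_eq Lam rho_half prod_le_K q1 q2
  q1_prime q2_prime)
open Pool.Agent.H64.QM (Sp Sp_of sc ty3 ty3_dvd ty3_lt cntP card_OmS card_Om2S sc_one prod_le_subR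
  one_le_prodR)
open Pool.Agent.H27.RU (gq gq_ge_one fac_ge_one)

/-- the composition with `t0 + q x` -/
noncomputable def cp (f : ℤ[X]) (q : ℕ) (t0 : ℤ) : ℤ[X] := f.comp (C (q : ℤ) * X + C t0)

lemma cp_eval (f : ℤ[X]) (q : ℕ) (t0 x : ℤ) : (cp f q t0).eval x = f.eval (t0 + q * x) := by
  unfold cp
  rw [eval_comp, eval_add, eval_mul, eval_X, eval_C, eval_C, add_comm]

lemma Sp_cp {f : ℤ[X]} {p q : ℕ} (hp : p.Prime) (hq : ¬ p ∣ q) (hf : Sp f p) (t0 : ℤ) :
    Sp (cp f q t0) p := by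
  have hpi : Prime (p : ℤ) := Nat.prime_iff_prime_int.1 hp
  intro x hx hx'
  rw [cp_eval] at hx
  apply hf _ hx
  unfold cp at hx'
  rw [derivative_comp, eval_mul, eval_comp] at hx'
  have e1 : (C (q : ℤ) * X + C t0 : ℤ[X]).derivative.eval x = q := by
    simp
  have e2 : (C (q : ℤ) * X + C t0 : ℤ[X]).eval x = t0 + q * x := by
    rw [eval_add, eval_mul, eval_X, eval_C, eval_C, add_comm]
  rw [e1, e2] at hx'
  rcases hpi.dvd_or_dvd hx' with h | h
  · exact absurd (Int.natCast_dvd_natCast.1 h) hq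
  · exact h

lemma rho_cp {f : ℤ[X]} {p q : ℕ} (hp : p.Prime) (hq : ¬ p ∣ q) (t0 : ℤ) :
    rho (cp f q t0) p = rho f p := by
  classical
  have : Fact p.Prime := ⟨hp⟩
  have hq' : (q : ZMod p) ≠ 0 := fun h => hq ((ZMod.natCast_eq_zero_iff _ _).1 h)
  have key : ∀ a b : ℤ, (a : ZMod p) = (b : ZMod p) → (p : ℤ) ∣ a - b := by
    intro a b h
    rw [← ZMod.intCast_zmod_eq_zero_iff_dvd]
    push_cast
    rw [h, sub_self]
  unfold rho Zr
  refine card_nbij' (fun n : ℕ => ((t0 : ZMod p) + q * (n : ZMod p)).val)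
    (fun x : ℕ => (((x : ZMod p) - t0) * (q : ZMod p)⁻¹).val) ?_ ?_ ?_ ?_
  · intro n hn
    rw [mem_coe, mem_filter, cp_eval] at hn
    rw [mem_coe, mem_filter]
    refine ⟨mem_range.2 (ZMod.val_lt _), (dvd_congr f (key _ _ ?_)).1 hn.2⟩
    push_cast
    rw [ZMod.natCast_zmod_val]
  · intro x hx
    rw [mem_coe, mem_filter] at hx
    rw [mem_coe, mem_filter, cp_eval]
    refine ⟨mem_range.2 (ZMod.val_lt _), (dvd_congr f (key _ _ ?_)).1 hx.2⟩
    push_cast
    rw [ZMod.natCast_zmod_val]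
    field_simp
    ring
  · intro n hn
    rw [mem_coe, mem_filter, mem_range] at hn
    show (((((((t0 : ZMod p) + q * (n : ZMod p)).val : ℕ) : ZMod p)) - t0) * (q : ZMod p)⁻¹).val = n
    rw [ZMod.natCast_zmod_val]
    have : ((t0 : ZMod p) + q * (n : ZMod p) - t0) * (q : ZMod p)⁻¹ = n := by
      field_simp
      ring
    rw [this]
    exact ZMod.val_natCast_of_lt hn.1
  · intro x hx
    rw [mem_coe, mem_filter, mem_range] at hx
    show ((t0 : ZMod p) + q * ((((((x : ZMod p) - t0) * (q : ZMod p)⁻¹).val : ℕ) : ZMod p))).val = x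
    rw [ZMod.natCast_zmod_val]
    have : (t0 : ZMod p) + q * (((x : ZMod p) - t0) * (q : ZMod p)⁻¹) = x := by
      field_simp
      ring
    rw [this]
    exact ZMod.val_natCast_of_lt hx.1

/-- the two notions of the type -/
lemma ty_cp {f : ℤ[X]} {p q x : ℕ} {t0 : ℤ} (hp : p.Prime) (hq : ¬ p ∣ q) :
    ty (cp f q t0) p x =
      ((((((ty3 f 1 p (t0 + q * x)).1 : ℕ) : ZMod p) - t0) * (q : ZMod p)⁻¹).val,
      (ty3 f 1 p (t0 + q * x)).2) := by
  have : Fact p.Prime := ⟨hp⟩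
  have hq' : (q : ZMod p) ≠ 0 := fun h => hq ((ZMod.natCast_eq_zero_iff _ _).1 h)
  refine Prod.ext ?_ ?_
  · show x % p = ((((((ty3 f 1 p (t0 + q * x)).1 : ℕ) : ZMod p) - t0) * (q : ZMod p)⁻¹)).val
    unfold ty3
    rw [ZMod.natCast_zmod_val]
    have : ((((t0 + q * x : ℤ) : ZMod p) * ((1 : ℕ) : ZMod p)⁻¹ - t0) * (q : ZMod p)⁻¹) =
        (x : ZMod p) := by
      push_cast
      rw [inv_one, mul_one]
      field_simp
      ring
    rw [this, ZMod.val_natCast]
  · show decide (jacobiSym ((cp f q t0).eval (x : ℤ) / p) p = -1) =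
      decide (jacobiSym ((sc f 1).eval (t0 + q * x) / p) p = -1)
    rw [cp_eval, sc_one]

/-- the primes that divide `q` -/
lemma prodq {φ : ℕ → ℝ} {c z y q : ℕ} (hz : 2 * c + 2 ≤ z) (hq : q ≠ 0)
    (h1 : ∀ p ∈ PS z y, 1 - (c : ℝ) / p ≤ φ p) :
    ∏ p ∈ (PS z y).filter (fun p => ¬ p ∣ q), φ p ≤ (∏ p ∈ PS z y, φ p) * gq z c q := by
  classical
  have hφ : ∀ p ∈ PS z y, 0 < φ p := by
    intro p hp
    have h2 := (mem_PS.1 hp).1.1
    have h3 : (0 : ℝ) < p := by exact_mod_cast (by omega : 0 < p)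
    refine lt_of_lt_of_le ?_ (h1 p hp)
    rw [sub_pos, div_lt_one h3]
    exact_mod_cast (by omega : c < p)
  have h2 : (∏ p ∈ (PS z y).filter (fun p => ¬ p ∣ q), φ p) *
      ∏ p ∈ (PS z y).filter (fun p => ¬ ¬ p ∣ q), φ p = ∏ p ∈ PS z y, φ p :=
    prod_filter_mul_prod_filter_not _ _ _
  have h3 : 1 ≤ (∏ p ∈ (PS z y).filter (fun p => ¬ ¬ p ∣ q), φ p) * gq z c q := by
    have h4 : 1 ≤ (∏ p ∈ (PS z y).filter (fun p => ¬ ¬ p ∣ q), φ p) *
        ∏ p ∈ (PS z y).filter (fun p => ¬ ¬ p ∣ q), ((p : ℝ) / ((p : ℝ) - c)) := by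
      rw [← prod_mul_distrib]
      refine one_le_prodR fun p hp => ?_
      have h5 := (mem_filter.1 hp).1
      have h6 := (mem_PS.1 h5).1.1
      have h7 : (0 : ℝ) < p := by exact_mod_cast (by omega : 0 < p)
      have h8 : (c : ℝ) < p := by exact_mod_cast (by omega : c < p)
      have h9 : 0 < (p : ℝ) - c := by linarith
      calc (1 : ℝ) = (1 - (c : ℝ) / p) * ((p : ℝ) / ((p : ℝ) - c)) := by
            field_simp
        _ ≤ _ := mul_le_mul_of_nonneg_right (h1 p h5) (by positivity)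
    refine h4.trans (mul_le_mul_of_nonneg_left ?_ (prod_nonneg fun p hp =>
      (hφ p (mem_filter.1 hp).1).le))
    unfold gq
    refine prod_le_subR ?_ fun p hp => fac_ge_one hz (mem_filter.1 hp).2
    intro p hp
    rw [mem_filter, not_not] at hp
    have h5 := mem_PS.1 hp.1
    rw [mem_filter, Nat.mem_primeFactors]
    exact ⟨⟨h5.2, hp.2, hq⟩, h5.1.1⟩
  have h5 : 0 ≤ ∏ p ∈ (PS z y).filter (fun p => ¬ p ∣ q), φ p :=
    prod_nonneg fun p hp => (hφ p (mem_filter.1 hp).1).le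
  calc ∏ p ∈ (PS z y).filter (fun p => ¬ p ∣ q), φ p
      ≤ (∏ p ∈ (PS z y).filter (fun p => ¬ p ∣ q), φ p) *
        ((∏ p ∈ (PS z y).filter (fun p => ¬ ¬ p ∣ q), φ p) * gq z c q) :=
        le_mul_of_one_le_right h5 h3
    _ = _ := by rw [← mul_assoc, h2]

set_option maxHeartbeats 1000000 in
/-- the number of `x` in the cells with given types -/
theorem cellsA (n m : ℕ) :
    ∃ (C : ℝ) (K y0 : ℕ), 0 ≤ C ∧ 1 ≤ K ∧ ∀ (f fb g : ℤ[X]) (z n' : ℕ), 2 * (n + m) + 2 ≤ z → n' ≤ n →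
    (∀ p : ℕ, p.Prime → z < p → rho f p ≤ n') → Smp f z → Smp fb z →
    (∀ p : ℕ, p.Prime → z < p → ∀ t : ℤ, (p : ℤ) ∣ f.eval t → ¬ (p : ℤ) ^ 2 ∣ f.eval t →
      (p : ℤ) ∣ fb.eval t ∧ ¬ (p : ℤ) ^ 2 ∣ fb.eval t) →
    (∀ p : ℕ, p.Prime → z < p → rho (f * g) p = rho f p + rho g p) →
    (∀ p : ℕ, p.Prime → z < p → rho g p ≤ m) → ∀ (q : ℕ) (t0 : ℤ), 1 ≤ q →
    (∀ p : ℕ, p.Prime → z < p → p ∣ q → ¬ (p : ℤ) ∣ f.eval t0) →
    ∀ X y Y : ℕ, y0 ≤ y → z < y → y ^ K ≤ X →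
    ∀ s ∈ (PP z y).divisors, ∀ v ∈ (PP z y).divisors, ∀ u ∈ (PP y Y).divisors,
    (s * v * u) ^ 8 ≤ X → ∀ ε : ℕ → ℕ × Bool,
    (((Icc 1 X).filter (fun x : ℕ => (∀ p ∈ PS z y, ¬ (p : ℤ) ∣ g.eval (t0 + q * x : ℤ)) ∧
      q1 z y (f.eval (t0 + q * x : ℤ)) = s ∧
      q2 z y (f.eval (t0 + q * x : ℤ)) = v ∧ (u : ℤ) ∣ f.eval (t0 + q * x : ℤ) ∧
      ∀ p ∈ s.primeFactors, ty3 fb 1 p (t0 + q * x) = ε p)).card : ℝ) ≤
      C * X * ((∏ p ∈ s.primeFactors, Wt2 f p) * hh (2 * m) s) * bw (4 * n) 2 v * bw n 1 u /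
        Lam (fun p => (rho f p : ℝ) / p) z y * (gq z n' q * gq z m q) *
        ∏ p ∈ PS z y, (1 - (rho g p : ℝ) / p) := by
  classical
  obtain ⟨C, K, y0, hC, hK, h⟩ := cntP (n + m)
  refine ⟨C, K, y0, hC, hK, fun f fb g z n' hnm hn'n hρ' hf hfb hffb hρg hρm q t0 hq1 hq0 X y
    Y hy hzy hyX s hs v hv u hu h8 ε => ?_⟩
  have hρ : ∀ p : ℕ, p.Prime → z < p → rho f p ≤ n := fun p hp hz => (hρ' p hp hz).trans hn'n
  have hn : 2 * n + 2 ≤ z := by omega
  have hm : 2 * m + 2 ≤ z := by omega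
  have hqne : q ≠ 0 := by omega
  set F := cp f q t0 with hF
  set Fb := cp fb q t0 with hFb
  set G := cp (f * g) q t0 with hG
  have hFe : ∀ x : ℕ, f.eval (t0 + q * x : ℤ) = F.eval (x : ℤ) := fun x => by rw [hF, cp_eval]
  simp only [hFe]
  set S := (Icc 1 X).filter (fun x : ℕ => (∀ p ∈ PS z y, ¬ (p : ℤ) ∣ g.eval (t0 + q * x : ℤ)) ∧
      q1 z y (F.eval (x : ℤ)) = s ∧ q2 z y (F.eval (x : ℤ)) = v ∧ (u : ℤ) ∣ F.eval (x : ℤ) ∧
      ∀ p ∈ s.primeFactors, ty3 fb 1 p (t0 + q * x) = ε p) with hS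
  have hLam : 0 < Lam (fun p => (rho f p : ℝ) / p) z y := Real.exp_pos _
  have hs0 := dv_ne_zero hs
  have hv0 := dv_ne_zero hv
  have hu0 := dv_ne_zero hu
  have hsz : ∀ p ∈ s.primeFactors, p.Prime ∧ z < p ∧ p ≤ y := fun p hp =>
    ⟨Nat.prime_of_mem_primeFactors hp, dv_prime hs (Nat.prime_of_mem_primeFactors hp)
      (Nat.dvd_of_mem_primeFactors hp)⟩
  have hvz : ∀ p ∈ v.primeFactors, p.Prime ∧ z < p ∧ p ≤ y := fun p hp =>
    ⟨Nat.prime_of_mem_primeFactors hp, dv_prime hv (Nat.prime_of_mem_primeFactors hp)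
      (Nat.dvd_of_mem_primeFactors hp)⟩
  have huz : ∀ p ∈ u.primeFactors, p.Prime ∧ y < p ∧ p ≤ Y := fun p hp =>
    ⟨Nat.prime_of_mem_primeFactors hp, dv_prime hu (Nat.prime_of_mem_primeFactors hp)
      (Nat.dvd_of_mem_primeFactors hp)⟩
  have hWpos : ∀ p ∈ s.primeFactors, 0 ≤ Wt2 f p := by
    intro p hp
    obtain ⟨hp1, hp2, _⟩ := hsz p hp
    obtain ⟨h0, h1, h2⟩ := rho_half hn hρ hp1 hp2
    have h3 : 0 < 1 - (rho f p : ℝ) / p := by linarith
    rw [sub_pos, div_lt_one h0] at h3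
    unfold Wt2
    have : 0 < (p : ℝ) - rho f p := by linarith
    positivity
  have hm1 : ∀ p ∈ PS z y, (rho g p : ℝ) / p ≤ 1 / 2 ∧ 0 ≤ (rho g p : ℝ) / p ∧
      (rho g p : ℝ) / p ≤ (m : ℝ) / p := by
    intro p hp
    have h5 := mem_PS.1 hp
    have h6 : (0 : ℝ) < p := by exact_mod_cast h5.2.pos
    have h8 := hρm p h5.2 h5.1.1
    refine ⟨?_, by positivity, ?_⟩
    · rw [div_le_div_iff₀ h6 (by norm_num)]
      have h7 : (2 : ℝ) * rho g p ≤ p := by exact_mod_cast (by omega : 2 * rho g p ≤ p)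
      linarith
    · refine div_le_div_of_nonneg_right ?_ h6.le
      exact_mod_cast h8
  have hgn1 : 1 ≤ gq z n' q := gq_ge_one (by omega)
  have hgm1 : 1 ≤ gq z m q := gq_ge_one hm
  have hφ2 : 0 ≤ ∏ p ∈ PS z y, (1 - (rho g p : ℝ) / p) := prod_nonneg fun p hp => by
    have := (hm1 p hp).1
    linarith
  have hhs : 1 ≤ hh (2 * m) s := hh_ge_one (by positivity) s
  have hRHS : 0 ≤ C * X * ((∏ p ∈ s.primeFactors, Wt2 f p) * hh (2 * m) s) * bw (4 * n) 2 v *
      bw n 1 u / Lam (fun p => (rho f p : ℝ) / p) z y * (gq z n' q * gq z m q) *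
        ∏ p ∈ PS z y, (1 - (rho g p : ℝ) / p) := by
    have h1 : 0 ≤ ∏ p ∈ s.primeFactors, Wt2 f p := prod_nonneg hWpos
    have h2 : 0 ≤ bw (4 * n) 2 v := by unfold bw; positivity
    have h3 : 0 ≤ bw n 1 u := by unfold bw; positivity
    positivity
  by_cases hne : S.Nonempty
  swap
  · rw [not_nonempty_iff_eq_empty] at hne
    rw [hne, card_empty, Nat.cast_zero]
    exact hRHS
  obtain ⟨x0, hx0⟩ := hne
  rw [hS, mem_filter] at hx0
  have hnw : ∀ p : ℕ, p.Prime → z < p → (p : ℤ) ∣ F.eval (x0 : ℤ) → ¬ p ∣ q := by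
    intro p hp hzp h1 h2
    rw [← hFe] at h1
    refine hq0 p hp hzp h2 ((dvd_congr f ?_).1 h1)
    have e1 : (t0 + q * x0 : ℤ) - t0 = q * x0 := by ring
    rw [e1]
    exact (Int.natCast_dvd_natCast.2 h2).mul_right _
  have hdisj : Disjoint s.primeFactors v.primeFactors := by
    rw [disjoint_left]
    intro p hp hp'
    have h1 := Nat.prime_of_mem_primeFactors hp
    have h2 := (q1_prime h1).1 (by rw [hx0.2.2.1]; exact Nat.dvd_of_mem_primeFactors hp)
    have h3 := (q2_prime h1).1 (by rw [hx0.2.2.2.1]; exact Nat.dvd_of_mem_primeFactors hp')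
    exact h2.2.2 h3.2
  have hsw : ∀ p ∈ s.primeFactors, ¬ p ∣ q := by
    intro p hp
    obtain ⟨hp1, hp2, _⟩ := hsz p hp
    exact hnw p hp1 hp2
      ((q1_prime hp1).1 (by rw [hx0.2.2.1]; exact Nat.dvd_of_mem_primeFactors hp)).2.1
  have hvw : ∀ p ∈ v.primeFactors, ¬ p ∣ q := by
    intro p hp
    obtain ⟨hp1, hp2, _⟩ := hvz p hp
    exact hnw p hp1 hp2 ((dvd_pow_self (p : ℤ) two_ne_zero).trans
      ((q2_prime hp1).1 (by rw [hx0.2.2.2.1]; exact Nat.dvd_of_mem_primeFactors hp)).2)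
  have huw : ∀ p ∈ u.primeFactors, ¬ p ∣ q := by
    intro p hp
    obtain ⟨hp1, hp2, _⟩ := huz p hp
    exact hnw p hp1 (hzy.trans hp2)
      ((Int.natCast_dvd_natCast.2 (Nat.dvd_of_mem_primeFactors hp)).trans hx0.2.2.2.2.1)
  have hdisj2 : Disjoint (s.primeFactors ∪ v.primeFactors) u.primeFactors := by
    rw [disjoint_left]
    intro p hp hp'
    have h1 := (huz p hp').2.1
    rcases mem_union.1 hp with h2 | h2
    · have := (hsz p h2).2.2
      omega
    · have := (hvz p h2).2.2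
      omega
  set P := (PS z y).filter (fun p => ¬ p ∣ q) with hP
  have hPs : P ⊆ PS z y := filter_subset _ _
  have hgρ : ∀ p : ℕ, p.Prime → ¬ p ∣ q → rho F p = rho f p := fun p hp hpw => by
    rw [hF, rho_cp hp hpw]
  have hGρ : ∀ p ∈ P, rho G p = rho f p + rho g p := fun p hp => by
    rw [hG, rho_cp (mem_PS.1 (hPs hp)).2 (mem_filter.1 hp).2,
      hρg p (mem_PS.1 (hPs hp)).2 (mem_PS.1 (hPs hp)).1.1]
  set T := s.primeFactors ∪ v.primeFactors ∪ u.primeFactors with hT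
  set e : ℕ → ℕ := fun p => if p ∈ s.primeFactors ∪ v.primeFactors then 2 else 1 with he
  set τ' : ℕ → ℕ × Bool := fun p =>
    (((((ε p).1 : ZMod p) - (t0 : ZMod p)) * (q : ZMod p)⁻¹).val, (ε p).2) with hτ'
  have hFFb : ∀ p : ℕ, p.Prime → z < p → ∀ x : ℤ, (p : ℤ) ∣ F.eval x → ¬ (p : ℤ) ^ 2 ∣ F.eval x →
      (p : ℤ) ∣ Fb.eval x ∧ ¬ (p : ℤ) ^ 2 ∣ Fb.eval x := by
    intro p hp hzp x h1 h2
    rw [hF, cp_eval] at h1 h2
    rw [hFb, cp_eval]
    exact hffb p hp hzp _ h1 h2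
  set Ω : ℕ → Finset ℕ := fun p => if p ∈ s.primeFactors then
    Om Fb p (τ' p) else
    if p ∈ v.primeFactors then Om2 F p else Zr F p with hΩ
  have hTp : ∀ p ∈ T, p.Prime := by
    intro p hp
    rw [hT, mem_union, mem_union] at hp
    rcases hp with (hp | hp) | hp
    · exact (hsz p hp).1
    · exact (hvz p hp).1
    · exact (huz p hp).1
  have hTw : ∀ p ∈ T, ¬ p ∣ q := by
    intro p hp
    rw [hT, mem_union, mem_union] at hp
    rcases hp with (hp | hp) | hp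
    · exact hsw p hp
    · exact hvw p hp
    · exact huw p hp
  have he1 : ∀ p ∈ T, 1 ≤ e p := by
    intro p _
    simp only [he]
    split_ifs <;> norm_num
  have hsplit : ∀ F : ℕ → ℝ, ∏ p ∈ T, F p = (∏ p ∈ s.primeFactors, F p) *
      (∏ p ∈ v.primeFactors, F p) * ∏ p ∈ u.primeFactors, F p := by
    intro F
    rw [hT, prod_union hdisj2, prod_union hdisj]
  have hM : (∏ p ∈ T, p ^ e p) ^ 4 ≤ X := by
    refine le_trans ?_ h8
    have h1 : ∏ p ∈ T, p ^ e p ≤ (s * v * u) ^ 2 := by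
      have h2 : ∏ p ∈ T, p ^ e p ≤ ∏ p ∈ T, p ^ 2 := by
        refine prod_le_prod' fun p hp => ?_
        refine Nat.pow_le_pow_right (hTp p hp).pos ?_
        simp only [he]
        split_ifs <;> norm_num
      refine h2.trans ?_
      rw [prod_pow]
      refine Nat.pow_le_pow_left ?_ 2
      rw [hT, prod_union hdisj2, prod_union hdisj,
        Nat.prod_primeFactors_of_squarefree (dv_squarefree hs),
        Nat.prod_primeFactors_of_squarefree (dv_squarefree hv),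
        Nat.prod_primeFactors_of_squarefree (dv_squarefree hu)]
    calc (∏ p ∈ T, p ^ e p) ^ 4 ≤ ((s * v * u) ^ 2) ^ 4 := Nat.pow_le_pow_left h1 4
      _ = (s * v * u) ^ 8 := by rw [← pow_mul]
  have hcnt := h G z hnm X y hy hzy hyX P hPs (fun p hp => by
    rw [hGρ p hp]
    exact Nat.add_le_add (hρ p (mem_PS.1 (hPs hp)).2 (mem_PS.1 (hPs hp)).1.1)
      (hρm p (mem_PS.1 (hPs hp)).2 (mem_PS.1 (hPs hp)).1.1))
    T e Ω hTp he1 hM
  have hmodsq : ∀ (t p : ℕ), ((t % p ^ 2 : ℕ) : ℤ) = (t : ℤ) - (p : ℤ) ^ 2 * (t / p ^ 2 : ℕ) := by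
    intro t p
    have := Nat.mod_add_div t (p ^ 2)
    zify at this ⊢
    linarith
  have hdv2 : ∀ (t p : ℕ), (p : ℤ) ^ 2 ∣ (t : ℤ) - ((t % p ^ 2 : ℕ) : ℤ) := by
    intro t p
    rw [hmodsq]
    exact ⟨(t / p ^ 2 : ℕ), by ring⟩
  have hdv1 : ∀ (t p : ℕ), (p : ℤ) ∣ (t : ℤ) - ((t % p ^ 2 : ℕ) : ℤ) := fun t p =>
    (dvd_pow_self (p : ℤ) two_ne_zero).trans (hdv2 t p)
  have hsub : S ⊆ (Icc 1 X).filter (fun t : ℕ => (∀ p ∈ T, t % p ^ e p ∈ Ω p) ∧
      ∀ p ∈ P, p ∉ T → ¬ (p : ℤ) ∣ G.eval (t : ℤ)) := by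
    intro t ht
    rw [hS, mem_filter] at ht
    obtain ⟨ht1, htg, hts, htv, htu, htε⟩ := ht
    rw [mem_filter]
    refine ⟨ht1, fun p hp => ?_, fun p hp hpT hpf => ?_⟩
    · have hpp := hTp p hp
      have hpi : Prime (p : ℤ) := Nat.prime_iff_prime_int.1 hpp
      by_cases h1 : p ∈ s.primeFactors
      · have e1 : e p = 2 := by
          simp only [he]
          rw [if_pos (mem_union_left _ h1)]
        have e2 : Ω p = Om Fb p (τ' p) := by
          simp only [hΩ]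
          rw [if_pos h1]
        have h2 := (q1_prime hpp).1 (by rw [hts]; exact Nat.dvd_of_mem_primeFactors h1)
        have h2b := hFFb p hpp (hsz p h1).2.1 _ h2.2.1 h2.2.2
        have e3 : τ' p = ty Fb p t := by
          simp only [hτ']
          rw [← htε p h1, hFb, ty_cp hpp (hTw p hp)]
        rw [e1, e2, Om, mem_filter, mem_range]
        refine ⟨Nat.mod_lt _ (pow_pos hpp.pos 2), (dvd_congr Fb (hdv1 t p)).1 h2b.1,
          fun h3 => h2b.2 ((dvd_congr Fb (hdv2 t p)).2 h3), ?_⟩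
        rw [e3]
        unfold ty
        refine Prod.ext ?_ ?_
        · show t % p ^ 2 % p = t % p
          exact Nat.mod_mod_of_dvd _ (dvd_pow_self p two_ne_zero)
        · show decide (jacobiSym (Fb.eval ((t % p ^ 2 : ℕ) : ℤ) / p) p = -1) =
            decide (jacobiSym (Fb.eval (t : ℤ) / p) p = -1)
          have h3 : Fb.eval ((t % p ^ 2 : ℕ) : ℤ) / p ≡ Fb.eval (t : ℤ) / p [ZMOD p] := by
            rw [Int.modEq_iff_dvd]
            have h4 : (p : ℤ) ^ 2 ∣ Fb.eval (t : ℤ) - Fb.eval ((t % p ^ 2 : ℕ) : ℤ) :=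
              (hdv2 t p).trans (Polynomial.sub_dvd_eval_sub _ _ Fb)
            have h5 := (dvd_congr Fb (hdv1 t p)).1 h2b.1
            obtain ⟨a, ha⟩ := h2b.1
            obtain ⟨b, hb⟩ := h5
            rw [ha, hb, Int.mul_ediv_cancel_left _ hpi.ne_zero,
              Int.mul_ediv_cancel_left _ hpi.ne_zero]
            rw [ha, hb, ← mul_sub, pow_two] at h4
            exact (mul_dvd_mul_iff_left hpi.ne_zero).1 h4
          rw [jacobiSym.mod_left' h3]
      · by_cases h2 : p ∈ v.primeFactors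
        · have e1 : e p = 2 := by
            simp only [he]
            rw [if_pos (mem_union_right _ h2)]
          have e2 : Ω p = Om2 F p := by
            simp only [hΩ]
            rw [if_neg h1, if_pos h2]
          have h3 := (q2_prime hpp).1 (by rw [htv]; exact Nat.dvd_of_mem_primeFactors h2)
          rw [e1, e2, Om2, mem_filter, mem_range]
          exact ⟨Nat.mod_lt _ (pow_pos hpp.pos 2), (dvd_congr F (hdv2 t p)).1 h3.2⟩
        · have e1 : e p = 1 := by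
            simp only [he]
            rw [if_neg]
            rw [mem_union]
            rintro (h3 | h3)
            · exact h1 h3
            · exact h2 h3
          have e2 : Ω p = Zr F p := by
            simp only [hΩ]
            rw [if_neg h1, if_neg h2]
          have h3 : p ∈ u.primeFactors := by
            rw [hT, mem_union, mem_union] at hp
            rcases hp with (hp | hp) | hp
            · exact absurd hp h1
            · exact absurd hp h2
            · exact hp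
          have h4 : (p : ℤ) ∣ F.eval (t : ℤ) :=
            (Int.natCast_dvd_natCast.2 (Nat.dvd_of_mem_primeFactors h3)).trans htu
          rw [e1, e2, pow_one, Zr, mem_filter, mem_range]
          refine ⟨Nat.mod_lt _ hpp.pos, (dvd_congr F ?_).1 h4⟩
          have h5 : ((t % p : ℕ) : ℤ) = (t : ℤ) - p * (t / p : ℕ) := by
            have := Nat.mod_add_div t p
            zify at this ⊢
            linarith
          rw [h5]
          exact ⟨(t / p : ℕ), by ring⟩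
    · have hpPS := hPs hp
      have hpp := (mem_PS.1 hpPS).2
      have hpi : Prime (p : ℤ) := Nat.prime_iff_prime_int.1 hpp
      have hpf2 : (p : ℤ) ∣ F.eval (t : ℤ) := by
        rw [hG, cp_eval, eval_mul] at hpf
        rw [hF, cp_eval]
        exact (hpi.dvd_or_dvd hpf).resolve_right (htg p hpPS)
      apply hpT
      rw [hT, mem_union, mem_union]
      left
      by_cases h1 : (p : ℤ) ^ 2 ∣ F.eval (t : ℤ)
      · right
        rw [← htv]
        exact Nat.mem_primeFactors.2 ⟨hpp, (q2_prime hpp).2 ⟨hpPS, h1⟩, by rw [htv]; exact hv0⟩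
      · left
        rw [← hts]
        exact Nat.mem_primeFactors.2 ⟨hpp, (q1_prime hpp).2 ⟨hpPS, hpf2, h1⟩,
          by rw [hts]; exact hs0⟩
  have hcard : (S.card : ℝ) ≤ _ :=
    (by exact_mod_cast card_le_card hsub : (S.card : ℝ) ≤ _).trans hcnt
  refine hcard.trans ?_
  -- the products
  have hfac : ∀ p : ℕ, p.Prime → z < p → 0 < 1 - (rho f p : ℝ) / p := by
    intro p hp hz
    have := (rho_half hn hρ hp hz).2.2
    linarith
  have hPS : ∀ φ : ℕ → ℝ, (∏ p ∈ s.primeFactors, φ p) *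
      (∏ p ∈ v.primeFactors, φ p) *
      ∏ p ∈ P.filter (fun p => p ∉ T), φ p =
      ∏ p ∈ P, φ p := by
    intro φ
    rw [← prod_union hdisj]
    have h1 : s.primeFactors ∪ v.primeFactors = P.filter (fun p => ¬ p ∉ T) := by
      ext p
      rw [mem_filter, not_not, hT]
      constructor
      · intro hp
        refine ⟨?_, mem_union_left _ hp⟩
        rw [hP, mem_filter]
        rcases mem_union.1 hp with h2 | h2
        · exact ⟨mem_PS.2 ⟨(hsz p h2).2, (hsz p h2).1⟩, hsw p h2⟩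
        · exact ⟨mem_PS.2 ⟨(hvz p h2).2, (hvz p h2).1⟩, hvw p h2⟩
      · rintro ⟨h2, h3⟩
        rcases mem_union.1 h3 with h4 | h4
        · exact h4
        · exfalso
          have h5 := (huz p h4).2.1
          have h6 := (mem_PS.1 (hPs h2)).1.2
          omega
    rw [h1, mul_comm]
    exact prod_filter_mul_prod_filter_not _ _ _
  have hPw : ∏ p ∈ P, (1 - (rho f p : ℝ) / p) ≤
      1 / Lam (fun p => (rho f p : ℝ) / p) z y * gq z n' q := by
    refine (prodq (c := n') (by omega) hqne fun p hp => ?_).trans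
      (mul_le_mul_of_nonneg_right (prod_le_K hn hρ) (by linarith))
    have h5 := mem_PS.1 hp
    obtain ⟨h6, _, _⟩ := rho_half hn hρ h5.2 h5.1.1
    have h7 : (rho f p : ℝ) ≤ n' := by exact_mod_cast hρ' p h5.2 h5.1.1
    have h8 : (rho f p : ℝ) / p ≤ n' / p := div_le_div_of_nonneg_right h7 h6.le
    linarith
  have hSp : ∀ p : ℕ, p.Prime → z < p → ¬ p ∣ q → Sp F p := fun p hp hzp hpw =>
    Sp_cp hp hpw (Sp_of hf hp hzp) t0
  have hSpb : ∀ p : ℕ, p.Prime → z < p → ¬ p ∣ q → Sp Fb p := fun p hp hzp hpw =>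
    Sp_cp hp hpw (Sp_of hfb hp hzp) t0
  have hS1 : ∏ p ∈ s.primeFactors, ((Ω p).card : ℝ) / (p : ℝ) ^ e p ≤
      (∏ p ∈ s.primeFactors, Wt2 f p) * ∏ p ∈ s.primeFactors, (1 - (rho f p : ℝ) / p) := by
    rw [← prod_mul_distrib]
    refine prod_le_prod (fun p _ => by positivity) fun p hp => ?_
    obtain ⟨hp1, hp2, _⟩ := hsz p hp
    obtain ⟨h0, h1, h2⟩ := rho_half hn hρ hp1 hp2
    have e1 : e p = 2 := by
      simp only [he]
      rw [if_pos (mem_union_left _ hp)]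
    have e2 : Ω p = Om Fb p (τ' p) := by
      simp only [hΩ]
      rw [if_pos hp]
    rw [e1, e2]
    have h3 : 2 * (Om Fb p (τ' p)).card ≤ p - 1 :=
      card_OmS (hSpb p hp1 hp2 (hsw p hp)) hp1 (by omega) _
    have h4 : (2 : ℝ) * (Om Fb p (τ' p)).card ≤ p := by
      exact_mod_cast (by omega : 2 * (Om Fb p (τ' p)).card ≤ p)
    have h5 : 0 < (p : ℝ) - rho f p := by
      have := hfac p hp1 hp2
      rw [sub_pos, div_lt_one h0] at this
      linarith
    have h6 : Wt2 f p * (1 - (rho f p : ℝ) / p) = 1 / (2 * p) := by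
      unfold Wt2
      field_simp
    rw [h6, div_le_div_iff₀ (by positivity) (by positivity)]
    nlinarith
  have hV1 : ∏ p ∈ v.primeFactors, ((Ω p).card : ℝ) / (p : ℝ) ^ e p ≤
      bw (2 * n) 2 v * ∏ p ∈ v.primeFactors, (1 - (rho f p : ℝ) / p) := by
    have h1 : bw (2 * n) 2 v = ∏ p ∈ v.primeFactors, (2 * (n : ℝ)) / (p : ℝ) ^ 2 := by
      rw [bw_eq (A := 2 * (n : ℝ)) 2 (dv_squarefree hv)]
    rw [h1, ← prod_mul_distrib]
    refine prod_le_prod (fun p _ => by positivity) fun p hp => ?_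
    obtain ⟨hp1, hp2, _⟩ := hvz p hp
    obtain ⟨h0, h1, h2⟩ := rho_half hn hρ hp1 hp2
    have hns : p ∉ s.primeFactors := fun h => disjoint_left.1 hdisj h hp
    have e1 : e p = 2 := by
      simp only [he]
      rw [if_pos (mem_union_right _ hp)]
    have e2 : Ω p = Om2 F p := by
      simp only [hΩ]
      rw [if_neg hns, if_pos hp]
    rw [e1, e2]
    have h3 : ((Om2 F p).card : ℝ) ≤ n := by
      have h4 := card_Om2S (hSp p hp1 hp2 (hvw p hp)) hp1
      rw [hgρ p hp1 (hvw p hp)] at h4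
      exact le_trans (by exact_mod_cast h4) h1
    have h4 : (n : ℝ) ≤ 2 * n * (1 - (rho f p : ℝ) / p) := by nlinarith [Nat.cast_nonneg (α := ℝ) n]
    calc ((Om2 F p).card : ℝ) / (p : ℝ) ^ 2 ≤ (2 * n * (1 - (rho f p : ℝ) / p)) / (p : ℝ) ^ 2 := by
          gcongr
          exact h3.trans h4
      _ = _ := by ring
  have hU1 : ∏ p ∈ u.primeFactors, ((Ω p).card : ℝ) / (p : ℝ) ^ e p ≤ bw n 1 u := by
    have h1 : bw n 1 u = ∏ p ∈ u.primeFactors, (n : ℝ) / (p : ℝ) ^ 1 := by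
      rw [bw_eq (A := (n : ℝ)) 1 (dv_squarefree hu)]
    rw [h1]
    refine prod_le_prod (fun p _ => by positivity) fun p hp => ?_
    obtain ⟨hp1, hp2, _⟩ := huz p hp
    obtain ⟨h0, h1, h2⟩ := rho_half hn hρ hp1 (hzy.trans hp2)
    have hns : p ∉ s.primeFactors ∪ v.primeFactors := fun h => disjoint_left.1 hdisj2 h hp
    have hns1 : p ∉ s.primeFactors := fun h => hns (mem_union_left _ h)
    have hns2 : p ∉ v.primeFactors := fun h => hns (mem_union_right _ h)
    have e1 : e p = 1 := by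
      simp only [he]
      rw [if_neg hns]
    have e2 : Ω p = Zr F p := by
      simp only [hΩ]
      rw [if_neg hns1, if_neg hns2]
    rw [e1, e2]
    have h3 : ((Zr F p).card : ℝ) ≤ n := by
      have h4 : (Zr F p).card = rho f p := hgρ p hp1 (huw p hp)
      rw [h4]
      exact h1
    gcongr
  have hs1 : 0 ≤ ∏ p ∈ s.primeFactors, (1 - (rho f p : ℝ) / p) :=
    prod_nonneg fun p hp => (hfac p (hsz p hp).1 (hsz p hp).2.1).le
  have hv1 : 0 ≤ ∏ p ∈ v.primeFactors, (1 - (rho f p : ℝ) / p) :=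
    prod_nonneg fun p hp => (hfac p (hvz p hp).1 (hvz p hp).2.1).le
  have hPT1 : 0 ≤ ∏ p ∈ P.filter (fun p => p ∉ T), (1 - (rho f p : ℝ) / p) :=
    prod_nonneg fun p hp => by
      have h1 := mem_PS.1 (hPs (mem_filter.1 hp).1)
      exact (hfac p h1.2 h1.1.1).le
  have hPT2 : 0 ≤ ∏ p ∈ P.filter (fun p => p ∉ T), (1 - (rho g p : ℝ) / p) :=
    prod_nonneg fun p hp => by
      have h1 := (hm1 p (hPs (mem_filter.1 hp).1)).1
      linarith
  have hPeq : ∏ p ∈ P.filter (fun p => p ∉ T), (1 - (rho G p : ℝ) / p) ≤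
      (∏ p ∈ P.filter (fun p => p ∉ T), (1 - (rho f p : ℝ) / p)) *
        ∏ p ∈ P.filter (fun p => p ∉ T), (1 - (rho g p : ℝ) / p) := by
    rw [← prod_mul_distrib]
    refine prod_le_prod (fun p hp => ?_) fun p hp => ?_
    · have h1 := mem_PS.1 (hPs (mem_filter.1 hp).1)
      have h2 := hρ p h1.2 h1.1.1
      have h2' := hρm p h1.2 h1.1.1
      have h3 : (0 : ℝ) < p := by exact_mod_cast h1.2.pos
      rw [sub_nonneg, div_le_one h3, hGρ p (mem_filter.1 hp).1]
      exact_mod_cast (by omega : rho f p + rho g p ≤ p)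
    · rw [hGρ p (mem_filter.1 hp).1]
      push_cast
      have h1 := mem_PS.1 (hPs (mem_filter.1 hp).1)
      have h3 : (0 : ℝ) < p := by exact_mod_cast h1.2.pos
      have h4 : 0 ≤ (rho f p : ℝ) / p := by positivity
      have h5 : 0 ≤ (rho g p : ℝ) / p := by positivity
      rw [add_div]
      nlinarith [mul_nonneg h4 h5]
  -- the additional factors
  have hms : 1 ≤ (∏ p ∈ s.primeFactors, (1 - (rho g p : ℝ) / p)) * hh (2 * m) s := by
    unfold hh
    rw [← prod_mul_distrib]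
    refine one_le_prodR fun p hp => ?_
    obtain ⟨h1, h2, h4⟩ := hm1 p (mem_PS.2 ⟨(hsz p hp).2, (hsz p hp).1⟩)
    have h3 : 2 * (m : ℝ) / p = 2 * (m / p) := by ring
    rw [h3]
    have h5 : 1 ≤ (1 - (rho g p : ℝ) / p) * (1 + 2 * ((rho g p : ℝ) / p)) := by nlinarith
    refine h5.trans (mul_le_mul_of_nonneg_left ?_ (by linarith))
    linarith
  have hmv : 1 ≤ (∏ p ∈ v.primeFactors, (1 - (rho g p : ℝ) / p)) * 2 ^ v.primeFactors.card := by
    rw [← prod_const, ← prod_mul_distrib]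
    refine one_le_prodR fun p hp => ?_
    obtain ⟨h1, h2, _⟩ := hm1 p (mem_PS.2 ⟨(hvz p hp).2, (hvz p hp).1⟩)
    linarith
  have hPw2 : ∏ p ∈ P.filter (fun p => p ∉ T), (1 - (rho g p : ℝ) / p) ≤
      hh (2 * m) s * 2 ^ v.primeFactors.card *
        ((∏ p ∈ PS z y, (1 - (rho g p : ℝ) / p)) * gq z m q) := by
    set a1 := ∏ p ∈ s.primeFactors, (1 - (rho g p : ℝ) / p) with ha1
    set a2 := ∏ p ∈ v.primeFactors, (1 - (rho g p : ℝ) / p) with ha2
    set a3 := ∏ p ∈ P.filter (fun p => p ∉ T), (1 - (rho g p : ℝ) / p) with ha3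
    have h1 := hPS (fun p => 1 - (rho g p : ℝ) / p)
    rw [← ha1, ← ha2, ← ha3] at h1
    have h2 : a3 ≤ ((a1 * hh (2 * m) s) * (a2 * 2 ^ v.primeFactors.card)) * a3 :=
      le_mul_of_one_le_left hPT2 (one_le_mul_of_one_le_of_one_le hms hmv)
    have h3 : ((a1 * hh (2 * m) s) * (a2 * 2 ^ v.primeFactors.card)) * a3 =
        hh (2 * m) s * 2 ^ v.primeFactors.card * (a1 * a2 * a3) := by ring
    rw [h3, h1] at h2
    refine h2.trans (mul_le_mul_of_nonneg_left ?_ (by positivity))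
    exact prodq hm hqne fun p hp => by
      have := (hm1 p hp).2.2
      linarith
  have hW0 : 0 ≤ ∏ p ∈ s.primeFactors, Wt2 f p := prod_nonneg hWpos
  have hb2 : 0 ≤ bw (2 * n) 2 v := by unfold bw; positivity
  have hb1 : 0 ≤ bw n 1 u := by unfold bw; positivity
  have hb4 : bw (2 * n) 2 v * 2 ^ v.primeFactors.card = bw (4 * n) 2 v := by
    unfold bw
    rw [div_mul_eq_mul_div, ← mul_pow]
    congr 2
    ring
  obtain ⟨W, hW⟩ : ∃ W, W = ∏ p ∈ s.primeFactors, Wt2 f p := ⟨_, rfl⟩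
  rw [← hW] at hS1 hW0 ⊢
  have hL1 : 0 ≤ 1 / Lam (fun p => (rho f p : ℝ) / p) z y * gq z n' q := by positivity
  calc C * X * (∏ p ∈ T, ((Ω p).card : ℝ) / (p : ℝ) ^ e p) *
        ∏ p ∈ P.filter (fun p => p ∉ T), (1 - (rho G p : ℝ) / p)
      ≤ C * X * ((W * ∏ p ∈ s.primeFactors, (1 - (rho f p : ℝ) / p)) *
          (bw (2 * n) 2 v * ∏ p ∈ v.primeFactors, (1 - (rho f p : ℝ) / p)) * bw n 1 u) *
        ((∏ p ∈ P.filter (fun p => p ∉ T), (1 - (rho f p : ℝ) / p)) *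
        ∏ p ∈ P.filter (fun p => p ∉ T), (1 - (rho g p : ℝ) / p)) := by
        rw [hsplit]
        refine mul_le_mul (mul_le_mul_of_nonneg_left ?_ (by positivity)) hPeq ?_ ?_
        · refine mul_le_mul (mul_le_mul hS1 hV1 (prod_nonneg fun _ _ => by positivity)
            (by positivity)) hU1 (prod_nonneg fun _ _ => by positivity) (by positivity)
        · refine prod_nonneg fun p hp => ?_
          have h1 := mem_PS.1 (hPs (mem_filter.1 hp).1)
          have h2 := hρ p h1.2 h1.1.1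
          have h3 : (0 : ℝ) < p := by exact_mod_cast h1.2.pos
          rw [sub_nonneg, div_le_one h3, hGρ p (mem_filter.1 hp).1]
          have h2' := hρm p h1.2 h1.1.1
          exact_mod_cast (by omega : rho f p + rho g p ≤ p)
        · positivity
    _ = C * X * W * bw (2 * n) 2 v * bw n 1 u *
          (∏ p ∈ P, (1 - (rho f p : ℝ) / p)) *
          ∏ p ∈ P.filter (fun p => p ∉ T), (1 - (rho g p : ℝ) / p) := by
        rw [← hPS (fun p => 1 - (rho f p : ℝ) / p)]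
        ring
    _ ≤ C * X * W * bw (2 * n) 2 v * bw n 1 u *
          (1 / Lam (fun p => (rho f p : ℝ) / p) z y * gq z n' q) *
          (hh (2 * m) s * 2 ^ v.primeFactors.card *
            ((∏ p ∈ PS z y, (1 - (rho g p : ℝ) / p)) * gq z m q)) := by
        refine mul_le_mul (mul_le_mul_of_nonneg_left hPw (by positivity)) hPw2 hPT2
          (by positivity)
    _ = _ := by
        rw [← hb4]
        ring

end Pool.Agent.H27.PG
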