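import Mathlib
import Pool.Agent.H27.PG.G1

/-!
# Cells with prime values of linear forms
-/

set_option autoImplicit false

namespace Pool.Agent.H27.PG

open Finset Pool.Agent.W262.RK Polynomial
open Pool.Agent.H64.PM (Zr rho dvd_congr ty Smp Om Om2 Wt2 bw bw_eq Lam rho_half prod_le_K q1 q2
  q1_prime q2_prime harm)
open Pool.Agent.H64.QM (Sp Sp_of sc ty3 one_le_prodR)
open Pool.Agent.H27.RU (gq gq_ge_one fac_ge_one two_mul_le_four_pow)

/-- `v` is prime up to the sign or has no small prime factors -/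
def Rg (L X : ℕ) (v : ℤ) : Prop :=
  v ≠ 0 ∧ ∀ p : ℕ, p.Prime → (p : ℤ) ∣ v → p = v.natAbs ∨ X ≤ p ^ L

noncomputable instance instDecRg (L X : ℕ) (v : ℤ) : Decidable (Rg L X v) :=
  Classical.propDecidable _

lemma card_smallG (g : ℤ[X]) (hd : 0 < g.natDegree) (t0 : ℤ) (q : ℕ) (hq : 1 ≤ q)
    (T : Finset ℕ) (y : ℕ) :
    (T.filter (fun x : ℕ => (g.eval (t0 + q * x : ℤ)).natAbs ≤ y)).card ≤
      g.natDegree * (2 * y + 1) := by
  classical
  have h1 : (Icc (-(y : ℤ)) y).card = 2 * y + 1 := by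
    rw [Int.card_Icc]
    omega
  rw [← h1]
  refine card_le_mul_card_image_of_maps_to (f := fun x : ℕ => g.eval (t0 + q * x : ℤ)) ?_ _ ?_
  · intro x hx
    have h2 := (mem_filter.1 hx).2
    rw [mem_Icc]
    show -(y : ℤ) ≤ g.eval (t0 + q * x : ℤ) ∧ g.eval (t0 + q * x : ℤ) ≤ y
    omega
  · intro v _
    have hne : g - C v ≠ 0 := by
      intro h
      have h2 : g = C v := sub_eq_zero.1 h
      rw [h2, natDegree_C] at hd
      exact lt_irrefl _ hd
    have h3 : ((T.filter (fun x : ℕ => (g.eval (t0 + q * x : ℤ)).natAbs ≤ y)).filter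
        (fun x : ℕ => g.eval (t0 + q * x : ℤ) = v)).card ≤ (g - C v).roots.toFinset.card := by
      apply card_le_card_of_injOn (fun x : ℕ => t0 + q * (x : ℤ))
      · intro x hx
        have h4 := (mem_filter.1 (Finset.mem_coe.1 hx)).2
        rw [Finset.mem_coe, Multiset.mem_toFinset, mem_roots hne, IsRoot.def, eval_sub, eval_C]
        rw [h4, sub_self]
      · intro x _ x' _ h
        simp only at h
        have h5 : (q : ℤ) * x = q * x' := by linarith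
        exact_mod_cast mul_left_cancel₀ (by exact_mod_cast (by omega : q ≠ 0)) h5
    refine h3.trans ((Multiset.toFinset_card_le _).trans ((card_roots' _).trans ?_))
    rw [natDegree_sub_C]

lemma hh_mono {c c' : ℝ} (hc : 0 ≤ c) (h : c ≤ c') (s : ℕ) : hh c s ≤ hh c' s := by
  unfold hh
  refine prod_le_prod (fun p _ => by positivity) fun p _ => ?_
  have := div_le_div_of_nonneg_right h (Nat.cast_nonneg (α := ℝ) p)
  linarith

lemma Lam_le {f : ℤ[X]} {n z y : ℕ} (hρ : ∀ p : ℕ, p.Prime → z < p → rho f p ≤ n) (hy : 3 ≤ y) :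
    Lam (fun p => (rho f p : ℝ) / p) z y ≤ (y : ℝ) ^ (2 * n) := by
  have hyr : (3 : ℝ) ≤ y := by exact_mod_cast hy
  have hl1 : 1 < Real.log y := by
    rw [Real.lt_log_iff_exp_lt (by linarith)]
    have := Real.exp_one_lt_d9
    linarith
  have h1 : ∑ p ∈ PS z y, (rho f p : ℝ) / p ≤ n * (1 + Real.log y) := by
    have h2 : ∑ p ∈ PS z y, (rho f p : ℝ) / p ≤ ∑ p ∈ PS z y, (n : ℝ) * (1 / p) := by
      refine sum_le_sum fun p hp => ?_
      rw [mul_one_div]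
      refine div_le_div_of_nonneg_right ?_ (Nat.cast_nonneg _)
      exact_mod_cast hρ p (mem_PS.1 hp).2 (mem_PS.1 hp).1.1
    rw [← mul_sum] at h2
    exact h2.trans (mul_le_mul_of_nonneg_left (harm z y (by omega)) (Nat.cast_nonneg _))
  have h2 : (y : ℝ) ^ (2 * n) = Real.exp (2 * n * Real.log y) := by
    rw [← Real.exp_log (show (0 : ℝ) < y by linarith), ← Real.exp_nat_mul, Real.log_exp]
    push_cast
    ring_nf
  unfold Lam
  rw [h2]
  apply Real.exp_le_exp.2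
  have hn0 : (0 : ℝ) ≤ n := Nat.cast_nonneg n
  nlinarith

set_option maxHeartbeats 1000000 in
/-- the number of `x` in the cells with given types at which the forms are prime -/
theorem cellsB (n n' m e ℓ z : ℕ) (hn1 : 1 ≤ n) (hn' : n' ≤ n) (hz : 2 * (n + e) + 2 ≤ z)
    (Cm : ℝ) (hCm : 0 ≤ Cm) :
    ∃ (K0 : ℝ) (K y0 : ℕ), 0 ≤ K0 ∧ 1 ≤ K ∧ ∀ (f fb : ℤ[X]) (g : Fin m → ℤ[X]),
    (∀ p : ℕ, p.Prime → z < p → rho f p ≤ n') → Smp f z → Smp fb z →
    (∀ p : ℕ, p.Prime → z < p → ∀ t : ℤ, (p : ℤ) ∣ f.eval t → ¬ (p : ℤ) ^ 2 ∣ f.eval t →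
      (p : ℤ) ∣ fb.eval t ∧ ¬ (p : ℤ) ^ 2 ∣ fb.eval t) →
    (∀ p : ℕ, p.Prime → z < p → rho (f * ∏ j, g j) p = rho f p + rho (∏ j, g j) p) →
    (∀ p : ℕ, p.Prime → z < p → rho (∏ j, g j) p ≤ e) →
    (∀ y : ℕ, z < y → ∏ p ∈ PS z y, (1 - (rho (∏ j, g j) p : ℝ) / p) ≤ Cm / (Real.log y) ^ m) →
    (∀ j, 0 < (g j).natDegree) → ∑ j, (g j).natDegree ≤ e →
    ∀ (q : ℕ) (t0 : ℤ), 1 ≤ q →
    (∀ p : ℕ, p.Prime → z < p → p ∣ q → ¬ (p : ℤ) ∣ f.eval t0) →
    ∀ X y Y k : ℕ, y0 ≤ y → z < y → y ^ K ≤ X → X < (y + 1) ^ k →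
    ∀ s ∈ (PP z y).divisors, ∀ v ∈ (PP z y).divisors, ∀ u ∈ (PP y Y).divisors,
    (s * v * u) ^ 8 ≤ X → ∀ ε : ℕ → ℕ × Bool,
    (((Icc 1 X).filter (fun x : ℕ => (∀ j, Rg ℓ X ((g j).eval (t0 + q * x : ℤ))) ∧
      q1 z y (f.eval (t0 + q * x : ℤ)) = s ∧
      q2 z y (f.eval (t0 + q * x : ℤ)) = v ∧ (u : ℤ) ∣ f.eval (t0 + q * x : ℤ) ∧
      ∀ p ∈ s.primeFactors, ty3 fb 1 p (t0 + q * x) = ε p)).card : ℝ) ≤
      K0 * ((4 : ℝ) ^ m) ^ k * (X / (Real.log X) ^ m * (gq z n' q * gq z e q)) *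
        ((∏ p ∈ s.primeFactors, Wt2 f p) * hh (2 * e + 1) s) * bw (4 * n) 2 v * bw n 1 u /
        Lam (fun p => (rho f p : ℝ) / p) z y := by
  classical
  obtain ⟨C, K, y0, hC, hK, h⟩ := cellsA n e
  refine ⟨C * Cm + 3 * e, K + 2 * (1 + 2 * n + m) + ℓ + 1, y0 + 3, by positivity, by omega,
    fun f fb g hρ' hf hfb hffb hρg hρe hM hgd hge q t0 hq hq0 X y Y k hy0 hzy hyX hk s hs v hv u hu
      h8 ε => ?_⟩
  have hρ : ∀ p : ℕ, p.Prime → z < p → rho f p ≤ n := fun p hp hz => (hρ' p hp hz).trans hn'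
  have hn : 2 * n + 2 ≤ z := by omega
  have hy3 : 3 ≤ y := by omega
  have hyr : (3 : ℝ) ≤ y := by exact_mod_cast hy3
  have hyX1 : y ≤ X := le_trans (Nat.le_self_pow (by omega) y) hyX
  have hXr : (3 : ℝ) ≤ X := by exact_mod_cast (by omega : 3 ≤ X)
  have hl1 : 1 < Real.log y := by
    rw [Real.lt_log_iff_exp_lt (by linarith)]
    have := Real.exp_one_lt_d9
    linarith
  have hlX1 : 1 < Real.log X := by
    rw [Real.lt_log_iff_exp_lt (by linarith)]
    have := Real.exp_one_lt_d9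
    linarith
  have hly : Real.log y ≤ y := by
    have := Real.log_le_sub_one_of_pos (by linarith : (0 : ℝ) < y)
    linarith
  -- `log X ≤ 2 k log y`
  have hlX : Real.log X ≤ 2 * k * Real.log y := by
    have h1 : (X : ℝ) ≤ ((y : ℝ) + 1) ^ k := by exact_mod_cast hk.le
    have h2 : (y : ℝ) + 1 ≤ (y : ℝ) ^ 2 := by nlinarith
    have h3 : (X : ℝ) ≤ ((y : ℝ) ^ 2) ^ k := h1.trans (pow_le_pow_left₀ (by linarith) h2 k)
    have h4 := Real.log_le_log (by linarith) h3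
    rw [← pow_mul, Real.log_pow] at h4
    push_cast at h4
    exact h4
  have h2k : (2 * (k : ℝ)) ^ m ≤ ((4 : ℝ) ^ m) ^ k := by
    have h1 : (2 * (k : ℝ)) ≤ 4 ^ k := by exact_mod_cast two_mul_le_four_pow k
    calc (2 * (k : ℝ)) ^ m ≤ (4 ^ k) ^ m := pow_le_pow_left₀ (by positivity) h1 _
      _ = ((4 : ℝ) ^ m) ^ k := pow_right_comm _ _ _
  have hlXI : (Real.log X) ^ m ≤ ((4 : ℝ) ^ m) ^ k * (Real.log y) ^ m := by
    calc (Real.log X) ^ m ≤ (2 * k * Real.log y) ^ m :=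
          pow_le_pow_left₀ (by linarith) hlX _
      _ = (2 * (k : ℝ)) ^ m * (Real.log y) ^ m := by rw [mul_pow]
      _ ≤ _ := mul_le_mul_of_nonneg_right h2k (by positivity)
  have hLX : 0 < (Real.log X) ^ m := by positivity
  have hLy : 0 < (Real.log y) ^ m := by positivity
  set gg := gq z n' q * gq z e q with hgg
  have hgn1 : 1 ≤ gq z n' q := gq_ge_one (by omega)
  have hgm1 : 1 ≤ gq z e q := gq_ge_one (by omega)
  have hgg1 : 1 ≤ gg := one_le_mul_of_one_le_of_one_le hgn1 hgm1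
  have hLam : 0 < Lam (fun p => (rho f p : ℝ) / p) z y := Real.exp_pos _
  set L := Lam (fun p => (rho f p : ℝ) / p) z y with hL
  set W := ∏ p ∈ s.primeFactors, Wt2 f p with hW
  set H1 := hh (2 * e + 1) s with hH1
  have hH11 : 1 ≤ H1 := hh_ge_one (by positivity) s
  have hsz : ∀ p ∈ s.primeFactors, p.Prime ∧ z < p ∧ p ≤ y := fun p hp =>
    ⟨Nat.prime_of_mem_primeFactors hp, dv_prime hs (Nat.prime_of_mem_primeFactors hp)
      (Nat.dvd_of_mem_primeFactors hp)⟩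
  have hs0 := dv_ne_zero hs
  have hv0 := dv_ne_zero hv
  have hu0 := dv_ne_zero hu
  have hWs : 1 ≤ W * (s : ℝ) ^ 2 := by
    have h1 : (s : ℝ) ^ 2 = ∏ p ∈ s.primeFactors, (p : ℝ) ^ 2 := by
      rw [prod_pow, ← Nat.cast_prod, Nat.prod_primeFactors_of_squarefree (dv_squarefree hs)]
    rw [h1, hW, ← prod_mul_distrib]
    refine one_le_prodR fun p hp => ?_
    obtain ⟨hp1, hp2, _⟩ := hsz p hp
    obtain ⟨h0, _, h2⟩ := rho_half hn hρ hp1 hp2
    have h3 : 0 < 1 - (rho f p : ℝ) / p := by linarith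
    rw [sub_pos, div_lt_one h0] at h3
    have h4 : 0 < (p : ℝ) - rho f p := by linarith
    have h5 : (2 : ℝ) ≤ p := by exact_mod_cast hp1.two_le
    have h6 : (0 : ℝ) ≤ rho f p := Nat.cast_nonneg _
    unfold Wt2
    rw [one_div_mul_eq_div, one_le_div (by positivity)]
    nlinarith
  have hn1r : (1 : ℝ) ≤ n := by exact_mod_cast hn1
  have hVv : 1 ≤ bw (4 * n) 2 v * (v : ℝ) ^ 2 := by
    have h1 : (v : ℝ) ≠ 0 := by exact_mod_cast hv0
    unfold bw
    rw [div_mul_cancel₀ _ (pow_ne_zero 2 h1)]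
    exact one_le_pow₀ (by linarith)
  have hUu : 1 ≤ bw n 1 u * (u : ℝ) ^ 2 := by
    have h1 : (1 : ℝ) ≤ u := by exact_mod_cast (by omega : 1 ≤ u)
    have h2 : bw n 1 u * (u : ℝ) ^ 2 = (n : ℝ) ^ u.primeFactors.card * u := by
      unfold bw
      field_simp
    rw [h2]
    exact one_le_mul_of_one_le_of_one_le (one_le_pow₀ hn1r) h1
  have hW0 : 0 ≤ W := by
    by_contra hcon
    have h1 : W * (s : ℝ) ^ 2 ≤ 0 :=
      mul_nonpos_of_nonpos_of_nonneg (by linarith) (by positivity)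
    linarith
  have hb4 : 0 ≤ bw (4 * n) 2 v := by unfold bw; positivity
  have hb1 : 0 ≤ bw n 1 u := by unfold bw; positivity
  obtain ⟨Φ, hΦ⟩ : ∃ Φ, Φ = W * H1 * bw (4 * n) 2 v * bw n 1 u / L := ⟨_, rfl⟩
  have hΦ0 : 0 ≤ Φ := by
    rw [hΦ]
    positivity
  have hLy2 : L ≤ (y : ℝ) ^ (2 * n) := Lam_le hρ hy3
  have hΦ1 : 1 ≤ Φ * (((s : ℝ) * v * u) ^ 2 * (y : ℝ) ^ (2 * n)) := by
    have h1 : (1 : ℝ) ≤ (W * (s : ℝ) ^ 2) * H1 * (bw (4 * n) 2 v * (v : ℝ) ^ 2) *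
        (bw n 1 u * (u : ℝ) ^ 2) * ((y : ℝ) ^ (2 * n) / L) := by
      refine one_le_mul_of_one_le_of_one_le (one_le_mul_of_one_le_of_one_le
        (one_le_mul_of_one_le_of_one_le (one_le_mul_of_one_le_of_one_le hWs hH11) hVv) hUu) ?_
      rw [one_le_div hLam]
      exact hLy2
    refine h1.trans (le_of_eq ?_)
    rw [hΦ]
    ring
  have hsvu : (((s : ℝ) * v * u) ^ 2 * (y : ℝ) ^ (1 + 2 * n + m)) ≤ X := by
    have h1 : (((s * v * u) ^ 2 * y ^ (1 + 2 * n + m))) ^ 4 ≤ X ^ 4 := by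
      calc (((s * v * u) ^ 2 * y ^ (1 + 2 * n + m))) ^ 4
          = (s * v * u) ^ 8 * (y ^ (2 * (1 + 2 * n + m))) ^ 2 := by ring
        _ ≤ X * X ^ 2 := Nat.mul_le_mul h8 (Nat.pow_le_pow_left
            (le_trans (Nat.pow_le_pow_right (by omega) (by omega)) hyX) 2)
        _ ≤ X ^ 4 := by
            have : X ^ 4 = X * X ^ 2 * X := by ring
            rw [this]
            exact Nat.le_mul_of_pos_right _ (by omega)
    have h2 := (Nat.pow_le_pow_iff_left (by norm_num)).1 h1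
    exact_mod_cast h2
  have hgoal : C * Cm * ((4 : ℝ) ^ m) ^ k * (X / (Real.log X) ^ m * gg) * Φ +
      3 * e * ((4 : ℝ) ^ m) ^ k * (X / (Real.log X) ^ m * gg) * Φ =
      (C * Cm + 3 * e) * ((4 : ℝ) ^ m) ^ k * (X / (Real.log X) ^ m * gg) *
        (W * H1) * bw (4 * n) 2 v * bw n 1 u / L := by
    rw [hΦ]
    ring
  rw [← hgoal]
  set T1 := (Icc 1 X).filter (fun x : ℕ => (∀ j, Rg ℓ X ((g j).eval (t0 + q * x : ℤ))) ∧
      q1 z y (f.eval (t0 + q * x : ℤ)) = s ∧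
      q2 z y (f.eval (t0 + q * x : ℤ)) = v ∧ (u : ℤ) ∣ f.eval (t0 + q * x : ℤ) ∧
      ∀ p ∈ s.primeFactors, ty3 fb 1 p (t0 + q * x) = ε p) with hT1
  set T2 := univ.biUnion (fun j : Fin m =>
    T1.filter (fun x : ℕ => ((g j).eval (t0 + q * x : ℤ)).natAbs ≤ y)) with hT2
  have hT2c : T2.card ≤ e * (2 * y + 1) := by
    refine card_biUnion_le.trans ((sum_le_sum fun j _ =>
      card_smallG (g j) (hgd j) t0 q hq _ y).trans ?_)
    rw [← sum_mul]
    exact Nat.mul_le_mul_right _ hge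
  have hT3c : ((T1 \ T2).card : ℝ) ≤ C * Cm * ((4 : ℝ) ^ m) ^ k *
      (X / (Real.log X) ^ m * gg) * Φ := by
    have hyK' : y ^ K ≤ X := le_trans (Nat.pow_le_pow_right (by omega) (by omega)) hyX
    have h1 := h f fb (∏ j, g j) z n' hz hn' hρ' hf hfb hffb hρg hρe q t0 hq hq0 X y Y (by omega)
      hzy hyK' s hs v hv u hu h8 ε
    have h2 : (T1 \ T2).card ≤ ((Icc 1 X).filter (fun x : ℕ =>
      (∀ p ∈ PS z y, ¬ (p : ℤ) ∣ (∏ j, g j).eval (t0 + q * x : ℤ)) ∧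
      q1 z y (f.eval (t0 + q * x : ℤ)) = s ∧
      q2 z y (f.eval (t0 + q * x : ℤ)) = v ∧ (u : ℤ) ∣ f.eval (t0 + q * x : ℤ) ∧
      ∀ p ∈ s.primeFactors, ty3 fb 1 p (t0 + q * x) = ε p)).card := by
      refine card_le_card fun x hx => ?_
      rw [mem_sdiff] at hx
      have hx1 := hx.1
      rw [hT1, mem_filter] at hx1
      rw [mem_filter]
      refine ⟨hx1.1, fun p hp hd => ?_, hx1.2.2⟩
      have hpp := (mem_PS.1 hp).2
      have hpi : Prime (p : ℤ) := Nat.prime_iff_prime_int.1 hpp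
      rw [eval_prod] at hd
      obtain ⟨j, _, hj⟩ := (hpi.dvd_finsetProd_iff _).1 hd
      rcases (hx1.2.1 j).2 p hpp hj with h4 | h4
      · apply hx.2
        rw [hT2, mem_biUnion]
        refine ⟨j, mem_univ _, mem_filter.2 ⟨hx.1, ?_⟩⟩
        rw [← h4]
        exact (mem_PS.1 hp).1.2
      · have h5 : p ^ ℓ ≤ y ^ ℓ := Nat.pow_le_pow_left (mem_PS.1 hp).1.2 ℓ
        have h6 : y ^ ℓ < y ^ (ℓ + 1) := Nat.pow_lt_pow_right (by omega) (Nat.lt_succ_self ℓ)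
        have h7 : y ^ (ℓ + 1) ≤ y ^ (K + 2 * (1 + 2 * n + m) + ℓ + 1) :=
          Nat.pow_le_pow_right (by omega) (by omega)
        omega
    have h3 : ((T1 \ T2).card : ℝ) ≤ _ := (by exact_mod_cast h2 : ((T1 \ T2).card : ℝ) ≤ _).trans h1
    refine h3.trans ?_
    have h4 := hM y hzy
    have h5 : hh (2 * e) s ≤ H1 := hh_mono (by positivity) (by linarith) s
    have h6 : 0 ≤ hh (2 * e) s := by
      have := hh_ge_one (c := 2 * (e : ℝ)) (by positivity) s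
      linarith
    have h7 : (Cm : ℝ) / (Real.log y) ^ m ≤ Cm * (((4 : ℝ) ^ m) ^ k / (Real.log X) ^ m) := by
      rw [div_eq_mul_one_div]
      refine mul_le_mul_of_nonneg_left ?_ hCm
      rw [div_le_div_iff₀ hLy hLX, one_mul]
      exact hlXI
    rw [← hW, ← hL, ← hgg]
    have h8 : 0 ≤ C * X * (W * hh (2 * e) s) * bw (4 * n) 2 v * bw n 1 u / L * gg := by
      positivity
    calc C * X * (W * hh (2 * e) s) * bw (4 * n) 2 v * bw n 1 u / L * gg *
          ∏ p ∈ PS z y, (1 - (rho (∏ j, g j) p : ℝ) / p)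
        ≤ C * X * (W * hh (2 * e) s) * bw (4 * n) 2 v * bw n 1 u / L * gg *
          (Cm * (((4 : ℝ) ^ m) ^ k / (Real.log X) ^ m)) :=
          mul_le_mul_of_nonneg_left (h4.trans h7) h8
      _ ≤ C * X * (W * H1) * bw (4 * n) 2 v * bw n 1 u / L * gg *
          (Cm * (((4 : ℝ) ^ m) ^ k / (Real.log X) ^ m)) := by
          gcongr
      _ = _ := by
          rw [hΦ]
          ring
  have hT2r : (e : ℝ) * (2 * y + 1) ≤
      3 * e * ((4 : ℝ) ^ m) ^ k * (X / (Real.log X) ^ m * gg) * Φ := by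
    have h1 : (y : ℝ) ^ (1 + m) ≤ X * Φ := by
      calc (y : ℝ) ^ (1 + m) ≤ (y : ℝ) ^ (1 + m) *
            (Φ * (((s : ℝ) * v * u) ^ 2 * (y : ℝ) ^ (2 * n))) :=
            le_mul_of_one_le_right (by positivity) hΦ1
        _ = (((s : ℝ) * v * u) ^ 2 * (y : ℝ) ^ (1 + 2 * n + m)) * Φ := by
            rw [show 1 + 2 * n + m = (1 + m) + 2 * n by ring, pow_add]
            ring
        _ ≤ X * Φ := mul_le_mul_of_nonneg_right hsvu hΦ0
    have h3 : (Real.log y) ^ m ≤ (y : ℝ) ^ m := pow_le_pow_left₀ (by linarith) hly _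
    have h4 : (y : ℝ) * (Real.log X) ^ m ≤ ((4 : ℝ) ^ m) ^ k * (X * Φ) := by
      calc (y : ℝ) * (Real.log X) ^ m ≤ y * (((4 : ℝ) ^ m) ^ k * (y : ℝ) ^ m) :=
            mul_le_mul_of_nonneg_left (hlXI.trans (mul_le_mul_of_nonneg_left h3
              (by positivity))) (by positivity)
        _ = ((4 : ℝ) ^ m) ^ k * (y : ℝ) ^ (1 + m) := by
            rw [pow_add, pow_one]
            ring
        _ ≤ _ := mul_le_mul_of_nonneg_left h1 (by positivity)
    have h5 : (y : ℝ) ≤ ((4 : ℝ) ^ m) ^ k * (X / (Real.log X) ^ m) * Φ := by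
      have h6 : ((4 : ℝ) ^ m) ^ k * (X / (Real.log X) ^ m) * Φ =
          (((4 : ℝ) ^ m) ^ k * (X * Φ)) / (Real.log X) ^ m := by ring
      rw [h6, le_div_iff₀ hLX]
      exact h4
    have h6 : ((4 : ℝ) ^ m) ^ k * (X / (Real.log X) ^ m) * Φ ≤
        ((4 : ℝ) ^ m) ^ k * (X / (Real.log X) ^ m * gg) * Φ := by
      refine mul_le_mul_of_nonneg_right (mul_le_mul_of_nonneg_left ?_ (by positivity)) hΦ0
      exact le_mul_of_one_le_right (by positivity) hgg1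
    calc (e : ℝ) * (2 * y + 1) ≤ e * (3 * y) := by
          refine mul_le_mul_of_nonneg_left ?_ (by positivity)
          linarith
      _ = 3 * e * y := by ring
      _ ≤ 3 * e * (((4 : ℝ) ^ m) ^ k * (X / (Real.log X) ^ m * gg) * Φ) :=
          mul_le_mul_of_nonneg_left (h5.trans h6) (by positivity)
      _ = _ := by ring
  have h1 : T1.card ≤ (T1 \ T2).card + T2.card := by
    calc T1.card ≤ ((T1 \ T2) ∪ T2).card := card_le_card (by
          intro t ht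
          rw [mem_union, mem_sdiff]
          by_cases h : t ∈ T2
          · exact Or.inr h
          · exact Or.inl ⟨ht, h⟩)
      _ ≤ _ := card_union_le _ _
  have h2 : (T1.card : ℝ) ≤ ((T1 \ T2).card : ℝ) + (T2.card : ℝ) := by exact_mod_cast h1
  have h3 : (T2.card : ℝ) ≤ e * (2 * y + 1) := by exact_mod_cast hT2c
  linarith

end Pool.Agent.H27.PG
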