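import Mathlib
import Pool.Agent.H64.QM.U4
import Pool.Agent.H27.PG.G2

/-!
# Sums over prime tuples in progressions: many terms
-/

set_option autoImplicit false

namespace Pool.Agent.H27.PG

open Finset Pool.Agent.W262.RK Pool.Agent.W762.RK2 Polynomial
open Pool.Agent.H64.PM hiding gq gq_one
open Pool.Agent.H64.QM (sc ty3 ty3_lt ty3_dvd sc_one antX cv_one rankQ3 eval_bound3)
open Pool.Agent.H27.RU (gq gq_ge_one)

set_option maxHeartbeats 1000000 in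
/-- sums over prime tuples in progressions -/
theorem mainX (k : ℕ) (f fb : ℤ[X]) (Lc : LCt) (n n' m e L z : ℕ) (hnm : 2 * (n + e) + 2 ≤ z)
    (hn1 : 1 ≤ n) (hn' : n' ≤ n)
    (hρ' : ∀ p : ℕ, p.Prime → z < p → rho f p ≤ n') (hf : Smp f z) (hfb : Smp fb z)
    (hffb : ∀ p : ℕ, p.Prime → z < p → ∀ t : ℤ, (p : ℤ) ∣ f.eval t → ¬ (p : ℤ) ^ 2 ∣ f.eval t →
      (p : ℤ) ∣ fb.eval t ∧ ¬ (p : ℤ) ^ 2 ∣ fb.eval t)
    (hXC : ∀ p : ℕ, p.Prime → z < p → ∀ τ, XC (Lc p τ))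
    (g : Fin m → ℤ[X]) (hgd : ∀ j, 0 < (g j).natDegree) (hge : ∑ j, (g j).natDegree ≤ e)
    (hρg : ∀ p : ℕ, p.Prime → z < p → rho (f * ∏ j, g j) p = rho f p + rho (∏ j, g j) p)
    (hρe : ∀ p : ℕ, p.Prime → z < p → rho (∏ j, g j) p ≤ e) (Cm : ℝ) (hCm : 0 ≤ Cm)
    (hM : ∀ y : ℕ, z < y →
      ∏ p ∈ PS z y, (1 - (rho (∏ j, g j) p : ℝ) / p) ≤ Cm / (Real.log y) ^ m)
    (C' : ℝ) (havg : ∀ y, z < y → ∑ s ∈ (PP z y).divisors,
      Gs (PhG k (TyF f) (Wt2 f) Lc) s ≤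
      C' * Lam (fun p => (rho f p : ℝ) / p) z y) (κ0 M c0 X00 : ℕ)
    (R : ℤ → ℝ) (hR : ∀ t, 0 ≤ R t) (hR0 : ∀ t, f.eval t = 0 → R t = 0)
    (hrk : ∀ (t : ℤ) (X y κ : ℕ), 1 ≤ y → X00 ≤ X → t.natAbs ≤ X ^ κ0 → X < (y + 1) ^ κ →
      (∀ j, Rg L X ((g j).eval t)) → f.eval t ≠ 0 →
      R t ≤ (((c0 * (4 ^ M) ^ κ * 4 ^ (q2 z y (f.eval t)).primeFactors.card *
        NL (q1 z y (f.eval t)) (fun p => Lc p (ty3 fb 1 p t)) : ℕ)) : ℝ) ^ k) :
    ∃ (X0 : ℕ) (C2 : ℝ), 0 ≤ C2 ∧ ∀ (t0 : ℤ) (q X : ℕ), X0 ≤ X → 1 ≤ q →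
      (∀ p : ℕ, p.Prime → z < p → p ∣ q → ¬ (p : ℤ) ∣ f.eval t0) →
      ∀ T : Finset ℕ, (∀ x ∈ T, (1 ≤ x ∧ x ≤ X) ∧ (t0 + q * x : ℤ).natAbs ≤ X ^ κ0 ∧
        ∀ j, Rg L X ((g j).eval (t0 + q * x : ℤ))) →
      ∑ x ∈ T, R (t0 + q * x) ≤
        C2 * (X / (Real.log X) ^ m * (gq z n' q * gq z e q)) := by
  classical
  have hρ : ∀ p : ℕ, p.Prime → z < p → rho f p ≤ n := fun p hp hz => (hρ' p hp hz).trans hn'
  obtain ⟨Cb, K1, y0, hC, hK1, hcell⟩ := cellsB n n' m e L z hn1 hn' hnm Cm hCm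
  have hn : 2 * n + 2 ≤ z := by omega
  have hz2 : 2 ≤ z := by omega
  set A0 : ℝ := 4 ^ k * (4 * n) with hA0
  have hnr : (1 : ℝ) ≤ n := by exact_mod_cast hn1
  have h4k : (1 : ℝ) ≤ 4 ^ k := one_le_pow₀ (by norm_num)
  have hA1 : 1 ≤ A0 := by
    rw [hA0]
    nlinarith
  set c1 : ℝ := 2 * e + 1 with hc1
  have hc1' : 1 ≤ c1 := by
    rw [hc1]
    have : (0 : ℝ) ≤ e := Nat.cast_nonneg e
    linarith
  obtain ⟨w', hw'd⟩ : ∃ w' : ℕ → ℝ, w' = fun p => Wt2 f p * (1 + c1 / p) := ⟨_, rfl⟩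
  set PG : LF k := PhG k (TyF f) (Wt2 f) Lc with hPG
  set PG' : LF k := PhG k (TyF f) w' Lc with hPG'
  have hw : ∀ p : ℕ, p.Prime → z < p → 0 ≤ Wt2 f p := fun p hp hz =>
    (Wt2_facts hn hρ hp hz).1
  have hw' : ∀ p : ℕ, p.Prime → z < p → 0 ≤ w' p := fun p hp hz => by
    have h1 := hw p hp hz
    have h2 : 0 ≤ c1 / (p : ℝ) := by positivity
    rw [hw'd]
    simp only
    positivity
  have hGnn : ∀ y, ∀ s ∈ (PP z y).divisors, |Gs PG s| = Gs PG s := fun y s hs =>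
    abs_of_nonneg (Gs_nonneg hs hw)
  have hGnn' : ∀ y, ∀ s ∈ (PP z y).divisors, |Gs PG' s| = Gs PG' s := fun y s hs =>
    abs_of_nonneg (Gs_nonneg hs hw')
  have hprod : ∀ s : ℕ, ∏ p ∈ s.primeFactors, w' p =
      (∏ p ∈ s.primeFactors, Wt2 f p) * hh c1 s := by
    intro s
    unfold hh
    rw [← prod_mul_distrib, hw'd]
  have hGG : ∀ y, ∀ s ∈ (PP z y).divisors, Gs PG' s = hh c1 s * Gs PG s := by
    intro y s hs
    rw [hPG', hPG, Gs_eq hs, Gs_eq hs, mul_sum]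
    refine sum_congr rfl fun ε _ => ?_
    rw [hprod]
    ring
  have hgr1 : ∀ p : ℕ, p.Prime → z < p →
      (4 : ℝ) ^ k * (((TyF f p).card : ℝ) * Wt2 f p) ≤ A0 / p := by
    intro p hp hzp
    have h1 := (Wt2_facts hn hρ hp hzp).2
    rw [hA0, mul_div_assoc]
    refine mul_le_mul_of_nonneg_left (h1.trans ?_) (by positivity)
    refine div_le_div_of_nonneg_right ?_ (Nat.cast_nonneg _)
    linarith
  have hgr2 : ∀ p : ℕ, p.Prime → z < p →
      (4 : ℝ) ^ k * (((TyF f p).card : ℝ) * w' p) ≤ A0 / p := by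
    intro p hp hzp
    have h1 := (Wt2_facts hn hρ hp hzp).2
    have hp0 : (0 : ℝ) < p := by exact_mod_cast hp.pos
    have h2 : c1 / (p : ℝ) ≤ 1 := by
      rw [div_le_one hp0, hc1]
      exact_mod_cast (by omega : 2 * e + 1 ≤ p)
    have h3 : 0 ≤ c1 / (p : ℝ) := by positivity
    have h4 : 0 ≤ ((TyF f p).card : ℝ) * Wt2 f p :=
      mul_nonneg (Nat.cast_nonneg _) (hw p hp hzp)
    rw [hA0, mul_div_assoc, hw'd]
    simp only
    refine mul_le_mul_of_nonneg_left ?_ (by positivity)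
    calc ((TyF f p).card : ℝ) * (Wt2 f p * (1 + c1 / p))
        = (((TyF f p).card : ℝ) * Wt2 f p) * (1 + c1 / p) := by ring
      _ ≤ (2 * n / p) * 2 := by
          refine mul_le_mul h1 (by linarith) (by linarith) (by positivity)
      _ = _ := by ring
  have hsub1 : ∀ y, z < y → ∀ s e : ℕ, s * e ∣ PP z y →
      |Gs PG (s * e)| ≤ bw A0 1 e * |Gs PG s| := by
    intro y hy s e hse
    have hm1 : s * e ∈ (PP z y).divisors := Nat.mem_divisors.2 ⟨hse, PP_ne_zero z y⟩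
    have hsm : s ∈ (PP z y).divisors :=
      Nat.mem_divisors.2 ⟨(Dvd.intro _ rfl).trans hse, PP_ne_zero z y⟩
    rw [hGnn y _ hm1, hGnn y _ hsm]
    exact Gs_growth hse hw hgr1 hXC
  have hsub2 : ∀ y, z < y → ∀ s e : ℕ, s * e ∣ PP z y →
      |Gs PG' (s * e)| ≤ bw A0 1 e * |Gs PG' s| := by
    intro y hy s e hse
    have hm1 : s * e ∈ (PP z y).divisors := Nat.mem_divisors.2 ⟨hse, PP_ne_zero z y⟩
    have hsm : s ∈ (PP z y).divisors :=
      Nat.mem_divisors.2 ⟨(Dvd.intro _ rfl).trans hse, PP_ne_zero z y⟩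
    rw [hGnn' y _ hm1, hGnn' y _ hsm]
    exact Gs_growth hse hw' hgr2 hXC
  obtain ⟨C'', hC''⟩ := avg_hh z (fun s => |Gs PG s|) (Lam (fun p => (rho f p : ℝ) / p) z) C' A0 c1
    hz2 hA1 hc1' (fun s => abs_nonneg _) hsub1 (fun y hy => by
      refine le_trans (le_of_eq (sum_congr rfl fun s hs => ?_)) (havg y hy)
      exact hGnn y s hs)
  obtain ⟨X0, C2, hC2, hant⟩ := antX (τ := ℕ) z (fun s => |Gs PG' s|)
    (Lam (fun p => (rho f p : ℝ) / p) z) (Cb * (c0 : ℝ) ^ k) C'' ((4 ^ M) ^ k * 4 ^ m) A0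
    (K1 + 1) (y0 + X00 + 1) hz2 hA1 (fun s => abs_nonneg _) (by positivity)
    (one_le_mul_of_one_le_of_one_le (one_le_pow₀ (one_le_pow₀ (by norm_num)))
      (one_le_pow₀ (by norm_num))) (fun y _ => Real.exp_pos _)
    hsub2
    (fun y hy => by
      refine le_trans (le_of_eq (sum_congr rfl fun s hs => ?_)) (hC'' y hy)
      show |Gs PG' s| = hh c1 s * |Gs PG s|
      rw [hGnn' y s hs, hGnn y s hs, hGG y s hs])
  refine ⟨X0 + 3, C2, hC2, fun t0 q X hXX hq hq0 T hT => ?_⟩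
  have hXr : (3 : ℝ) ≤ X := by exact_mod_cast (by omega : 3 ≤ X)
  have hlX : 0 < Real.log X := Real.log_pos (by linarith)
  obtain ⟨NX, hNX⟩ : ∃ NX, NX = (X : ℝ) / (Real.log X) ^ m * (gq z n' q * gq z e q) := ⟨_, rfl⟩
  rw [← hNX]
  have hgn1 : 1 ≤ gq z n' q := gq_ge_one (by omega)
  have hgm1 : 1 ≤ gq z e q := gq_ge_one (by omega)
  have hNX0 : 0 < NX := by
    rw [hNX]
    positivity
  have hmain := hant X (by omega) (by omega) T NX (fun x => f.eval (t0 + q * x : ℤ))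
    (fun x => R (t0 + q * x)) hNX0 (fun x => hR _) ?_
  · have h1 : ∑ x ∈ T, R (t0 + q * x) =
        ∑ x ∈ T.filter (fun x : ℕ => f.eval (t0 + q * x : ℤ) ≠ 0), R (t0 + q * x) := by
      rw [sum_filter]
      refine sum_congr rfl fun x _ => ?_
      split_ifs with h2
      · rfl
      · exact hR0 _ (by simpa using h2)
    rw [h1]
    exact hmain
  intro y Y κ hy0 hzy hyK hXk s hs v hv u hu h8
  have hy1 : 1 ≤ y := by omega
  have hyX : y ≤ X := le_trans (Nat.le_self_pow (by omega) y) hyK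
  have hyK' : y ^ K1 ≤ X := le_trans (Nat.pow_le_pow_right hy1 (Nat.le_succ _)) hyK
  set S := T.filter (fun x : ℕ => f.eval (t0 + q * x : ℤ) ≠ 0 ∧
      q1 z y (f.eval (t0 + q * x : ℤ)) = s ∧
      q2 z y (f.eval (t0 + q * x : ℤ)) = v ∧ (u : ℤ) ∣ f.eval (t0 + q * x : ℤ)) with hS
  set c : ℝ := c0 * (4 ^ M) ^ κ * 4 ^ v.primeFactors.card with hc
  have hc0 : 0 ≤ c := by positivity
  set N : (Pr z y → ℕ × Bool) → ℝ := fun ε => (NL s (fun p => Lc p (exq ε p)) : ℝ) ^ k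
    with hNdef
  have hN0 : ∀ ε, 0 ≤ N ε := fun ε => by positivity
  set et : ℕ → (Pr z y → ℕ × Bool) := fun x p => if (p : ℕ) ∣ s then ty3 fb 1 p (t0 + q * x)
    else (0, false) with het
  have hsp : ∀ x ∈ S, ∀ p ∈ s.primeFactors, (p : ℤ) ∣ f.eval (t0 + q * x : ℤ) := by
    intro x hx p hp
    rw [hS, mem_filter] at hx
    have hpp := Nat.prime_of_mem_primeFactors hp
    exact ((q1_prime hpp).1 (by rw [hx.2.2.1]; exact Nat.dvd_of_mem_primeFactors hp)).2.1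
  have h1 : ∀ x ∈ S, R (t0 + q * x) ≤ c ^ k * N (et x) := by
    intro x hx
    have hx' := hx
    rw [hS, mem_filter] at hx'
    obtain ⟨hxT, hx0, hxs, hxv, _⟩ := hx'
    obtain ⟨_, hxb, _⟩ := hT x hxT
    have hr := hrk (t0 + q * x) X y κ hy1 (by omega) hxb hXk (hT x hxT).2.2 hx0
    rw [hxs, hxv] at hr
    have hcong : NL s (fun p => Lc p (ty3 fb 1 p (t0 + q * x))) =
        NL s (fun p => Lc p (exq (et x) p)) := by
      refine Pool.Agent.W125.RK2.NL_congr fun p hp => ?_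
      have hpp := Nat.prime_of_mem_primeFactors hp
      have hps := Nat.dvd_of_mem_primeFactors hp
      have hPS : p ∈ PS z y := mem_PS.2 ⟨dv_prime hs hpp hps, hpp⟩
      have : exq (et x) p = ty3 fb 1 p (t0 + q * x) := by
        unfold exq
        rw [dif_pos hPS]
        simp only [het]
        rw [if_pos hps]
      rw [this]
    rw [hcong] at hr
    simp only [hNdef]
    refine hr.trans (le_of_eq ?_)
    rw [hc]
    push_cast
    ring
  have hmaps : ∀ x ∈ S, et x ∈ CH (TyF f) z y s := by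
    intro x hx
    unfold CH
    rw [Fintype.mem_piFinset]
    intro p
    simp only [het]
    by_cases hps : (p : ℕ) ∣ s
    · rw [if_pos hps, if_pos hps]
      have hpp := (mem_PS.1 p.2).2
      have hpm : (p : ℕ) ∈ s.primeFactors := Nat.mem_primeFactors.2 ⟨hpp, hps, dv_ne_zero hs⟩
      unfold TyF Zr
      rw [mem_product, mem_filter, mem_range]
      refine ⟨⟨ty3_lt hpp, ?_⟩, mem_univ _⟩
      have h2 := hsp x hx p hpm
      have h3 := ty3_dvd (f := fb) (m := t0 + q * (x : ℤ)) (w := 1) hpp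
        (fun h => hpp.one_lt.ne' (Nat.dvd_one.1 h))
      rw [Nat.cast_one, one_mul] at h3
      exact (dvd_congr f h3).1 h2
    · rw [if_neg hps, if_neg hps]
      exact mem_singleton_self _
  set W := ∏ p ∈ s.primeFactors, Wt2 f p with hW
  set Q : ℝ := Cb * ((4 : ℝ) ^ m) ^ κ * NX * (W * hh c1 s) * bw (4 * n) 2 v *
      bw n 1 u / Lam (fun p => (rho f p : ℝ) / p) z y with hQ
  have hWp : 0 ≤ W := prod_nonneg fun p hp => by
    have hpp := Nat.prime_of_mem_primeFactors hp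
    exact hw p hpp (dv_prime hs hpp (Nat.dvd_of_mem_primeFactors hp)).1
  have hh0 : 0 ≤ hh c1 s := by
    have := hh_ge_one (c := c1) (by linarith) s
    linarith
  have hbv0 : 0 ≤ bw (4 * n) 2 v := by unfold bw; positivity
  have hbu0 : 0 ≤ bw n 1 u := by unfold bw; positivity
  have hLam : 0 < Lam (fun p => (rho f p : ℝ) / p) z y := Real.exp_pos _
  have h2 : ∀ ε ∈ CH (TyF f) z y s, ((S.filter (fun x : ℕ => et x = ε)).card : ℝ) ≤ Q := by
    intro ε _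
    have h3 := hcell f fb g hρ' hf hfb hffb hρg hρe hM hgd hge q t0 hq hq0 X y Y κ (by omega) hzy
        hyK' hXk s hs v hv u hu h8 (exq ε)
    rw [← hNX, ← hW] at h3
    rw [hQ]
    refine le_trans ?_ h3
    have h4 : (S.filter (fun x : ℕ => et x = ε)).card ≤ ((Icc 1 X).filter (fun x : ℕ =>
        (∀ j, Rg L X ((g j).eval (t0 + q * x : ℤ))) ∧
        q1 z y (f.eval (t0 + q * x : ℤ)) = s ∧
        q2 z y (f.eval (t0 + q * x : ℤ)) = v ∧ (u : ℤ) ∣ f.eval (t0 + q * x : ℤ) ∧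
        ∀ p ∈ s.primeFactors, ty3 fb 1 p (t0 + q * x) = exq ε p)).card := by
      refine card_le_card fun x hx => ?_
      rw [mem_filter, hS, mem_filter] at hx
      obtain ⟨⟨hxT, hx0, hxs, hxv, hxu⟩, hxe⟩ := hx
      obtain ⟨hx1, _, hxp⟩ := hT x hxT
      rw [mem_filter, mem_Icc]
      refine ⟨hx1, hxp, hxs, hxv, hxu, fun p hp => ?_⟩
      have hpp := Nat.prime_of_mem_primeFactors hp
      have hps := Nat.dvd_of_mem_primeFactors hp
      have hPS : p ∈ PS z y := mem_PS.2 ⟨dv_prime hs hpp hps, hpp⟩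
      rw [← hxe]
      unfold exq
      rw [dif_pos hPS]
      simp only [het]
      rw [if_pos hps]
    exact_mod_cast h4
  have h3 : ∑ x ∈ S, N (et x) ≤ ∑ ε ∈ CH (TyF f) z y s, Q * N ε := by
    rw [← sum_fiberwise_of_maps_to hmaps]
    refine sum_le_sum fun ε hε => ?_
    have h4 : ∑ x ∈ S.filter (fun x : ℕ => et x = ε), N (et x) =
        (S.filter (fun x : ℕ => et x = ε)).card * N ε := by
      rw [← nsmul_eq_mul, ← sum_const]
      refine sum_congr rfl fun x hx => ?_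
      rw [(mem_filter.1 hx).2]
    rw [h4]
    exact mul_le_mul_of_nonneg_right (h2 ε hε) (hN0 ε)
  have hG : |Gs PG' s| = ∑ ε ∈ CH (TyF f) z y s, (W * hh c1 s) * N ε := by
    rw [hGnn' y s hs, hPG', Gs_eq hs]
    refine sum_congr rfl fun ε _ => ?_
    rw [hprod]
  have hbu : bw n 1 u ≤ bw A0 1 u := by
    unfold bw
    refine div_le_div_of_nonneg_right (pow_le_pow_left₀ (by linarith) ?_ _) (by positivity)
    rw [hA0]
    nlinarith
  have hbv : (4 ^ v.primeFactors.card) ^ k * bw (4 * n) 2 v = bw A0 2 v := by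
    unfold bw
    rw [hA0, mul_pow (4 ^ k : ℝ), pow_right_comm (4 : ℝ) k]
    ring
  have hbA0 : 0 ≤ bw A0 2 v := by unfold bw; positivity
  calc ∑ x ∈ S, R (t0 + q * x)
      ≤ ∑ x ∈ S, c ^ k * N (et x) := sum_le_sum h1
    _ ≤ c ^ k * ∑ ε ∈ CH (TyF f) z y s, Q * N ε := by
        rw [← mul_sum]
        exact mul_le_mul_of_nonneg_left h3 (by positivity)
    _ = (c0 : ℝ) ^ k * ((4 ^ M) ^ k) ^ κ * (Cb * ((4 : ℝ) ^ m) ^ κ * NX) * |Gs PG' s| *
          bw A0 2 v * bw n 1 u / Lam (fun p => (rho f p : ℝ) / p) z y := by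
        rw [hG, ← hbv, hc, hQ, mul_pow, mul_pow, pow_right_comm (4 ^ M : ℝ) κ k]
        rw [mul_sum, mul_sum, sum_mul, sum_mul, sum_div]
        refine sum_congr rfl fun ε _ => ?_
        ring
    _ ≤ (c0 : ℝ) ^ k * ((4 ^ M) ^ k) ^ κ * (Cb * ((4 : ℝ) ^ m) ^ κ * NX) * |Gs PG' s| *
          bw A0 2 v * bw A0 1 u / Lam (fun p => (rho f p : ℝ) / p) z y := by
        refine div_le_div_of_nonneg_right (mul_le_mul_of_nonneg_left hbu ?_) hLam.le
        have := abs_nonneg (Gs PG' s)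
        positivity
    _ = _ := by
        rw [mul_pow ((4 ^ M) ^ k : ℝ) (4 ^ m) κ]
        ring

end Pool.Agent.H27.PG
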