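import Mathlib
import Pool.Agent.H27.RU.Short
import Pool.Agent.H27.PG.G3

/-!
# From many terms of a progression to progressions in short intervals
-/

set_option autoImplicit false

namespace Pool.Agent.H27.PG

open Finset Polynomial
open Pool.Agent.H27.RU (gq gq_ge_one pow_bound)

set_option maxHeartbeats 1000000 in
/-- **prime values in progressions in short intervals** -/
theorem shortP {m : ℕ} (f : ℤ[X]) (g : Fin m → ℤ[X]) (L z n e : ℕ) (hnz : 2 * n + 2 ≤ z)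
    (hmz : 2 * e + 2 ≤ z) (R : ℤ → ℝ) (hR : ∀ t, 0 ≤ R t)
    (hM : ∀ κ0 : ℕ, ∃ (X0 : ℕ) (C2 : ℝ), 0 ≤ C2 ∧ ∀ (t0 : ℤ) (q X : ℕ), X0 ≤ X → 1 ≤ q →
      (∀ p : ℕ, p.Prime → z < p → p ∣ q → ¬ (p : ℤ) ∣ f.eval t0) →
      ∀ T : Finset ℕ, (∀ x ∈ T, (1 ≤ x ∧ x ≤ X) ∧ (t0 + q * x : ℤ).natAbs ≤ X ^ κ0 ∧
        ∀ j, Rg L X ((g j).eval (t0 + q * x : ℤ))) →
      ∑ x ∈ T, R (t0 + q * x) ≤ C2 * (X / (Real.log X) ^ m * (gq z n q * gq z e q)))
    (θ : ℝ) (hθ : 0 < θ) :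
    ∃ C : ℝ, 0 ≤ C ∧ ∀ (q : ℕ) (r A : ℤ) (H : ℕ), 1 ≤ q → 2 ≤ H →
      (∀ p : ℕ, p.Prime → z < p → p ∣ q → ¬ (p : ℤ) ∣ f.eval r) →
      (((|A| : ℤ) : ℝ) + H) ^ θ ≤ (H : ℝ) / q →
      ∑ t ∈ (Ioc A (A + H)).filter (fun t : ℤ => t ≡ r [ZMOD q] ∧
        ∀ j, Rg L H ((g j).eval t)), R t ≤
        C * ((H : ℝ) / q) * (gq z n q * gq z e q) / (Real.log H) ^ m := by
  classical
  obtain ⟨κ, hb1, hb⟩ := pow_bound θ hθ
  obtain ⟨X0, C2, hC2, hmain⟩ := hM κ
  set X1 : ℕ := X0 + 3 with hX1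
  set M : ℕ := X1 ^ κ with hMdef
  set R0 : ℝ := ∑ t ∈ Icc (-(M : ℤ)) M, R t with hR0
  have hR00 : 0 ≤ R0 := sum_nonneg fun t _ => hR t
  have hlM : 0 ≤ Real.log M := Real.log_natCast_nonneg M
  refine ⟨R0 * (Real.log M) ^ m + 2 * C2 * (κ : ℝ) ^ m, by positivity,
    fun q r A H hq hH hcop hsz => ?_⟩
  set T := (Ioc A (A + H)).filter (fun t : ℤ => t ≡ r [ZMOD q] ∧
    ∀ j, Rg L H ((g j).eval t)) with hT
  have hqr : (1 : ℝ) ≤ q := by exact_mod_cast hq
  obtain ⟨gg, hgg⟩ : ∃ gg, gg = gq z n q * gq z e q := ⟨_, rfl⟩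
  have hgq : 1 ≤ gg := by
    rw [hgg]
    exact one_le_mul_of_one_le_of_one_le (gq_ge_one hnz) (gq_ge_one hmz)
  rw [← hgg]
  have hHr : (2 : ℝ) ≤ H := by exact_mod_cast hH
  have hlH : 0 < Real.log H := Real.log_pos (by linarith)
  have hAr : (0 : ℝ) ≤ ((|A| : ℤ) : ℝ) := by exact_mod_cast abs_nonneg A
  have hu1 : (1 : ℝ) ≤ ((|A| : ℤ) : ℝ) + H := by linarith
  have hv1 : (1 : ℝ) ≤ (H : ℝ) / q := (Real.one_le_rpow hu1 hθ.le).trans hsz
  have hub := hb _ _ hu1 hv1 hsz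
  -- the first element of the progression
  set t0 : ℤ := A - (A - r) % q with ht0
  have hqz : (q : ℤ) ≠ 0 := by omega
  have hmod0 := Int.emod_nonneg (A - r) hqz
  have hmod1 := Int.emod_lt_of_pos (A - r) (by omega : (0 : ℤ) < q)
  have ht0r : (q : ℤ) ∣ t0 - r := by
    have h1 : t0 - r = (A - r) - (A - r) % q := by rw [ht0]; ring
    rw [h1]
    exact Int.dvd_self_sub_emod
  set X : ℕ := (H + (q - 1)) / q with hXdef
  have hXq : X * q ≤ H + (q - 1) := Nat.div_mul_le_self _ _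
  have hHX : H ≤ X * q := by
    have h1 : H + (q - 1) < (X + 1) * q := by
      have h2 := Nat.lt_mul_div_succ (H + (q - 1)) (show 0 < q by omega)
      rw [mul_comm]
      exact h2
    rw [add_mul, one_mul] at h1
    omega
  have hvX : (H : ℝ) / q ≤ X := by
    rw [div_le_iff₀ (by linarith)]
    exact_mod_cast hHX
  have hHq : q ≤ H := by
    rw [one_le_div (by linarith)] at hv1
    exact_mod_cast hv1
  have hX2 : (X : ℝ) ≤ 2 * ((H : ℝ) / q) := by
    have h1 : X * q ≤ 2 * H := by omega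
    have h2 : (X : ℝ) * q ≤ 2 * H := by exact_mod_cast h1
    rw [← mul_div_assoc, le_div_iff₀ (by linarith)]
    exact h2
  have hXH : X ≤ H := by
    rw [hXdef]
    refine Nat.div_le_of_le_mul ?_
    have h1 : (H - 1) * 1 ≤ (H - 1) * q := Nat.mul_le_mul_left _ hq
    obtain ⟨H', rfl⟩ : ∃ H', H = H' + 1 := ⟨H - 1, by omega⟩
    obtain ⟨q', rfl⟩ : ∃ q', q = q' + 1 := ⟨q - 1, by omega⟩
    have h2 : (q' + 1) * (H' + 1) = q' * H' + q' + H' + 1 := by ring
    rw [h2]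
    omega
  have hX1' : 1 ≤ X := by
    have h1 : (1 : ℝ) ≤ X := hv1.trans hvX
    exact_mod_cast h1
  have hXb : ((|A| : ℤ) : ℝ) + H ≤ (X : ℝ) ^ κ :=
    hub.trans (pow_le_pow_left₀ (by positivity) hvX κ)
  have habs : ∀ t ∈ T, t.natAbs ≤ X ^ κ := by
    intro t ht
    have h1 := mem_Ioc.1 (mem_filter.1 ht).1
    have h2 : (t.natAbs : ℤ) ≤ |A| + H := by
      have h3 := le_abs_self A
      have h4 := neg_abs_le A
      omega
    have h3 : (t.natAbs : ℝ) ≤ ((|A| : ℤ) : ℝ) + H := by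
      have h4 : (((t.natAbs : ℤ)) : ℝ) ≤ (((|A| + (H : ℤ)) : ℤ) : ℝ) := Int.cast_le.2 h2
      rw [Int.cast_natCast, Int.cast_add, Int.cast_natCast] at h4
      exact h4
    have h5 : (t.natAbs : ℝ) ≤ (X : ℝ) ^ κ := h3.trans hXb
    rw [← Nat.cast_pow] at h5
    exact Nat.cast_le.1 h5
  have hHXb : (H : ℝ) ≤ (X : ℝ) ^ κ := le_trans (by linarith) hXb
  have hlHb : Real.log H ≤ κ * Real.log X := by
    have h1 := Real.log_le_log (by linarith) hHXb
    rwa [Real.log_pow] at h1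
  have hLH : 0 < (Real.log H) ^ m := by positivity
  rcases Nat.lt_or_ge X X1 with hXX | hXX
  · have h1 : ∑ t ∈ T, R t ≤ R0 := by
      refine sum_le_sum_of_subset_of_nonneg ?_ (fun t _ _ => hR t)
      intro t ht
      have h2 := (habs t ht).trans (Nat.pow_le_pow_left hXX.le κ)
      rw [mem_Icc]
      omega
    have h2 : (1 : ℝ) ≤ (H : ℝ) / q * gg :=
      one_le_mul_of_one_le_of_one_le hv1 hgq
    have h3 : (Real.log H) ^ m ≤ (Real.log M) ^ m := by
      refine pow_le_pow_left₀ hlH.le ?_ _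
      refine Real.log_le_log (by linarith) (hHXb.trans ?_)
      rw [hMdef]
      push_cast
      exact pow_le_pow_left₀ (by positivity) (by exact_mod_cast hXX.le) _
    have h4 : R0 * (Real.log H) ^ m ≤ R0 * (Real.log M) ^ m :=
      mul_le_mul_of_nonneg_left h3 hR00
    have h5 : 0 ≤ R0 * (Real.log M) ^ m := by positivity
    rw [le_div_iff₀ hLH]
    calc (∑ t ∈ T, R t) * (Real.log H) ^ m ≤ R0 * (Real.log H) ^ m :=
          mul_le_mul_of_nonneg_right h1 hLH.le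
      _ ≤ (R0 * (Real.log M) ^ m) * ((H : ℝ) / q * gg) :=
          h4.trans (le_mul_of_one_le_right h5 h2)
      _ ≤ (R0 * (Real.log M) ^ m + 2 * C2 * (κ : ℝ) ^ m) *
            ((H : ℝ) / q * gg) := by
          refine mul_le_mul_of_nonneg_right ?_ (by linarith)
          have : 0 ≤ 2 * C2 * (κ : ℝ) ^ m := by positivity
          linarith
      _ = _ := by ring
  · have hX3 : 3 ≤ X := by omega
    have hXr3 : (3 : ℝ) ≤ X := by exact_mod_cast hX3
    have hlX : 0 < Real.log X := Real.log_pos (by linarith)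
    have hLX : 0 < (Real.log X) ^ m := by positivity
    have hin : ∀ t ∈ T, ∃ n ∈ Icc 1 X, t = t0 + q * (n : ℤ) := by
      intro t ht
      have ht1 := mem_filter.1 ht
      have h1 := mem_Ioc.1 ht1.1
      have h2 : (q : ℤ) ∣ t - t0 := by
        have h3 : (q : ℤ) ∣ t - r := ht1.2.1.symm.dvd
        have h4 : t - t0 = (t - r) - (t0 - r) := by ring
        rw [h4]
        exact dvd_sub h3 ht0r
      obtain ⟨n, hn⟩ := h2
      have hn0 : 0 < n := by
        by_contra hcon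
        have h5 : q * n ≤ 0 := mul_nonpos_of_nonneg_of_nonpos (by omega) (by omega)
        omega
      have hnX : n * q ≤ H + (q - 1) := by
        have h6 : (q : ℤ) * n = t - t0 := hn.symm
        have h7 : (q : ℤ) * n = n * q := mul_comm _ _
        omega
      refine ⟨n.toNat, ?_, ?_⟩
      · rw [mem_Icc]
        refine ⟨by omega, ?_⟩
        rw [hXdef, Nat.le_div_iff_mul_le (by omega)]
        zify
        rw [Int.toNat_of_nonneg hn0.le]
        push_cast [Nat.cast_sub hq]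
        exact hnX
      · rw [Int.toNat_of_nonneg hn0.le, ← hn]
        ring
    have hcop' : ∀ p : ℕ, p.Prime → z < p → p ∣ q → ¬ (p : ℤ) ∣ f.eval t0 := by
      intro p hp hzp hpq hd
      apply hcop p hp hzp hpq
      exact (Pool.Agent.H64.PM.dvd_congr f
        ((Int.natCast_dvd_natCast.2 hpq).trans ht0r)).1 hd
    set T' := (Icc 1 X).filter (fun x : ℕ => (t0 + q * (x : ℤ)) ∈ T) with hT'
    have hsum : ∑ t ∈ T, R t ≤ ∑ x ∈ T', R (t0 + q * x) := by
      have h1 : T ⊆ T'.image (fun x : ℕ => t0 + q * (x : ℤ)) := by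
        intro t ht
        obtain ⟨x, hx, hx2⟩ := hin t ht
        exact mem_image.2 ⟨x, mem_filter.2 ⟨hx, by rw [← hx2]; exact ht⟩, hx2.symm⟩
      refine (sum_le_sum_of_subset_of_nonneg h1 fun t _ _ => hR t).trans (le_of_eq ?_)
      refine sum_image ?_
      intro x _ x' _ h
      simp only at h
      have h2 : (q : ℤ) * x = q * x' := by linarith
      exact_mod_cast mul_left_cancel₀ hqz h2
    have h1 := hmain t0 q X (by omega) hq hcop' T' (fun x hx => by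
      rw [hT', mem_filter, mem_Icc] at hx
      refine ⟨hx.1, habs _ hx.2, fun j => ?_⟩
      obtain ⟨h2, h3⟩ := (mem_filter.1 hx.2).2.2 j
      exact ⟨h2, fun p hp hpd => (h3 p hp hpd).imp id fun h4 => hXH.trans h4⟩)
    rw [← hgg] at h1
    have h2 : (Real.log H) ^ m ≤ (κ : ℝ) ^ m * (Real.log X) ^ m := by
      rw [← mul_pow]
      exact pow_le_pow_left₀ hlH.le hlHb _
    have h3 : (X : ℝ) / (Real.log X) ^ m ≤
        2 * ((H : ℝ) / q) * (κ : ℝ) ^ m / (Real.log H) ^ m := by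
      rw [div_le_div_iff₀ hLX hLH]
      calc (X : ℝ) * (Real.log H) ^ m ≤ (2 * ((H : ℝ) / q)) * ((κ : ℝ) ^ m * (Real.log X) ^ m) :=
            mul_le_mul hX2 h2 hLH.le (by positivity)
        _ = _ := by ring
    have h4 : 0 ≤ R0 * (Real.log M) ^ m * (((H : ℝ) / q) * gg) /
        (Real.log H) ^ m := by positivity
    calc ∑ t ∈ T, R t ≤ C2 * (X / (Real.log X) ^ m * gg) := hsum.trans h1
      _ ≤ C2 * (2 * ((H : ℝ) / q) * (κ : ℝ) ^ m / (Real.log H) ^ m * gg) := by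
          gcongr
      _ ≤ C2 * (2 * ((H : ℝ) / q) * (κ : ℝ) ^ m / (Real.log H) ^ m * gg) +
          R0 * (Real.log M) ^ m * (((H : ℝ) / q) * gg) /
            (Real.log H) ^ m := le_add_of_nonneg_right h4
      _ = _ := by ring

end Pool.Agent.H27.PG
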