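import Mathlib
import Pool.Agent.H64.QM.U5
import Pool.Agent.H27.PG.G4

/-!
# Elementary facts about the irreducible polynomials
-/

set_option autoImplicit false

namespace Pool.Agent.H27.PG

open Finset Polynomial
open Pool.Agent.H64.PM (Zr rho dvd_congr Smp smp_of sqf_part)
open Pool.Agent.H64.QM (Sp Sp_of)

/-- factors have no common roots -/
lemma nocommon {F A B : ℤ[X]} {p : ℕ} (hAB : A * B ∣ F) (hF : Sp F p) {x : ℤ}
    (h1 : (p : ℤ) ∣ A.eval x) : ¬ (p : ℤ) ∣ B.eval x := by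
  intro h2
  obtain ⟨Q, rfl⟩ := hAB
  refine hF x ?_ ?_
  · rw [eval_mul, eval_mul]
    exact (h1.mul_right _).mul_right _
  · rw [derivative_mul, derivative_mul, eval_add, eval_mul, eval_mul, eval_add, eval_mul,
      eval_mul, eval_mul]
    refine dvd_add (Dvd.dvd.mul_right (dvd_add ?_ ?_) _) (Dvd.dvd.mul_right ?_ _)
    · exact h2.mul_left _
    · exact h1.mul_right _
    · exact h1.mul_right _

lemma mul_dvd_prod {m : ℕ} (g : Fin m → ℤ[X]) {i j : Fin m} (hij : i ≠ j) :
    g i * g j ∣ ∏ j, g j := by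
  classical
  rw [← mul_prod_erase univ g (mem_univ i)]
  refine mul_dvd_mul_left _ (dvd_prod_of_mem g ?_)
  exact mem_erase.2 ⟨hij.symm, mem_univ _⟩

/-- the numbers of the roots -/
lemma facts (f : ℤ[X]) {m : ℕ} (g : Fin m → ℤ[X])
    (hsq : Squarefree ((f * ∏ j, g j).map (Int.castRingHom ℚ))) :
    ∃ z0 : ℕ, ∀ p : ℕ, p.Prime → z0 < p →
      rho (f * ∏ j, g j) p = rho f p + rho (∏ j, g j) p ∧
      rho (∏ j, g j) p ≤ ∑ j, (g j).natDegree ∧
      rho (∏ j, g j) p = ∑ j, rho (g j) p ∧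
      ∀ j, ∀ x : ℤ, (p : ℤ) ∣ (g j).eval x → ¬ (p : ℤ) ∣ f.eval x := by
  classical
  obtain ⟨z1, hz1⟩ := smp_of _ hsq
  have hF0 : f * ∏ j, g j ≠ 0 := by
    intro h
    rw [h, Polynomial.map_zero] at hsq
    exact hsq.ne_zero rfl
  have hG0 : ∏ j, g j ≠ 0 := right_ne_zero_of_mul hF0
  obtain ⟨z2, hz2⟩ := Pool.Agent.H474R2.PG.rho_le _ hG0
  refine ⟨z1 + z2, fun p hp hzp => ?_⟩
  have hpi : Prime (p : ℤ) := Nat.prime_iff_prime_int.1 hp
  have hS : Sp (f * ∏ j, g j) p := Sp_of hz1 hp (by omega)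
  refine ⟨?_, ?_, ?_, ?_⟩
  · have hZ : Zr (f * ∏ j, g j) p = Zr f p ∪ Zr (∏ j, g j) p := by
      ext x
      rw [mem_union]
      unfold Zr
      simp only [mem_filter, mem_range]
      rw [eval_mul]
      constructor
      · rintro ⟨h4, h5⟩
        rcases hpi.dvd_or_dvd h5 with h6 | h6
        · exact Or.inl ⟨h4, h6⟩
        · exact Or.inr ⟨h4, h6⟩
      · rintro (⟨h4, h5⟩ | ⟨h4, h5⟩)
        · exact ⟨h4, h5.mul_right _⟩
        · exact ⟨h4, h5.mul_left _⟩
    unfold rho
    rw [hZ, card_union_of_disjoint]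
    rw [disjoint_left]
    intro x hx hx'
    unfold Zr at hx hx'
    rw [mem_filter] at hx hx'
    exact nocommon (dvd_refl _) hS hx.2 hx'.2
  · have h1 := hz2 p hp (by omega)
    rw [natDegree_prod] at h1
    · exact h1
    · intro j _ h
      exact hG0 (prod_eq_zero (mem_univ j) h)
  · have hZ : Zr (∏ j, g j) p = univ.biUnion (fun j => Zr (g j) p) := by
      ext x
      rw [mem_biUnion]
      unfold Zr
      simp only [mem_filter, mem_range, mem_univ, true_and]
      rw [eval_prod]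
      constructor
      · rintro ⟨h4, h5⟩
        obtain ⟨j, _, hj⟩ := (hpi.dvd_finsetProd_iff _).1 h5
        exact ⟨j, h4, hj⟩
      · rintro ⟨j, h4, h5⟩
        exact ⟨h4, h5.trans (dvd_prod_of_mem (fun j => (g j).eval (x : ℤ)) (mem_univ j))⟩
    unfold rho
    rw [hZ, card_biUnion]
    intro i _ j _ hij
    rw [Function.onFun, disjoint_left]
    intro x hx hx'
    unfold Zr at hx hx'
    rw [mem_filter] at hx hx'
    exact nocommon ((mul_dvd_prod g hij).trans (Dvd.intro_left _ rfl)) hS hx.2 hx'.2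
  · intro j x h1 h2
    refine nocommon (A := f) (B := g j) ?_ hS h2 h1
    exact mul_dvd_mul_left _ (dvd_prod_of_mem g (mem_univ j))

/-- the product of a part of the polynomials -/
noncomputable def gJ {m : ℕ} (J : Finset (Fin m)) (g : Fin m → ℤ[X]) : ℤ[X] := ∏ j ∈ J, g j

lemma gJ_eval {m : ℕ} (J : Finset (Fin m)) (g : Fin m → ℤ[X]) (t : ℤ) :
    (gJ J g).eval t = ∏ j ∈ J, (g j).eval t := by
  unfold gJ
  rw [eval_prod]

lemma coprime_of {m : ℕ} {g : Fin m → ℤ[X]}
    (hirr : ∀ j, Irreducible ((g j).map (Int.castRingHom ℚ)))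
    (hna : ∀ i j, i ≠ j → ¬ Associated ((g i).map (Int.castRingHom ℚ))
      ((g j).map (Int.castRingHom ℚ))) {i j : Fin m} (hij : i ≠ j) :
    IsCoprime ((g i).map (Int.castRingHom ℚ)) ((g j).map (Int.castRingHom ℚ)) :=
  (hirr i).coprime_iff_not_dvd.2 fun h => hna i j hij ((hirr i).associated_of_dvd (hirr j) h)

lemma sqf_prod (f : ℤ[X]) (hf : Squarefree (f.map (Int.castRingHom ℚ))) {m : ℕ} (g : Fin m → ℤ[X])
    (hirr : ∀ j, Irreducible ((g j).map (Int.castRingHom ℚ)))
    (hna : ∀ i j, i ≠ j → ¬ Associated ((g i).map (Int.castRingHom ℚ))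
      ((g j).map (Int.castRingHom ℚ)))
    (hnd : ∀ j, ¬ (g j).map (Int.castRingHom ℚ) ∣ f.map (Int.castRingHom ℚ)) :
    Squarefree ((f * ∏ j, g j).map (Int.castRingHom ℚ)) := by
  classical
  rw [Polynomial.map_mul, Polynomial.map_prod]
  refine (squarefree_mul_iff).2 ⟨?_, hf, ?_⟩
  · refine IsCoprime.isRelPrime (IsCoprime.prod_right fun j _ => ?_)
    exact ((hirr j).coprime_iff_not_dvd.2 (hnd j)).symm
  · refine Finset.squarefree_prod_of_pairwise_isCoprime (fun i _ j _ hij => ?_)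
      fun j _ => (hirr j).squarefree
    exact (coprime_of hirr hna hij).isRelPrime

/-- the decomposition of a polynomial -/
lemma decomp (P : ℤ[X]) (hP : P ≠ 0) {m : ℕ} (g : Fin m → ℤ[X])
    (hirr : ∀ j, Irreducible ((g j).map (Int.castRingHom ℚ)))
    (hna : ∀ i j, i ≠ j → ¬ Associated ((g i).map (Int.castRingHom ℚ))
      ((g j).map (Int.castRingHom ℚ))) :
    ∃ (J : Finset (Fin m)) (S : ℤ[X]) (c : ℚ) (r : ℚ[X]), c ≠ 0 ∧
      Squarefree ((gJ J g * S).map (Int.castRingHom ℚ)) ∧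
      (∀ j, ¬ (g j).map (Int.castRingHom ℚ) ∣ S.map (Int.castRingHom ℚ)) ∧
      P.map (Int.castRingHom ℚ) = C c * (gJ J g * S).map (Int.castRingHom ℚ) * r ^ 2 ∧
      S.natDegree ≤ P.natDegree := by
  classical
  set D : ℚ[X] := P.map (Int.castRingHom ℚ) with hD
  have hD0 : D ≠ 0 := by
    intro h
    apply hP
    exact Polynomial.map_injective (Int.castRingHom ℚ) Int.cast_injective
      (by rw [Polynomial.map_zero]; exact h)
  obtain ⟨s, r, hs, hDs⟩ := sqf_part D hD0
  have hs0 := hs.ne_zero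
  set J : Finset (Fin m) := univ.filter (fun j => (g j).map (Int.castRingHom ℚ) ∣ s) with hJ
  have hdvd : (∏ j ∈ J, (g j).map (Int.castRingHom ℚ)) ∣ s := by
    refine Finset.prod_dvd_of_coprime (fun i _ j _ hij => ?_) fun j hj => (mem_filter.1 hj).2
    exact coprime_of hirr hna hij
  obtain ⟨s', hs'⟩ := hdvd
  have hs'0 : s' ≠ 0 := by
    rintro rfl
    rw [mul_zero] at hs'
    exact hs0 hs'
  have hs'ρ : ∀ j, ¬ (g j).map (Int.castRingHom ℚ) ∣ s' := by
    intro j hj
    have hjJ : j ∈ J := by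
      refine mem_filter.2 ⟨mem_univ _, ?_⟩
      rw [hs']
      exact hj.mul_left _
    have h3 : (g j).map (Int.castRingHom ℚ) ∣ ∏ j ∈ J, (g j).map (Int.castRingHom ℚ) :=
      dvd_prod_of_mem (fun j => (g j).map (Int.castRingHom ℚ)) hjJ
    have h4 : (g j).map (Int.castRingHom ℚ) * (g j).map (Int.castRingHom ℚ) ∣ s := by
      rw [hs']
      exact mul_dvd_mul h3 hj
    exact (hirr j).not_isUnit (hs _ h4)
  obtain ⟨N, hNM, hN⟩ := IsLocalization.integerNormalization_spec (nonZeroDivisors ℤ) s'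
  set S := IsLocalization.integerNormalization (nonZeroDivisors ℤ) s' with hS
  have hN0 : N ≠ 0 := nonZeroDivisors.ne_zero hNM
  have hNq : (N : ℚ) ≠ 0 := by exact_mod_cast hN0
  have hSm : S.map (Int.castRingHom ℚ) = C (N : ℚ) * s' := by
    have h1 : (algebraMap ℤ ℚ) = Int.castRingHom ℚ := rfl
    rw [← h1, hN]
    ext i
    simp
  have hu : IsUnit (C (N : ℚ)) := by
    rw [isUnit_C, isUnit_iff_ne_zero]
    exact hNq
  have hGS : (gJ J g * S).map (Int.castRingHom ℚ) = C (N : ℚ) * s := by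
    unfold gJ
    rw [Polynomial.map_mul, Polynomial.map_prod, hSm, hs']
    ring
  refine ⟨J, S, (N : ℚ)⁻¹, r, inv_ne_zero hNq, ?_, ?_, ?_, ?_⟩
  · rw [hGS]
    have hass : Associated s (C (N : ℚ) * s) :=
      (associated_isUnit_mul_left_iff hu).2 (Associated.refl _) |>.symm
    exact hass.squarefree_iff.1 hs
  · intro j hj
    rw [hSm] at hj
    exact hs'ρ j ((hu.dvd_mul_left).1 hj)
  · rw [hGS, hDs, ← mul_assoc, ← C_mul, inv_mul_cancel₀ hNq, C_1, one_mul]
  · have h1 : S.natDegree = s'.natDegree := by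
      rw [← natDegree_map_eq_of_injective (f := Int.castRingHom ℚ) Int.cast_injective S, hSm,
        natDegree_C_mul hNq]
    have h2 : s'.natDegree ≤ s.natDegree := by
      refine natDegree_le_of_dvd ?_ hs0
      rw [hs']
      exact Dvd.intro_left _ rfl
    have h3 : s.natDegree ≤ D.natDegree := by
      refine natDegree_le_of_dvd ?_ hD0
      rw [hDs]
      exact Dvd.intro _ rfl
    have h4 : D.natDegree = P.natDegree :=
      natDegree_map_eq_of_injective Int.cast_injective P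
    omega

/-- the number of the prime factors -/
lemma omega_Rg {L X M : ℕ} {v : ℤ} (hX : 2 ≤ X) (h : Rg L X v) (hv : v.natAbs ≤ X ^ M) :
    v.natAbs.primeFactors.card ≤ M * L + 1 := by
  classical
  obtain ⟨hv0, h⟩ := h
  by_cases hc : ∃ p : ℕ, p.Prime ∧ p = v.natAbs
  · obtain ⟨p, hp, hpv⟩ := hc
    rw [← hpv, hp.primeFactors, card_singleton]
    omega
  · push Not at hc
    have h1 : ∀ p ∈ v.natAbs.primeFactors, X ≤ p ^ L := by
      intro p hp
      have hpp := Nat.prime_of_mem_primeFactors hp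
      exact (h p hpp (Int.natCast_dvd.2 (Nat.dvd_of_mem_primeFactors hp))).resolve_left (hc p hpp)
    have h2 : X ^ v.natAbs.primeFactors.card ≤ X ^ (M * L) := by
      calc X ^ v.natAbs.primeFactors.card = ∏ _p ∈ v.natAbs.primeFactors, X := by
            rw [prod_const]
        _ ≤ ∏ p ∈ v.natAbs.primeFactors, p ^ L := prod_le_prod' h1
        _ = (∏ p ∈ v.natAbs.primeFactors, p) ^ L := by rw [prod_pow]
        _ ≤ v.natAbs ^ L := by
            refine Nat.pow_le_pow_left ?_ L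
            exact Nat.le_of_dvd (Int.natAbs_pos.2 hv0) (Nat.prod_primeFactors_dvd _)
        _ ≤ (X ^ M) ^ L := Nat.pow_le_pow_left hv L
        _ = X ^ (M * L) := by rw [← pow_mul]
    have h3 := (Nat.pow_le_pow_iff_right (by omega)).1 h2
    omega

end Pool.Agent.H27.PG
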