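import Mathlib
import Pool.Agent.H64.QM.U5
import Pool.Agent.H27.PG.G5
import Pool.Agent.H27.PG.B1
import Pool.Agent.H27.RU.Red

/-!
# The rank in general families: a part of the roots
-/

set_option autoImplicit false

namespace Pool.Agent.H27.PG

open Finset Pool.Agent.W262.RK Pool.Agent.W762.RK2 Polynomial
open Pool.Agent.H64.PM hiding gq gq_one
open Pool.Agent.H64.QM (sc ty3 sc_one cv_one eval_bound3 sc_not_dvd3)
open Pool.Agent.H27.RU (gq gq_ge_one gq_le)

set_option maxHeartbeats 1000000 in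
/-- the bound for the rank -/
lemma rankGen {A B D f G : ℤ[X]} {N0 : ℤ} (hN0 : N0 ≠ 0) (hfG : C N0 * fT A B D = G * f)
    {z y X κ M mm : ℕ} {t : ℤ}
    (hfb : Smp (fT A B D) z) (hz2 : 2 ≤ z) (hy : 1 ≤ y) (hM1 : 1 ≤ M)
    (hffb : ∀ p : ℕ, p.Prime → z < p → ∀ t : ℤ, (p : ℤ) ∣ f.eval t → ¬ (p : ℤ) ^ 2 ∣ f.eval t →
      (p : ℤ) ∣ (fT A B D).eval t ∧ ¬ (p : ℤ) ^ 2 ∣ (fT A B D).eval t)
    (hG0 : G.eval t ≠ 0)
    (hmm : (G.eval t).natAbs.primeFactors.card ≤ mm) (h0 : f.eval t ≠ 0)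
    (hb : (f.eval t).natAbs ≤ X ^ M) (hk : X < (y + 1) ^ κ) :
    2 ^ Module.finrank ℤ (EAB ((A * D).eval t) ((B * D).eval t)).toAffine.Point ≤
      4 ^ (z + 2 + mm) * (4 ^ M) ^ κ *
        4 ^ (q2 z y (f.eval t)).primeFactors.card *
        NL (q1 z y (f.eval t)) (fun p => LcQ A B D p (ty3 (fT A B D) 1 p t)) := by
  classical
  have hNe : N0 * (fT A B D).eval t = G.eval t * f.eval t := by
    rw [← eval_mul, ← hfG, eval_mul, eval_C]
  have hNb0 : (fT A B D).eval t ≠ 0 := by
    intro h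
    rw [h, mul_zero] at hNe
    exact mul_ne_zero hG0 h0 hNe.symm
  have hcv := cv_one (A := A) (B := B) (D := D) (z := z) t
  obtain ⟨hα0, hβ0, hαβ0⟩ := hcv.ne (by rw [sc_one]; exact hNb0)
  set α := (A * D).eval t with hα
  set β := (B * D).eval t with hβ
  set N := f.eval t with hN
  set s := q1 z y N with hs
  have hmem : s ∈ (PP z y).divisors := q1_mem z y N
  have hodd : ∀ p : ℕ, p.Prime → p ∣ s → z < p ∧ p ≠ 2 := by
    intro p hp h
    have h1 := (dv_prime hmem hp h).1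
    omega
  have hdd := Pool.Agent.W214.RK2.desc4 s
    (fun p => LcQ A B D p
      (ty3 (fT A B D) 1 p t)) α β hα0 hβ0
    (fun h => hαβ0 (by rw [h, sub_self]))
    (by
      rw [← Nat.not_even_iff_odd, even_iff_two_dvd]
      intro h
      exact (hodd 2 Nat.prime_two h).2 rfl)
    (dv_squarefree hmem)
    (fun p hp hpd => XC_LcQ hfb hz2 hp (hodd p hp hpd).1 _)
    (fun p hp hpd x x' hx' hcurve e1 e2 he1 he2 hsq1 hsq2 => by
      have hpp : p.Prime := Fact.out
      have hjs := (q1_prime hpp).1 hpd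
      have hzp := (hodd p hpp hpd).1
      have hfb2 := hffb p hpp hzp t hjs.2.1 hjs.2.2
      exact Pool.Agent.W342.RK2.locl
        (clq A B p ((ty3 (fT A B D) 1 p t).1 : ℤ))
        (kpq A B D p
          ((ty3 (fT A B D) 1 p t).1 : ℤ))
        (ty3 (fT A B D) 1 p t).2 p _ _
        (hodd p hpp hpd).2 (kpq_ne hfb hpp hzp _)
        (hcv.lo p hpp hzp (fun h => hpp.one_lt.ne' (Nat.dvd_one.1 h)) (by rw [sc_one]; exact hfb2.1)
          (by rw [sc_one]; exact hfb2.2)) x x' hx' hcurve e1 e2 he1 he2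
        hsq1 hsq2)
  refine hdd.trans (Nat.mul_le_mul_right _ ?_)
  -- the bad primes
  have hc := badQ (z := z) (y := y) (K := κ) (m := M) (M := N) hz2 hy hM1 h0 hb hk (fun q _ h => h)
  rw [← hs] at hc
  have hsub : ((2 * α * β * (α - β)).natAbs.primeFactors.filter (fun q => ¬ q ∣ s)) ⊆
      ((2 * N).natAbs.primeFactors.filter (fun q => ¬ q ∣ s)) ∪
        (G.eval t).natAbs.primeFactors := by
    intro q hq
    rw [mem_filter] at hq
    have hqp := Nat.prime_of_mem_primeFactors hq.1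
    have hqi : Prime (q : ℤ) := Nat.prime_iff_prime_int.1 hqp
    have hqd : (q : ℤ) ∣ 2 * α * β * (α - β) :=
      Int.natCast_dvd.2 (Nat.dvd_of_mem_primeFactors hq.1)
    have e2 : (fT A B D).eval t = A.eval t * B.eval t * (A.eval t - B.eval t) * D.eval t := by
      unfold fT
      simp only [eval_mul, eval_sub]
    rw [e2] at hNe
    have e1 : N0 * (2 * α * β * (α - β)) = (2 * N) * (D.eval t) ^ 2 * G.eval t := by
      rw [hα, hβ, eval_mul, eval_mul]
      linear_combination (2 * (D.eval t) ^ 2) * hNe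
    have hqd2 : (q : ℤ) ∣ (2 * N) * (D.eval t) ^ 2 * G.eval t := by
      rw [← e1]
      exact hqd.mul_left _
    rw [mem_union, mem_filter]
    have hkey : (q : ℤ) ∣ 2 * N ∨ (q : ℤ) ∣ G.eval t := by
      rcases hqi.dvd_or_dvd hqd2 with h | h
      · rcases hqi.dvd_or_dvd h with h2 | h2
        · exact Or.inl h2
        · have h3 : (q : ℤ) ∣ G.eval t * f.eval t := by
            rw [← hNe]
            exact ((hqi.dvd_of_dvd_pow h2).mul_left _).mul_left _
          rcases hqi.dvd_or_dvd h3 with h4 | h4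
          · exact Or.inr h4
          · exact Or.inl (h4.mul_left _)
      · exact Or.inr h
    rcases hkey with h | h
    · left
      refine ⟨Nat.mem_primeFactors.2 ⟨hqp, Int.natCast_dvd.1 h, ?_⟩, hq.2⟩
      exact Int.natAbs_ne_zero.2 (mul_ne_zero two_ne_zero h0)
    · right
      exact Nat.mem_primeFactors.2 ⟨hqp, Int.natCast_dvd.1 h, Int.natAbs_ne_zero.2 hG0⟩
  have hcard : ((2 * α * β * (α - β)).natAbs.primeFactors.filter (fun q => ¬ q ∣ s)).card ≤
      (z + M * κ + (q2 z y N).primeFactors.card) + mm :=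
    (card_le_card hsub).trans ((card_union_le _ _).trans (Nat.add_le_add hc hmm))
  calc 4 ^ (((2 * α * β * (α - β)).natAbs.primeFactors.filter (fun q => ¬ q ∣ s)).card + 2)
      ≤ 4 ^ ((z + 2 + mm) + M * κ + (q2 z y N).primeFactors.card) :=
        Nat.pow_le_pow_right (by norm_num) (by omega)
    _ = _ := by
        rw [pow_add, pow_add]
        congr 2
        rw [← pow_mul]

end Pool.Agent.H27.PG
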