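import Mathlib
import Pool.Agent.H64.QM.U5
import Pool.Agent.H27.PG.G5
import Pool.Agent.H27.RU.Red

/-!
# The twists of one curve: integral version
-/

set_option autoImplicit false

namespace Pool.Agent.H27.PG

open Finset Pool.Agent.W262.RK Pool.Agent.W762.RK2 Polynomial
open Pool.Agent.H64.PM hiding gq gq_one
open Pool.Agent.H64.QM (sc ty3 sc_one cv_one eval_bound3 sc_not_dvd3)
open Pool.Agent.H27.RU (gq gq_ge_one gq_le)

/-- the local conditions do not depend on the twist -/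
lemma LcQ_indep {a b : ℤ} {p : ℕ} (ha : ¬ (p : ℤ) ∣ a) (hb : ¬ (p : ℤ) ∣ b)
    (hab : ¬ (p : ℤ) ∣ a - b) (D1 D2 : ℤ[X]) (τ : ℕ × Bool) :
    LcQ (C a) (C b) D1 p τ = LcQ (C a) (C b) D2 p τ := by
  unfold LcQ kpq
  simp only [← C_sub, eval_C]
  rw [if_neg ha, if_neg hb, if_neg hab, if_neg ha, if_neg hb, if_neg hab]

set_option maxHeartbeats 1000000 in
/-- the bound for the rank -/
lemma rankTw {m : ℕ} {a0 b0 : ℤ} {S : ℤ[X]} {J : Finset (Fin m)} {g : Fin m → ℤ[X]}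
    (ha0 : a0 ≠ 0) (hb0 : b0 ≠ 0) (hab0 : a0 - b0 ≠ 0) {z y X κ M mm : ℕ} {t : ℤ}
    (hfb : Smp (fT (C a0) (C b0) (gJ J g * S)) z) (hz2 : 2 ≤ z) (hy : 1 ≤ y) (hM1 : 1 ≤ M)
    (hffb : ∀ p : ℕ, p.Prime → z < p → ∀ t : ℤ, (p : ℤ) ∣ (fT (C a0) (C b0) S).eval t →
      ¬ (p : ℤ) ^ 2 ∣ (fT (C a0) (C b0) S).eval t →
      (p : ℤ) ∣ (fT (C a0) (C b0) (gJ J g * S)).eval t ∧
        ¬ (p : ℤ) ^ 2 ∣ (fT (C a0) (C b0) (gJ J g * S)).eval t)
    (hG0' : (gJ J g).eval t ≠ 0)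
    (hmm : ((gJ J g).eval t).natAbs.primeFactors.card ≤ mm) (h0 : (fT (C a0) (C b0) S).eval t ≠ 0)
    (hb : ((fT (C a0) (C b0) S).eval t).natAbs ≤ X ^ M) (hk : X < (y + 1) ^ κ) :
    2 ^ Module.finrank ℤ (EAB ((C a0 * (gJ J g * S)).eval t)
        ((C b0 * (gJ J g * S)).eval t)).toAffine.Point ≤
      4 ^ (z + 2 + mm) * (4 ^ M) ^ κ *
        4 ^ (q2 z y ((fT (C a0) (C b0) S).eval t)).primeFactors.card *
        NL (q1 z y ((fT (C a0) (C b0) S).eval t))
          (fun p => LcQ (C a0) (C b0) (gJ J g * S) p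
            (ty3 (fT (C a0) (C b0) (gJ J g * S)) 1 p t)) := by
  classical
  set G : ℤ := (gJ J g).eval t with hG
  have hG0 : G ≠ 0 := hG0'
  have hNe : (fT (C a0) (C b0) S).eval t = a0 * b0 * (a0 - b0) * S.eval t := by
    unfold fT
    simp only [eval_mul, eval_sub, eval_C]
  have hNbe : (fT (C a0) (C b0) (gJ J g * S)).eval t =
      a0 * b0 * (a0 - b0) * (G * S.eval t) := by
    unfold fT
    simp only [eval_mul, eval_sub, eval_C, hG]
  have hS0 : S.eval t ≠ 0 := by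
    rw [hNe] at h0
    exact right_ne_zero_of_mul h0
  have hNb0 : (fT (C a0) (C b0) (gJ J g * S)).eval t ≠ 0 := by
    rw [hNbe]
    exact mul_ne_zero (mul_ne_zero (mul_ne_zero ha0 hb0) hab0) (mul_ne_zero hG0 hS0)
  have hcv := cv_one (A := C a0) (B := C b0) (D := gJ J g * S) (z := z) t
  obtain ⟨hα0, hβ0, hαβ0⟩ := hcv.ne (by rw [sc_one]; exact hNb0)
  set α := (C a0 * (gJ J g * S)).eval t with hα
  set β := (C b0 * (gJ J g * S)).eval t with hβ
  have hαe : α = a0 * (G * S.eval t) := by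
    rw [hα, hG, eval_mul, eval_mul, eval_C]
  have hβe : β = b0 * (G * S.eval t) := by
    rw [hβ, hG, eval_mul, eval_mul, eval_C]
  set N := (fT (C a0) (C b0) S).eval t with hN
  set s := q1 z y N with hs
  have hmem : s ∈ (PP z y).divisors := q1_mem z y N
  have hodd : ∀ p : ℕ, p.Prime → p ∣ s → z < p ∧ p ≠ 2 := by
    intro p hp h
    have h1 := (dv_prime hmem hp h).1
    omega
  have hdd := Pool.Agent.W214.RK2.desc4 s
    (fun p => LcQ (C a0) (C b0) (gJ J g * S) p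
      (ty3 (fT (C a0) (C b0) (gJ J g * S)) 1 p t)) α β hα0 hβ0
    (fun h => hαβ0 (by rw [h, sub_self]))
    (by
      rw [← Nat.not_even_iff_odd, even_iff_two_dvd]
      intro h
      exact (hodd 2 Nat.prime_two h).2 rfl)
    (dv_squarefree hmem)
    (fun p hp hpd => XC_LcQ hfb hz2 hp (hodd p hp hpd).1 _)
    (fun p hp hpd x x' hx' hcurve e1 e2 he1 he2 hsq1 hsq2 => by
      have hpp : p.Prime := Fact.out
      have hjs := (q1_prime hpp).1 hpd
      have hzp := (hodd p hpp hpd).1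
      have hfb2 := hffb p hpp hzp t hjs.2.1 hjs.2.2
      exact Pool.Agent.W342.RK2.locl
        (clq (C a0) (C b0) p ((ty3 (fT (C a0) (C b0) (gJ J g * S)) 1 p t).1 : ℤ))
        (kpq (C a0) (C b0) (gJ J g * S) p
          ((ty3 (fT (C a0) (C b0) (gJ J g * S)) 1 p t).1 : ℤ))
        (ty3 (fT (C a0) (C b0) (gJ J g * S)) 1 p t).2 p _ _
        (hodd p hpp hpd).2 (kpq_ne hfb hpp hzp _)
        (hcv.lo p hpp hzp (fun h => hpp.one_lt.ne' (Nat.dvd_one.1 h)) (by rw [sc_one]; exact hfb2.1)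
          (by rw [sc_one]; exact hfb2.2)) x x' hx' hcurve e1 e2 he1 he2
        hsq1 hsq2)
  refine hdd.trans (Nat.mul_le_mul_right _ ?_)
  -- the bad primes
  set M1 : ℤ := a0 * b0 * (a0 - b0) * S.eval t with hM1d
  have hc := badQ (z := z) (y := y) (K := κ) (M := M1) hz2 hy hM1 h0 hb hk (fun q _ h => by
    rw [hNe]
    exact h)
  rw [← hs] at hc
  have hM10 : M1 ≠ 0 := by
    rw [← hNe]
    exact h0
  have hsub : ((2 * α * β * (α - β)).natAbs.primeFactors.filter (fun q => ¬ q ∣ s)) ⊆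
      ((2 * M1).natAbs.primeFactors.filter (fun q => ¬ q ∣ s)) ∪
        G.natAbs.primeFactors := by
    intro q hq
    rw [mem_filter] at hq
    have hqp := Nat.prime_of_mem_primeFactors hq.1
    have hqi : Prime (q : ℤ) := Nat.prime_iff_prime_int.1 hqp
    have hqd : (q : ℤ) ∣ 2 * α * β * (α - β) :=
      Int.natCast_dvd.2 (Nat.dvd_of_mem_primeFactors hq.1)
    have e1 : 2 * α * β * (α - β) = (2 * M1) * (S.eval t) ^ 2 * G ^ 3 := by
      rw [hαe, hβe, hM1d]
      ring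
    rw [e1] at hqd
    rw [mem_union, mem_filter]
    have hkey : (q : ℤ) ∣ 2 * M1 ∨ (q : ℤ) ∣ G := by
      rcases hqi.dvd_or_dvd hqd with h | h
      · rcases hqi.dvd_or_dvd h with h2 | h2
        · exact Or.inl h2
        · left
          have h3 := hqi.dvd_of_dvd_pow h2
          rw [hM1d]
          exact (h3.mul_left _).mul_left _
      · exact Or.inr (hqi.dvd_of_dvd_pow h)
    rcases hkey with h | h
    · left
      refine ⟨Nat.mem_primeFactors.2 ⟨hqp, Int.natCast_dvd.1 h, ?_⟩, hq.2⟩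
      exact Int.natAbs_ne_zero.2 (mul_ne_zero two_ne_zero hM10)
    · right
      exact Nat.mem_primeFactors.2 ⟨hqp, Int.natCast_dvd.1 h, Int.natAbs_ne_zero.2 hG0⟩
  have hcard : ((2 * α * β * (α - β)).natAbs.primeFactors.filter (fun q => ¬ q ∣ s)).card ≤
      (z + M * κ + (q2 z y N).primeFactors.card) + mm :=
    (card_le_card hsub).trans ((card_union_le _ _).trans (Nat.add_le_add hc hmm))
  calc 4 ^ (((2 * α * β * (α - β)).natAbs.primeFactors.filter (fun q => ¬ q ∣ s)).card + 2)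
      ≤ 4 ^ ((z + 2 + mm) + M * κ + (q2 z y N).primeFactors.card) :=
        Nat.pow_le_pow_right (by norm_num) (by omega)
    _ = _ := by
        rw [pow_add, pow_add]
        congr 2
        rw [← pow_mul]

end Pool.Agent.H27.PG
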