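import Mathlib
import Pool.Agent.H27.PG.G6

/-!
# The twists of one curve at prime tuples in progressions in short intervals: integral version
-/

set_option autoImplicit false

namespace Pool.Agent.H27.PG

open Finset Pool.Agent.W262.RK Pool.Agent.W762.RK2 Polynomial
open Pool.Agent.H64.PM hiding gq gq_one
open Pool.Agent.H64.QM (sc ty3 sc_one cv_one eval_bound3)
open Pool.Agent.H27.RU (gq gq_ge_one gq_le)

/-- an irreducible factor of positive degree -/
lemma exists_irr (D : ℤ[X]) (hD0 : D ≠ 0) (hd : 0 < D.natDegree) :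
    ∃ h : ℤ[X], Irreducible h ∧ 0 < h.natDegree ∧ h ∣ D := by
  by_contra hcon
  push Not at hcon
  have key : ∀ g : ℤ[X], g ≠ 0 → g ∣ D → g.natDegree = 0 := by
    intro g
    refine WfDvdMonoid.induction_on_irreducible (motive := fun g => g ≠ 0 → g ∣ D →
      g.natDegree = 0) g ?_ ?_ ?_
    · intro h0
      exact absurd rfl h0
    · intro u hu _ _
      exact natDegree_eq_zero_of_isUnit hu
    · intro g i hg0 hi ih _ hd
      have h1 : i ∣ D := (Dvd.intro _ rfl).trans hd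
      have h2 : g ∣ D := (Dvd.intro_left _ rfl).trans hd
      have h3 : i.natDegree = 0 := by
        by_contra h4
        exact hcon i hi (Nat.pos_of_ne_zero h4) h1
      rw [natDegree_mul hi.ne_zero hg0, h3, ih hg0 h2]
  have := key D hD0 (dvd_refl D)
  omega

lemma fT_const (a0 b0 : ℤ) (D : ℤ[X]) : fT (C a0) (C b0) D = C (a0 * b0 * (a0 - b0)) * D := by
  unfold fT
  simp only [C_mul, C_sub]

lemma sqf_const {c : ℤ} (hc : c ≠ 0) {D : ℤ[X]}
    (hD : Squarefree (D.map (Int.castRingHom ℚ))) :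
    Squarefree ((C c * D).map (Int.castRingHom ℚ)) := by
  rw [Polynomial.map_mul, Polynomial.map_C]
  have hu : IsUnit (C ((Int.castRingHom ℚ) c)) := by
    rw [isUnit_C, isUnit_iff_ne_zero]
    have h1 : (c : ℚ) ≠ 0 := by exact_mod_cast hc
    exact h1
  have hass : Associated (D.map (Int.castRingHom ℚ))
      (C ((Int.castRingHom ℚ) c) * D.map (Int.castRingHom ℚ)) :=
    (associated_isUnit_mul_left_iff hu).2 (Associated.refl _) |>.symm
  exact hass.squarefree_iff.1 hD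

/-- from the local factors to the powers of `q / φ(q)` -/
lemma gq_two (n m : ℕ) : ∃ C : ℝ, 0 ≤ C ∧ ∀ z q : ℕ, 2 * (n + m) + 2 ≤ z → 1 ≤ q →
    gq z n q * gq z m q ≤ C * ((q : ℝ) / (q.totient : ℝ)) ^ (n + m) := by
  obtain ⟨C1, hC1, h1⟩ := gq_le n
  obtain ⟨C2, hC2, h2⟩ := gq_le m
  refine ⟨C1 * C2, by positivity, fun z q hz hq => ?_⟩
  have e1 := h1 z q (by omega) hq
  have e2 := h2 z q (by omega) hq
  have g1 : 1 ≤ gq z n q := gq_ge_one (by omega)
  have g2 : 1 ≤ gq z m q := gq_ge_one (by omega)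
  calc gq z n q * gq z m q ≤ (C1 * ((q : ℝ) / (q.totient : ℝ)) ^ n) *
        (C2 * ((q : ℝ) / (q.totient : ℝ)) ^ m) :=
        mul_le_mul e1 e2 (by linarith) (by positivity)
    _ = _ := by
        rw [pow_add]
        ring

/-- the average for a constant polynomial -/
lemma avg_const (k : ℕ) (c : ℤ) (hc : c ≠ 0) (Lc : LCt) (z : ℕ) (hz : c.natAbs ≤ z) :
    ∃ C' : ℝ, ∀ y, z < y → ∑ s ∈ (PP z y).divisors,
      Gs (PhG k (TyF (C c)) (Wt2 (C c)) Lc) s ≤
      C' * Lam (fun p => (rho (C c) p : ℝ) / p) z y := by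
  classical
  refine ⟨((NL 1 (fun p => Lc p (0, false)) : ℕ) : ℝ) ^ k, fun y hy => ?_⟩
  have hnd : ∀ p : ℕ, p.Prime → z < p → ¬ (p : ℤ) ∣ c := by
    intro p _ hzp h1
    have := Nat.le_of_dvd (Int.natAbs_pos.2 hc) (Int.natCast_dvd.1 h1)
    omega
  have hT : ∀ p : ℕ, p.Prime → z < p → TyF (C c) p = ∅ := by
    intro p hp hzp
    unfold TyF Zr
    rw [product_eq_empty]
    left
    rw [filter_eq_empty_iff]
    intro x _
    rw [eval_C]
    exact hnd p hp hzp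
  have h1 : ∀ s ∈ (PP z y).divisors, s ≠ 1 → Gs (PhG k (TyF (C c)) (Wt2 (C c)) Lc) s = 0 := by
    intro s hs hs1
    rw [Gs_eq hs]
    obtain ⟨p, hp, hps⟩ := Nat.exists_prime_and_dvd hs1
    have hzp := dv_prime hs hp hps
    have hPS : p ∈ PS z y := mem_PS.2 ⟨hzp, hp⟩
    have h2 : CH (TyF (C c)) z y s = ∅ := by
      unfold CH
      rw [eq_empty_iff_forall_notMem]
      intro ε hε
      have h3 := (Fintype.mem_piFinset.1 hε) ⟨p, hPS⟩
      rw [if_pos hps] at h3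
      have h4 : ε ⟨p, hPS⟩ ∈ TyF (C c) p := h3
      rw [hT p hp hzp.1] at h4
      exact notMem_empty _ h4
    rw [h2, sum_empty]
  have h2 : ∑ s ∈ (PP z y).divisors, Gs (PhG k (TyF (C c)) (Wt2 (C c)) Lc) s =
      Gs (PhG k (TyF (C c)) (Wt2 (C c)) Lc) 1 := by
    refine sum_eq_single 1 h1 fun h => ?_
    exact absurd (one_mem_dv z y) h
  have h3 : (CH (TyF (C c)) z y 1).card = 1 := by
    unfold CH
    rw [Fintype.card_piFinset]
    refine prod_eq_one fun p _ => ?_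
    rw [if_neg, card_singleton]
    intro h
    exact (mem_PS.1 p.2).2.one_lt.ne' (Nat.dvd_one.1 h)
  have h4 : Gs (PhG k (TyF (C c)) (Wt2 (C c)) Lc) 1 =
      ((NL 1 (fun p => Lc p (0, false)) : ℕ) : ℝ) ^ k := by
    rw [Gs_eq (one_mem_dv z y)]
    have h5 : ∀ ε ∈ CH (TyF (C c)) z y 1, (∏ p ∈ (1 : ℕ).primeFactors, Wt2 (C c) p) *
        (NL 1 (fun p => Lc p (exq ε p)) : ℝ) ^ k =
        ((NL 1 (fun p => Lc p (0, false)) : ℕ) : ℝ) ^ k := by
      intro ε _
      rw [Nat.primeFactors_one, prod_empty, one_mul]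
      congr 2
      refine Pool.Agent.W125.RK2.NL_congr fun p hp => ?_
      simp at hp
    rw [sum_congr rfl h5, sum_const, h3, one_smul]
  rw [h2, h4]
  refine le_mul_of_one_le_right (by positivity) ?_
  unfold Lam
  exact Real.one_le_exp (sum_nonneg fun p _ => by positivity)

/-- the average for the twists -/
lemma avg_tw (k : ℕ) (a0 b0 : ℤ) (ha0 : a0 ≠ 0) (hb0 : b0 ≠ 0) (hab0 : a0 - b0 ≠ 0) (S : ℤ[X])
    (hS0 : S ≠ 0) (n z2 : ℕ) (hn : 1 ≤ n)
    (hρ : ∀ p : ℕ, p.Prime → z2 < p → rho (fT (C a0) (C b0) S) p ≤ n) :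
    ∃ z0 : ℕ, ∀ z, z0 ≤ z → ∃ C' : ℝ, ∀ y, z < y → ∑ s ∈ (PP z y).divisors,
      Gs (PhG k (TyF (fT (C a0) (C b0) S)) (Wt2 (fT (C a0) (C b0) S))
        (LcQ (C a0) (C b0) S)) s ≤
      C' * Lam (fun p => (rho (fT (C a0) (C b0) S) p : ℝ) / p) z y := by
  rcases Nat.eq_zero_or_pos S.natDegree with hd | hd
  · obtain ⟨s, hs⟩ : ∃ s : ℤ, S = C s := ⟨_, eq_C_of_natDegree_eq_zero hd⟩
    have hs0 : s ≠ 0 := by
      rintro rfl
      exact hS0 (by rw [hs, C_0])
    have hK0 : a0 * b0 * (a0 - b0) * s ≠ 0 :=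
      mul_ne_zero (mul_ne_zero (mul_ne_zero ha0 hb0) hab0) hs0
    have hf : fT (C a0) (C b0) S = C (a0 * b0 * (a0 - b0) * s) := by
      rw [fT_const, hs, ← C_mul]
    refine ⟨(a0 * b0 * (a0 - b0) * s).natAbs, fun z hz => ?_⟩
    rw [hf]
    exact avg_const k _ hK0 _ z hz
  · obtain ⟨h, hh, hhd, hhD⟩ := exists_irr S hS0 hd
    exact avg_pm k a0 b0 ha0 hb0 hab0 S n hn z2 hρ h hh hhd hhD

/-- the number of the prime factors of the product -/
lemma gJ_card {m : ℕ} {g : Fin m → ℤ[X]} {L X M : ℕ} (hX : 2 ≤ X) {t : ℤ}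
    (h : ∀ j, Rg L X ((g j).eval t)) (hv : ∀ j, ((g j).eval t).natAbs ≤ X ^ M)
    (J : Finset (Fin m)) : (gJ J g).eval t ≠ 0 ∧
      ((gJ J g).eval t).natAbs.primeFactors.card ≤ m * (M * L + 1) := by
  classical
  rw [gJ_eval]
  refine ⟨prod_ne_zero_iff.2 fun j _ => (h j).1, ?_⟩
  have h1 : (∏ j ∈ J, (g j).eval t).natAbs.primeFactors ⊆
      univ.biUnion (fun j => ((g j).eval t).natAbs.primeFactors) := by
    intro q hq
    have hqp := Nat.prime_of_mem_primeFactors hq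
    have hqi : Prime (q : ℤ) := Nat.prime_iff_prime_int.1 hqp
    have hqd : (q : ℤ) ∣ ∏ j ∈ J, (g j).eval t :=
      Int.natCast_dvd.2 (Nat.dvd_of_mem_primeFactors hq)
    obtain ⟨j, _, hj⟩ := (hqi.dvd_finsetProd_iff _).1 hqd
    exact mem_biUnion.2 ⟨j, mem_univ _, Nat.mem_primeFactors.2
      ⟨hqp, Int.natCast_dvd.1 hj, Int.natAbs_ne_zero.2 (h j).1⟩⟩
  refine (card_le_card h1).trans (card_biUnion_le.trans ?_)
  refine (sum_le_sum fun j _ => omega_Rg hX (h j) (hv j)).trans ?_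
  rw [sum_const, card_univ, Fintype.card_fin, smul_eq_mul]

/-- the function that is summed -/
noncomputable def Rt (k : ℕ) (a0 b0 : ℤ) (S : ℤ[X]) {m : ℕ} (J : Finset (Fin m))
    (g : Fin m → ℤ[X]) (t : ℤ) : ℝ :=
  if S.eval t ≠ 0 then ((2 : ℝ) ^ Module.finrank ℤ
    (EAB ((C a0 * (gJ J g * S)).eval t)
      ((C b0 * (gJ J g * S)).eval t)).toAffine.Point) ^ k else 0

set_option maxHeartbeats 1000000 in
/-- the sum for the twists: integral version -/
theorem tw_int (k : ℕ) (a0 b0 : ℤ) (ha0 : a0 ≠ 0) (hb0 : b0 ≠ 0) (hab0 : a0 - b0 ≠ 0) (S : ℤ[X])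
    (hS0 : S ≠ 0) {m : ℕ} (g : Fin m → ℤ[X])
    (hirr : ∀ j, Irreducible ((g j).map (Int.castRingHom ℚ)))
    (hna : ∀ i j, i ≠ j → ¬ Associated ((g i).map (Int.castRingHom ℚ))
      ((g j).map (Int.castRingHom ℚ))) (J : Finset (Fin m))
    (hsq : Squarefree ((gJ J g * S).map (Int.castRingHom ℚ)))
    (hSa : ∀ j, ¬ (g j).map (Int.castRingHom ℚ) ∣ S.map (Int.castRingHom ℚ))
    (L zz : ℕ) (θ : ℝ) (hθ : 0 < θ) :
    ∃ z : ℕ, zz ≤ z ∧ ∃ C : ℝ, 0 ≤ C ∧ ∀ (q : ℕ) (r A : ℤ) (H : ℕ), 1 ≤ q → 2 ≤ H →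
      (∀ p : ℕ, p.Prime → z < p → p ∣ q → ¬ (p : ℤ) ∣ S.eval r) →
      (((|A| : ℤ) : ℝ) + H) ^ θ ≤ (H : ℝ) / q →
      ∑ t ∈ (Ioc A (A + H)).filter (fun t : ℤ => t ≡ r [ZMOD q] ∧
        ∀ j, Rg L H ((g j).eval t)),
        Rt k a0 b0 S J g t ≤
        C * ((H : ℝ) / q) * ((q : ℝ) / (q.totient : ℝ)) ^ (S.natDegree + ∑ j, (g j).natDegree) /
          (Real.log H) ^ m := by
  classical
  set K : ℤ := a0 * b0 * (a0 - b0) with hK
  have hK0 : K ≠ 0 := mul_ne_zero (mul_ne_zero ha0 hb0) hab0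
  obtain ⟨f, hfd⟩ : ∃ f, f = fT (C a0) (C b0) S := ⟨_, rfl⟩
  obtain ⟨fb, hfbd⟩ : ∃ fb, fb = fT (C a0) (C b0) (gJ J g * S) := ⟨_, rfl⟩
  have hfe : f = C K * S := by rw [hfd, fT_const]
  have hfbe : fb = C K * (gJ J g * S) := by rw [hfbd, fT_const]
  have hf0 : f ≠ 0 := by
    rw [hfe]
    exact mul_ne_zero (C_ne_zero.2 hK0) hS0
  have hsqb : Squarefree (fb.map (Int.castRingHom ℚ)) := by
    rw [hfbe]
    exact sqf_const hK0 hsq
  have hsqf : Squarefree (f.map (Int.castRingHom ℚ)) := by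
    refine hsqb.squarefree_of_dvd ?_
    rw [hfe, hfbe, Polynomial.map_mul, Polynomial.map_mul, Polynomial.map_mul]
    exact mul_dvd_mul_left _ (Dvd.intro_left _ rfl)
  have hdeg : f.natDegree = S.natDegree := by
    rw [hfe, natDegree_C_mul hK0]
  obtain ⟨n', hn'⟩ : ∃ n', n' = S.natDegree := ⟨_, rfl⟩
  obtain ⟨n, hn⟩ : ∃ n, n = n' + 1 := ⟨_, rfl⟩
  obtain ⟨zb, hzb⟩ := smp_of fb hsqb
  obtain ⟨z1, hz1⟩ := smp_of f hsqf
  obtain ⟨z2, hz2⟩ := Pool.Agent.H474R2.PG.rho_le f hf0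
  have hρ : ∀ p : ℕ, p.Prime → z2 < p → rho f p ≤ n' := fun p hp hzp => by
    rw [hn', ← hdeg]
    exact hz2 p hp hzp
  obtain ⟨z3, hz3⟩ := avg_tw k a0 b0 ha0 hb0 hab0 S hS0 n z2 (by omega) (by
    rw [← hfd]
    intro p hp hzp
    have := hρ p hp hzp
    omega)
  obtain ⟨e, he⟩ : ∃ e, e = ∑ j, (g j).natDegree := ⟨_, rfl⟩
  have hfa : ∀ j, ¬ (g j).map (Int.castRingHom ℚ) ∣ f.map (Int.castRingHom ℚ) := by
    intro j hj
    rw [hfe, Polynomial.map_mul, Polynomial.map_C] at hj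
    have hu : IsUnit (C ((Int.castRingHom ℚ) K)) := by
      rw [isUnit_C, isUnit_iff_ne_zero]
      have h1 : (K : ℚ) ≠ 0 := by exact_mod_cast hK0
      exact h1
    exact hSa j ((hu.dvd_mul_left).1 hj)
  have hgd : ∀ j, 0 < (g j).natDegree := by
    intro j
    have h1 := (hirr j).natDegree_pos
    rwa [natDegree_map_eq_of_injective (RingHom.injective_int (Int.castRingHom ℚ))] at h1
  obtain ⟨z4, hz4⟩ := facts f g (sqf_prod f hsqf g hirr hna hfa)
  set z := zz + zb + z1 + z2 + z3 + z4 + (2 * (n + e) + 2) + K.natAbs + a0.natAbs + b0.natAbs +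
    (a0 - b0).natAbs with hz
  have hnd : ∀ c : ℤ, c ≠ 0 → c.natAbs ≤ z → ∀ p : ℕ, p.Prime → z < p → ¬ (p : ℤ) ∣ c := by
    intro c hc hcz p _ hzp h1
    have := Nat.le_of_dvd (Int.natAbs_pos.2 hc) (Int.natCast_dvd.1 h1)
    omega
  have hnm : 2 * (n + e) + 2 ≤ z := by omega
  have hn1 : 1 ≤ n := by omega
  have hsm : Smp f z := fun p hp hzp => hz1 p hp (by omega)
  have hsmb : Smp fb z := fun p hp hzp => hzb p hp (by omega)
  obtain ⟨C', hC'⟩ := hz3 z (by omega)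
  have hffb : ∀ p : ℕ, p.Prime → z < p → ∀ t : ℤ, (p : ℤ) ∣ f.eval t → ¬ (p : ℤ) ^ 2 ∣ f.eval t →
      (p : ℤ) ∣ fb.eval t ∧ ¬ (p : ℤ) ^ 2 ∣ fb.eval t := by
    intro p hp hzp t h1 h2
    have hpi : Prime (p : ℤ) := Nat.prime_iff_prime_int.1 hp
    have e1 : fb.eval t = (gJ J g).eval t * f.eval t := by
      rw [hfe, hfbe, eval_mul, eval_mul, eval_mul]
      ring
    have h3 : ¬ (p : ℤ) ∣ (gJ J g).eval t := by
      intro h4
      rw [gJ_eval] at h4
      obtain ⟨j, _, hj⟩ := (hpi.dvd_finsetProd_iff _).1 h4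
      exact (hz4 p hp (by omega)).2.2.2 j t hj h1
    rw [e1]
    exact ⟨h1.mul_left _, fun h4 => h2 (hpi.pow_dvd_of_dvd_mul_left 2 h3 h4)⟩
  -- the averages
  have havg : ∀ y, z < y → ∑ s ∈ (PP z y).divisors,
      Gs (PhG k (TyF f) (Wt2 f) (LcQ (C a0) (C b0) (gJ J g * S))) s ≤
      C' * Lam (fun p => (rho f p : ℝ) / p) z y := by
    intro y hy
    have h1 := hC' y hy
    rw [← hfd] at h1
    refine le_trans (le_of_eq (sum_congr rfl fun s hs => ?_)) h1
    rw [Gs_eq hs, Gs_eq hs]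
    refine sum_congr rfl fun ε _ => ?_
    congr 2
    norm_cast
    refine Pool.Agent.W125.RK2.NL_congr fun p hp => ?_
    have hpp := Nat.prime_of_mem_primeFactors hp
    have hzp := (dv_prime hs hpp (Nat.dvd_of_mem_primeFactors hp)).1
    exact LcQ_indep (hnd a0 ha0 (by omega) p hpp hzp) (hnd b0 hb0 (by omega) p hpp hzp)
      (hnd _ hab0 (by omega) p hpp hzp) _ _ _
  obtain ⟨Cm, hCm, hM⟩ := prod_mertG g hirr (∏ j, g j) z
    (fun p hp hzp => (hz4 p hp (by omega)).2.2.1)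
    (fun p hp hzp => by
      have h1 := (hz4 p hp (by omega)).2.1
      rw [← he] at h1
      omega) (by omega)
  obtain ⟨R, hRd⟩ : ∃ R : ℤ → ℝ, R = Rt k a0 b0 S J g := ⟨_, rfl⟩
  have hR : ∀ t, 0 ≤ R t := by
    intro t
    rw [hRd]
    unfold Rt
    split_ifs
    · positivity
    · exact le_rfl
  have hfS : ∀ t, f.eval t = K * S.eval t := fun t => by rw [hfe, eval_mul, eval_C]
  have hR0 : ∀ t, f.eval t = 0 → R t = 0 := by
    intro t ht
    rw [hfS] at ht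
    have h1 := (mul_eq_zero.1 ht).resolve_left hK0
    rw [hRd]
    unfold Rt
    rw [if_neg (not_not.2 h1)]
  set csum := ∑ i ∈ range (f.natDegree + 1), (f.coeff i).natAbs with hcsum
  set gsum := ∑ j, ∑ i ∈ range ((g j).natDegree + 1), ((g j).coeff i).natAbs with hgsum
  have hgle : ∀ j, (g j).natDegree ≤ e := fun j => by
    rw [he]
    exact single_le_sum (f := fun j => (g j).natDegree) (fun _ _ => Nat.zero_le _) (mem_univ j)
  have hgsl : ∀ j, ∑ i ∈ range ((g j).natDegree + 1), ((g j).coeff i).natAbs ≤ gsum := fun j =>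
    single_le_sum (f := fun j => ∑ i ∈ range ((g j).natDegree + 1), ((g j).coeff i).natAbs)
      (fun _ _ => Nat.zero_le _) (mem_univ j)
  have hmain := fun κ0 : ℕ => mainX k f fb (LcQ (C a0) (C b0) (gJ J g * S)) n n' m e L z hnm hn1
    (by omega)
    (fun p hp hzp => hρ p hp (by omega)) hsm hsmb hffb
    (fun p hp hzp τ => XC_LcQ (by rw [← hfbd]; exact hsmb) (by omega) hp hzp τ) g hgd he.ge
    (fun p hp hzp => (hz4 p hp (by omega)).1)
    (fun p hp hzp => by rw [he]; exact (hz4 p hp (by omega)).2.1) Cm hCm hM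
    C' havg κ0 (κ0 * f.natDegree + 1)
    (4 ^ (z + 2 + m * ((κ0 * e + 1) * L + 1))) (csum + gsum + 2) R hR hR0 (by
      intro t X y κ hy hX htb hXk hpr ht0
      have hb := eval_bound3 f X κ0 1 t htb (Nat.one_le_pow _ _ (by omega)) (by omega)
      rw [sc_one] at hb
      have hgb : ∀ j, ((g j).eval t).natAbs ≤ X ^ (κ0 * e + 1) := by
        intro j
        have h2 := hgsl j
        have h3 := eval_bound3 (g j) X κ0 1 t htb (Nat.one_le_pow _ _ (by omega)) (by omega)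
        rw [sc_one] at h3
        refine h3.trans (Nat.pow_le_pow_right (by omega) ?_)
        exact Nat.add_le_add_right (Nat.mul_le_mul_left _ (hgle j)) _
      obtain ⟨hG0, hGc⟩ := gJ_card (by omega) hpr hgb J
      have h1 := rankTw (S := S) (J := J) (g := g) (t := t) ha0 hb0 hab0 (z := z) (y := y)
        (X := X) (κ := κ) (mm := m * ((κ0 * e + 1) * L + 1))
        (M := κ0 * f.natDegree + 1) (by rw [← hfbd]; exact hsmb) (by omega) hy (by omega)
        (by rw [← hfd, ← hfbd]; exact hffb) hG0 hGc (by rw [← hfd]; exact ht0)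
        (by rw [← hfd]; exact hb) hXk
      rw [← hfd, ← hfbd] at h1
      have h2 : S.eval t ≠ 0 := by
        rw [hfS] at ht0
        exact right_ne_zero_of_mul ht0
      rw [hRd]
      unfold Rt
      rw [if_pos h2]
      refine pow_le_pow_left₀ (by positivity) ?_ k
      exact_mod_cast h1)
  obtain ⟨C1, hC1, hs⟩ := shortP f g L z n' e (by omega) (by omega) R hR hmain θ hθ
  obtain ⟨C2, hC2, hg⟩ := gq_two n' e
  refine ⟨z, by omega, C1 * C2, by positivity, fun q r A H hq hH hcop hsz => ?_⟩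
  have h1 := hs q r A H hq hH (by
    intro p hp hzp hpq hdv
    have hpi : Prime (p : ℤ) := Nat.prime_iff_prime_int.1 hp
    rw [hfS] at hdv
    rcases hpi.dvd_or_dvd hdv with h2 | h2
    · exact hnd K hK0 (by omega) p hp hzp h2
    · exact hcop p hp hzp hpq h2) hsz
  rw [hRd] at h1
  refine h1.trans ?_
  have hHr : (2 : ℝ) ≤ H := by exact_mod_cast hH
  have hlH : 0 < Real.log H := Real.log_pos (by linarith)
  calc C1 * ((H : ℝ) / q) * (gq z n' q * gq z e q) / (Real.log H) ^ m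
      ≤ C1 * ((H : ℝ) / q) * (C2 * ((q : ℝ) / (q.totient : ℝ)) ^ (n' + e)) / (Real.log H) ^ m := by
        refine div_le_div_of_nonneg_right ?_ (by positivity)
        exact mul_le_mul_of_nonneg_left (hg z q (by omega) hq) (by positivity)
    _ = _ := by
        rw [hn', he]
        ring

end Pool.Agent.H27.PG
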