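import Mathlib
import Pool.Agent.H64.PM.FMF
import Pool.Agent.H27.PG.G7
import Pool.Agent.H27.PG.B2

/-!
# General families at almost prime values: integral version
-/

set_option autoImplicit false

namespace Pool.Agent.H27.PG

open Finset Pool.Agent.W262.RK Pool.Agent.W762.RK2 Polynomial UniqueFactorizationMonoid
open Pool.Agent.H64.PM hiding gq gq_one
open Pool.Agent.H64.QM (sc ty3 sc_one cv_one eval_bound3)
open Pool.Agent.H27.RU (gq gq_ge_one gq_le)

open scoped Classical in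
/-- the number of the irreducible factors of `P` that do not divide a `g j` -/
noncomputable def nfg {m : ℕ} (g : Fin m → ℤ[X]) (P : ℤ[X]) : ℕ :=
  Multiset.card ((normalizedFactors (P.map (Int.castRingHom ℚ))).filter
    (fun h => ∀ j, ¬ h ∣ (g j).map (Int.castRingHom ℚ)))

/-- clearing the denominators -/
lemma hclearB (q : ℚ[X]) : ∃ (N : ℤ) (Q : ℤ[X]), N ≠ 0 ∧
    Q.map (Int.castRingHom ℚ) = C (N : ℚ) * q := by
  obtain ⟨b, hbM, hb⟩ := IsLocalization.integerNormalization_spec (nonZeroDivisors ℤ) q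
  refine ⟨b, IsLocalization.integerNormalization (nonZeroDivisors ℤ) q,
    nonZeroDivisors.ne_zero hbM, ?_⟩
  have h1 : (algebraMap ℤ ℚ) = Int.castRingHom ℚ := rfl
  rw [← h1, hb]
  ext i
  simp

/-- the decomposition of one factor -/
lemma decomp1 (Q : ℤ[X]) (hQ : Squarefree (Q.map (Int.castRingHom ℚ))) {m : ℕ} (g : Fin m → ℤ[X])
    (hirr : ∀ j, Irreducible ((g j).map (Int.castRingHom ℚ)))
    (hna : ∀ i j, i ≠ j → ¬ Associated ((g i).map (Int.castRingHom ℚ))
      ((g j).map (Int.castRingHom ℚ))) :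
    ∃ (J : Finset (Fin m)) (S : ℤ[X]) (N : ℤ), N ≠ 0 ∧ C N * Q = gJ J g * S ∧
      (∀ j, ¬ (g j).map (Int.castRingHom ℚ) ∣ S.map (Int.castRingHom ℚ)) ∧ nf S = nfg g Q := by
  classical
  set s : ℚ[X] := Q.map (Int.castRingHom ℚ) with hs
  have hs0 : s ≠ 0 := hQ.ne_zero
  set J : Finset (Fin m) := univ.filter (fun j => (g j).map (Int.castRingHom ℚ) ∣ s) with hJ
  have hdvd : (∏ j ∈ J, (g j).map (Int.castRingHom ℚ)) ∣ s := by
    refine Finset.prod_dvd_of_coprime (fun i _ j _ hij => ?_) fun j hj => (mem_filter.1 hj).2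
    exact coprime_of hirr hna hij
  obtain ⟨s', hs'⟩ := hdvd
  have hs'0 : s' ≠ 0 := by
    rintro rfl
    rw [mul_zero] at hs'
    exact hs0 hs'
  have hp0 : (∏ j ∈ J, (g j).map (Int.castRingHom ℚ)) ≠ 0 := by
    intro h
    rw [h, zero_mul] at hs'
    exact hs0 hs'
  have hs'ρ : ∀ j, ¬ (g j).map (Int.castRingHom ℚ) ∣ s' := by
    intro j hj
    have hjJ : j ∈ J := by
      refine mem_filter.2 ⟨mem_univ _, ?_⟩
      rw [hs']
      exact hj.mul_left _
    have h3 : (g j).map (Int.castRingHom ℚ) ∣ ∏ j ∈ J, (g j).map (Int.castRingHom ℚ) :=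
      dvd_prod_of_mem (fun j => (g j).map (Int.castRingHom ℚ)) hjJ
    have h4 : (g j).map (Int.castRingHom ℚ) * (g j).map (Int.castRingHom ℚ) ∣ s := by
      rw [hs']
      exact mul_dvd_mul h3 hj
    exact (hirr j).not_isUnit (hQ _ h4)
  obtain ⟨N, S, hN, hSm⟩ := hclearB s'
  have hNq : (N : ℚ) ≠ 0 := by exact_mod_cast hN
  have hu : IsUnit (C (N : ℚ)) := by
    rw [isUnit_C, isUnit_iff_ne_zero]
    exact hNq
  refine ⟨J, S, N, hN, ?_, ?_, ?_⟩
  · apply Polynomial.map_injective (Int.castRingHom ℚ) Int.cast_injective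
    unfold gJ
    rw [Polynomial.map_mul, Polynomial.map_mul, Polynomial.map_prod, map_C, hSm, ← hs]
    have h1 : (Int.castRingHom ℚ) N = (N : ℚ) := rfl
    rw [h1]
    calc C (N : ℚ) * s = C (N : ℚ) * ((∏ j ∈ J, (g j).map (Int.castRingHom ℚ)) * s') := by
          rw [← hs']
      _ = _ := by ring
  · intro j hj
    rw [hSm] at hj
    exact hs'ρ j ((hu.dvd_mul_left).1 hj)
  · unfold nf nfg
    rw [← hs, hSm, normalizedFactors_mul hu.ne_zero hs'0, normalizedFactors_of_isUnit hu, zero_add]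
    have h1 : normalizedFactors s = normalizedFactors (∏ j ∈ J, (g j).map (Int.castRingHom ℚ)) +
        normalizedFactors s' := by
      rw [← normalizedFactors_mul hp0 hs'0, ← hs']
    rw [h1, Multiset.filter_add]
    have h2 : (normalizedFactors (∏ j ∈ J, (g j).map (Int.castRingHom ℚ))).filter
        (fun h => ∀ j, ¬ h ∣ (g j).map (Int.castRingHom ℚ)) = 0 := by
      rw [Multiset.filter_eq_nil]
      intro h hh hcon
      have h3 := prime_of_normalized_factor h hh
      have h4 := dvd_of_mem_normalizedFactors hh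
      obtain ⟨j, _, hj⟩ := (h3.dvd_finsetProd_iff _).1 h4
      exact hcon j hj
    have h3 : (normalizedFactors s').filter
        (fun h => ∀ j, ¬ h ∣ (g j).map (Int.castRingHom ℚ)) = normalizedFactors s' := by
      rw [Multiset.filter_eq_self]
      intro h hh j hj
      have h4 := irreducible_of_normalized_factor h hh
      have h5 := dvd_of_mem_normalizedFactors hh
      exact hs'ρ j ((h4.associated_of_dvd (hirr j) hj).symm.dvd.trans h5)
    rw [h2, h3, zero_add]

lemma prod_Fc (A B D : ℤ[X]) : ∏ c, Fc A B D c = fT A B D := by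
  rw [Fin.prod_univ_four]
  unfold Fc fT
  rw [if_pos rfl, if_neg (by decide), if_pos rfl, if_neg (by decide), if_neg (by decide),
    if_pos rfl, if_neg (by decide), if_neg (by decide), if_neg (by decide)]

/-- the number of the prime factors -/
lemma gC_card {m : ℕ} {g : Fin m → ℤ[X]} {L X M : ℕ} (hX : 2 ≤ X) {t : ℤ}
    (h : ∀ j, Rg L X ((g j).eval t)) (hv : ∀ j, ((g j).eval t).natAbs ≤ X ^ M) {G : ℤ}
    (hG : ∀ q : ℕ, q.Prime → (q : ℤ) ∣ G → ∃ j, (q : ℤ) ∣ (g j).eval t) :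
    G.natAbs.primeFactors.card ≤ m * (M * L + 1) := by
  classical
  have h1 : G.natAbs.primeFactors ⊆
      univ.biUnion (fun j => ((g j).eval t).natAbs.primeFactors) := by
    intro q hq
    have hqp := Nat.prime_of_mem_primeFactors hq
    obtain ⟨j, hj⟩ := hG q hqp (Int.natCast_dvd.2 (Nat.dvd_of_mem_primeFactors hq))
    exact mem_biUnion.2 ⟨j, mem_univ _, Nat.mem_primeFactors.2
      ⟨hqp, Int.natCast_dvd.1 hj, Int.natAbs_ne_zero.2 (h j).1⟩⟩
  refine (card_le_card h1).trans (card_biUnion_le.trans ?_)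
  refine (sum_le_sum fun j _ => omega_Rg hX (h j) (hv j)).trans ?_
  rw [sum_const, card_univ, Fintype.card_fin, smul_eq_mul]

/-- the classes of the roots -/
lemma rc_eq {A B D f : ℤ[X]} {S E : Fin 4 → ℤ[X]} {N : Fin 4 → ℤ} (hf : f = ∏ c, S c)
    (hN : ∀ c, C (N c) * Fc A B D c = E c * S c) {z p : ℕ} (hfb : Smp (fT A B D) z)
    (hp : p.Prime) (hz : z < p) (hNp : ∀ c, ¬ (p : ℤ) ∣ N c) (c : Fin 4) :
    rc A B f c p = rho (S c) p := by
  classical
  have hpi : Prime (p : ℤ) := Nat.prime_iff_prime_int.1 hp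
  have hkey : ∀ c : Fin 4, ∀ x : ℤ, (p : ℤ) ∣ (S c).eval x → (p : ℤ) ∣ (Fc A B D c).eval x := by
    intro c x h
    have h1 : N c * (Fc A B D c).eval x = (E c).eval x * (S c).eval x := by
      rw [← eval_mul, ← hN, eval_mul, eval_C]
    have h2 : (p : ℤ) ∣ N c * (Fc A B D c).eval x := by
      rw [h1]
      exact h.mul_left _
    exact (hpi.dvd_or_dvd h2).resolve_left (hNp c)
  have hcl : ∀ c : Fin 4, ∀ x : ℕ, x < p → (p : ℤ) ∣ (S c).eval (x : ℤ) →
      clq A B p (x : ℤ) = c := by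
    intro c x hx h
    have h1 : x ∈ Zr (Fc A B D c) p := by
      unfold Zr
      rw [mem_filter, mem_range]
      exact ⟨hx, hkey c x h⟩
    rw [← Zr_class hfb hp hz c, mem_filter] at h1
    exact h1.2
  unfold rc rho
  congr 1
  ext x
  unfold Zr
  rw [mem_filter, mem_filter, mem_filter, mem_range]
  constructor
  · rintro ⟨⟨h1, h2⟩, h3⟩
    refine ⟨h1, ?_⟩
    rw [hf, eval_prod] at h2
    obtain ⟨c', _, hc'⟩ := (hpi.dvd_finsetProd_iff _).1 h2
    have h4 := hcl c' x h1 hc'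
    rw [← h3, h4]
    exact hc'
  · rintro ⟨h1, h2⟩
    refine ⟨⟨h1, ?_⟩, hcl c x h1 h2⟩
    rw [hf, eval_prod]
    exact h2.trans (dvd_prod_of_mem (fun c => (S c).eval (x : ℤ)) (mem_univ c))

end Pool.Agent.H27.PG
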