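import Mathlib
import Pool.Agent.H27.PG.B3

/-!
# General families at almost prime values: integral version, the sum
-/

set_option autoImplicit false

namespace Pool.Agent.H27.PG

open Finset Pool.Agent.W262.RK Pool.Agent.W762.RK2 Polynomial UniqueFactorizationMonoid
open Pool.Agent.H64.PM hiding gq gq_one
open Pool.Agent.H64.QM (sc ty3 sc_one cv_one eval_bound3)
open Pool.Agent.H27.RU (gq gq_ge_one gq_le)

/-- the averages -/
lemma avgG (A B D f : ℤ[X]) (S E : Fin 4 → ℤ[X]) (N : Fin 4 → ℤ) (hf : f = ∏ c, S c)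
    (hf0 : f ≠ 0) (hN0 : ∀ c, N c ≠ 0) (hN : ∀ c, C (N c) * Fc A B D c = E c * S c)
    (hS : ∀ c, Squarefree ((S c).map (Int.castRingHom ℚ))) (z1 n μ : ℕ)
    (hfb : Smp (fT A B D) z1) (hρ : ∀ p : ℕ, p.Prime → z1 < p → rho f p ≤ n)
    (hμ : ∀ c : Fin 4, c ≠ 3 → nf (S c) = μ) :
    ∃ z0 : ℕ, ∀ z, z0 ≤ z → ∃ C' : ℝ, ∀ y, z < y → ∑ s ∈ (PP z y).divisors,
      Gs (PhG 1 (TyF f) (Wt2 f) (LcQ A B D)) s ≤
      C' * Lam (fun p => (rho f p : ℝ) / p) z y := by
  classical
  have hS0 : ∀ c, S c ≠ 0 := by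
    intro c h
    exact hf0 (by rw [hf]; exact prod_eq_zero (mem_univ c) h)
  by_cases hc : μ = 0 ∧ nf (S 3) = 0
  · -- constant polynomials
    have hnf : ∀ c, nf (S c) = 0 := by
      intro c
      by_cases h3 : c = 3
      · rw [h3]
        exact hc.2
      · rw [hμ c h3]
        exact hc.1
    have hdeg : ∀ c, (S c).natDegree = 0 := by
      intro c
      have h1 := hnf c
      unfold nf at h1
      have hne : (S c).map (Int.castRingHom ℚ) ≠ 0 := (hS c).ne_zero
      have h3 : IsUnit ((S c).map (Int.castRingHom ℚ)) := by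
        have h4 := prod_normalizedFactors hne
        rw [Multiset.card_eq_zero.1 h1, Multiset.prod_zero] at h4
        exact (associated_one_iff_isUnit).1 h4.symm
      have h5 := natDegree_eq_zero_of_isUnit h3
      rwa [natDegree_map_eq_of_injective (RingHom.injective_int (Int.castRingHom ℚ))] at h5
    have hfd : f.natDegree = 0 := by
      rw [hf, natDegree_prod _ _ fun c _ => hS0 c]
      exact sum_eq_zero fun c _ => hdeg c
    obtain ⟨c0, hc0⟩ : ∃ c0 : ℤ, f = C c0 := ⟨_, eq_C_of_natDegree_eq_zero hfd⟩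
    have hc00 : c0 ≠ 0 := by
      rintro rfl
      exact hf0 (by rw [hc0, C_0])
    refine ⟨c0.natAbs, fun z hz => ?_⟩
    rw [hc0]
    exact avg_const 1 c0 hc00 _ z hz
  · obtain ⟨zN, hzN⟩ : ∃ zN : ℕ, zN = z1 + ∑ c, (N c).natAbs := ⟨_, rfl⟩
    have hNp : ∀ p : ℕ, p.Prime → zN < p → ∀ c, ¬ (p : ℤ) ∣ N c := by
      intro p _ hp c h
      have h1 := Nat.le_of_dvd (Int.natAbs_pos.2 (hN0 c)) (Int.natCast_dvd.1 h)
      have h2 : (N c).natAbs ≤ ∑ c, (N c).natAbs :=
        single_le_sum (f := fun c => (N c).natAbs) (fun _ _ => Nat.zero_le _) (mem_univ c)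
      omega
    have hrc : ∀ c : Fin 4, ∀ p : ℕ, p.Prime → zN < p → rc A B f c p = rho (S c) p :=
      fun c p hp hzp => rc_eq hf hN hfb hp (by omega) (hNp p hp hzp) c
    have hag : ∀ c : Fin 4, ∀ z : ℕ, ∃ C0 : ℝ, ∀ y : ℕ, 3 ≤ y →
        |∑ p ∈ PS z y, (rc A B f c p : ℝ) / p - (nf (S c) : ℝ) * Real.log (Real.log y)| ≤ C0 := by
      intro c z
      obtain ⟨C0, hC0⟩ := mert_two (S c) (hS0 c) (hS c) z
      refine ⟨∑ p ∈ range (zN + 1), |(rc A B f c p : ℝ) / p - (rho (S c) p : ℝ) / p| + C0,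
        fun y hy => ?_⟩
      have h1 := sum_agree (fun p => (rc A B f c p : ℝ) / p) (fun p => (rho (S c) p : ℝ) / p) zN
        (fun p hp hzp => by rw [hrc c p hp hzp]) z y
      have h2 := hC0 y hy
      calc |∑ p ∈ PS z y, (rc A B f c p : ℝ) / p - (nf (S c) : ℝ) * Real.log (Real.log y)|
          = |(∑ p ∈ PS z y, (rc A B f c p : ℝ) / p - ∑ p ∈ PS z y, (rho (S c) p : ℝ) / p) +
            (∑ p ∈ PS z y, (rho (S c) p : ℝ) / p - (nf (S c) : ℝ) * Real.log (Real.log y))| := by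
            congr 1
            ring
        _ ≤ _ := abs_add_le _ _
        _ ≤ _ := add_le_add h1 h2
    refine avg_famG A B D f n z1 μ hρ hfb (fun c hc3 z => ?_) (fun hμ0 z => ?_)
    · obtain ⟨C0, hC0⟩ := hag c z
      refine ⟨C0, fun y hy => ?_⟩
      have h1 := hC0 y hy
      rwa [hμ c hc3] at h1
    · obtain ⟨C0, hC0⟩ := hag 3 z
      refine ⟨C0, fun y hy => ?_⟩
      have h1 := (abs_le.1 (hC0 y hy)).1
      have h2 : 1 ≤ nf (S 3) := by
        by_contra h
        exact hc ⟨hμ0, by omega⟩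
      have h3 : (1 : ℝ) ≤ nf (S 3) := by exact_mod_cast h2
      have hyr : (3 : ℝ) ≤ y := by exact_mod_cast hy
      have hl1 : 1 ≤ Real.log y := by
        rw [Real.le_log_iff_exp_le (by linarith)]
        have := Real.exp_one_lt_d9
        linarith
      have h4 := le_mul_of_one_le_left (Real.log_nonneg hl1) h3
      linarith

set_option maxHeartbeats 1000000 in
/-- the sum for general families: integral version -/
theorem fam_intG (A B D : ℤ[X]) (hsqb : Squarefree ((fT A B D).map (Int.castRingHom ℚ)))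
    {m : ℕ} (g : Fin m → ℤ[X])
    (hirr : ∀ j, Irreducible ((g j).map (Int.castRingHom ℚ)))
    (hna : ∀ i j, i ≠ j → ¬ Associated ((g i).map (Int.castRingHom ℚ))
      ((g j).map (Int.castRingHom ℚ))) (μ : ℕ) (hμA : nfg g A = μ) (hμB : nfg g B = μ)
    (hμC : nfg g (A - B) = μ) (L zz : ℕ) (θ : ℝ) (hθ : 0 < θ) :
    ∃ z : ℕ, zz ≤ z ∧ ∃ C : ℝ, 0 ≤ C ∧ ∀ (q : ℕ) (r x : ℤ) (H : ℕ), 1 ≤ q → 2 ≤ H →
      (∀ p : ℕ, p.Prime → z < p → p ∣ q → ¬ (p : ℤ) ∣ (fT A B D).eval r) →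
      (((|x| : ℤ) : ℝ) + H) ^ θ ≤ (H : ℝ) / q →
      ∑ t ∈ (Ioc x (x + H)).filter (fun t : ℤ => t ≡ r [ZMOD q] ∧
        ∀ j, Rg L H ((g j).eval t)),
        (if (fT A B D).eval t ≠ 0 then (2 : ℝ) ^ Module.finrank ℤ
          (EAB ((A * D).eval t) ((B * D).eval t)).toAffine.Point else 0) ≤
        C * ((H : ℝ) / q) * ((q : ℝ) / (q.totient : ℝ)) ^
          ((fT A B D).natDegree + ∑ j, (g j).natDegree) / (Real.log H) ^ m := by
  classical
  obtain ⟨fb, hfbd⟩ : ∃ fb, fb = fT A B D := ⟨_, rfl⟩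
  rw [← hfbd] at hsqb
  have hfb0 : fb ≠ 0 := by
    intro h
    rw [h, Polynomial.map_zero] at hsqb
    exact hsqb.ne_zero rfl
  have hFc : ∀ c, Squarefree ((Fc A B D c).map (Int.castRingHom ℚ)) := by
    intro c
    obtain ⟨E, hE⟩ := Fc_dvd (A := A) (B := B) (D := D) c
    rw [hfbd, hE, Polynomial.map_mul] at hsqb
    exact hsqb.squarefree_of_dvd (Dvd.intro _ rfl)
  choose J S N hN0 hN hSg hSn using fun c => decomp1 (Fc A B D c) (hFc c) g hirr hna
  obtain ⟨f, hf⟩ : ∃ f, f = ∏ c, S c := ⟨_, rfl⟩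
  obtain ⟨G, hG⟩ : ∃ G, G = ∏ c, gJ (J c) g := ⟨_, rfl⟩
  obtain ⟨N0, hN0d⟩ : ∃ N0, N0 = ∏ c, N c := ⟨_, rfl⟩
  have hN00 : N0 ≠ 0 := by
    rw [hN0d]
    exact prod_ne_zero_iff.2 fun c _ => hN0 c
  have hfG : C N0 * fb = G * f := by
    rw [hfbd, ← prod_Fc, hN0d, hG, hf, map_prod, ← prod_mul_distrib, ← prod_mul_distrib]
    exact prod_congr rfl fun c _ => hN c
  have hf0 : f ≠ 0 := by
    rintro rfl
    rw [mul_zero] at hfG
    exact mul_ne_zero (C_ne_zero.2 hN00) hfb0 hfG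
  have hG0 : G ≠ 0 := by
    rintro rfl
    rw [zero_mul] at hfG
    exact mul_ne_zero (C_ne_zero.2 hN00) hfb0 hfG
  have hsqf : Squarefree (f.map (Int.castRingHom ℚ)) := by
    refine (sqf_const hN00 hsqb).squarefree_of_dvd ?_
    rw [hfG, Polynomial.map_mul]
    exact Dvd.intro_left _ rfl
  have hsqS : ∀ c, Squarefree ((S c).map (Int.castRingHom ℚ)) := by
    intro c
    refine hsqf.squarefree_of_dvd ?_
    rw [hf, Polynomial.map_prod]
    exact dvd_prod_of_mem (fun c => (S c).map (Int.castRingHom ℚ)) (mem_univ c)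
  have hdeg : f.natDegree ≤ fb.natDegree := by
    have h1 : (C N0 * fb).natDegree = fb.natDegree := natDegree_C_mul hN00
    rw [hfG, natDegree_mul hG0 hf0] at h1
    omega
  obtain ⟨n', hn'⟩ : ∃ n', n' = f.natDegree := ⟨_, rfl⟩
  obtain ⟨n, hn⟩ : ∃ n, n = n' + 1 := ⟨_, rfl⟩
  obtain ⟨zb, hzb⟩ := smp_of fb hsqb
  obtain ⟨z1, hz1⟩ := smp_of f hsqf
  obtain ⟨z2, hz2⟩ := Pool.Agent.H474R2.PG.rho_le f hf0
  have hρ : ∀ p : ℕ, p.Prime → z2 < p → rho f p ≤ n' := fun p hp hzp => by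
    rw [hn']
    exact hz2 p hp hzp
  obtain ⟨z3, hz3⟩ := avgG A B D f S (fun c => gJ (J c) g) N hf hf0 hN0 hN hsqS (z2 + zb) n μ
    (by
      rw [← hfbd]
      intro p hp hzp
      exact hzb p hp (by omega))
    (fun p hp hzp => by
      have := hρ p hp (by omega)
      omega)
    (fun c hc3 => by
      rw [hSn]
      unfold Fc
      split_ifs with c0 c1 c2
      · exact hμA
      · exact hμB
      · exact hμC
      · exfalso
        revert c0 c1 c2 hc3
        revert c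
        decide)
  obtain ⟨e, he⟩ : ∃ e, e = ∑ j, (g j).natDegree := ⟨_, rfl⟩
  have hfa : ∀ j, ¬ (g j).map (Int.castRingHom ℚ) ∣ f.map (Int.castRingHom ℚ) := by
    intro j hj
    rw [hf, Polynomial.map_prod] at hj
    obtain ⟨c, _, hc⟩ := ((hirr j).prime.dvd_finsetProd_iff _).1 hj
    exact hSg c j hc
  have hgd : ∀ j, 0 < (g j).natDegree := by
    intro j
    have h1 := (hirr j).natDegree_pos
    rwa [natDegree_map_eq_of_injective (RingHom.injective_int (Int.castRingHom ℚ))] at h1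
  obtain ⟨z4, hz4⟩ := facts f g (sqf_prod f hsqf g hirr hna hfa)
  set z := zz + zb + z1 + z2 + z3 + z4 + (2 * (n + e) + 2) + N0.natAbs with hz
  have hnd : ∀ c : ℤ, c ≠ 0 → c.natAbs ≤ z → ∀ p : ℕ, p.Prime → z < p → ¬ (p : ℤ) ∣ c := by
    intro c hc hcz p _ hzp h1
    have := Nat.le_of_dvd (Int.natAbs_pos.2 hc) (Int.natCast_dvd.1 h1)
    omega
  have hnm : 2 * (n + e) + 2 ≤ z := by omega
  have hn1 : 1 ≤ n := by omega
  have hsm : Smp f z := fun p hp hzp => hz1 p hp (by omega)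
  have hsmb : Smp fb z := fun p hp hzp => hzb p hp (by omega)
  obtain ⟨C', havg⟩ := hz3 z (by omega)
  have hNe : ∀ t : ℤ, N0 * fb.eval t = G.eval t * f.eval t := by
    intro t
    rw [← eval_mul, ← hfG, eval_mul, eval_C]
  have hGp : ∀ q : ℕ, q.Prime → ∀ t : ℤ, (q : ℤ) ∣ G.eval t → ∃ j, (q : ℤ) ∣ (g j).eval t := by
    intro q hq t h
    have hqi : Prime (q : ℤ) := Nat.prime_iff_prime_int.1 hq
    rw [hG, eval_prod] at h
    obtain ⟨c, _, hc⟩ := (hqi.dvd_finsetProd_iff _).1 h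
    rw [gJ_eval] at hc
    obtain ⟨j, _, hj⟩ := (hqi.dvd_finsetProd_iff _).1 hc
    exact ⟨j, hj⟩
  have hffb : ∀ p : ℕ, p.Prime → z < p → ∀ t : ℤ, (p : ℤ) ∣ f.eval t → ¬ (p : ℤ) ^ 2 ∣ f.eval t →
      (p : ℤ) ∣ fb.eval t ∧ ¬ (p : ℤ) ^ 2 ∣ fb.eval t := by
    intro p hp hzp t h1 h2
    have hpi : Prime (p : ℤ) := Nat.prime_iff_prime_int.1 hp
    have h3 : ¬ (p : ℤ) ∣ G.eval t := by
      intro h4
      obtain ⟨j, hj⟩ := hGp p hp t h4
      exact (hz4 p hp (by omega)).2.2.2 j t hj h1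
    have hpN : ¬ (p : ℤ) ∣ N0 := hnd N0 hN00 (by omega) p hp hzp
    constructor
    · have h4 : (p : ℤ) ∣ N0 * fb.eval t := by
        rw [hNe]
        exact h1.mul_left _
      exact (hpi.dvd_or_dvd h4).resolve_left hpN
    · intro h4
      have h5 : (p : ℤ) ^ 2 ∣ G.eval t * f.eval t := by
        rw [← hNe]
        exact h4.mul_left _
      exact h2 (hpi.pow_dvd_of_dvd_mul_left 2 h3 h5)
  obtain ⟨Cm, hCm, hM⟩ := prod_mertG g hirr (∏ j, g j) z
    (fun p hp hzp => (hz4 p hp (by omega)).2.2.1)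
    (fun p hp hzp => by
      have h1 := (hz4 p hp (by omega)).2.1
      rw [← he] at h1
      omega) (by omega)
  obtain ⟨R, hRd⟩ : ∃ R : ℤ → ℝ, R = fun t => if fb.eval t ≠ 0 then (2 : ℝ) ^ Module.finrank ℤ
    (EAB ((A * D).eval t) ((B * D).eval t)).toAffine.Point else 0 := ⟨_, rfl⟩
  have hR : ∀ t, 0 ≤ R t := by
    intro t
    rw [hRd]
    simp only
    split_ifs
    · positivity
    · exact le_rfl
  have hR0 : ∀ t, f.eval t = 0 → R t = 0 := by
    intro t ht
    have h1 := hNe t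
    rw [ht, mul_zero] at h1
    have h2 := (mul_eq_zero.1 h1).resolve_left hN00
    rw [hRd]
    simp only
    rw [if_neg (not_not.2 h2)]
  set csum := ∑ i ∈ range (f.natDegree + 1), (f.coeff i).natAbs with hcsum
  set gsum := ∑ j, ∑ i ∈ range ((g j).natDegree + 1), ((g j).coeff i).natAbs with hgsum
  have hgle : ∀ j, (g j).natDegree ≤ e := fun j => by
    rw [he]
    exact single_le_sum (f := fun j => (g j).natDegree) (fun _ _ => Nat.zero_le _) (mem_univ j)
  have hgsl : ∀ j, ∑ i ∈ range ((g j).natDegree + 1), ((g j).coeff i).natAbs ≤ gsum := fun j =>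
    single_le_sum (f := fun j => ∑ i ∈ range ((g j).natDegree + 1), ((g j).coeff i).natAbs)
      (fun _ _ => Nat.zero_le _) (mem_univ j)
  have hmain := fun κ0 : ℕ => mainX 1 f fb (LcQ A B D) n n' m e L z hnm hn1
    (by omega)
    (fun p hp hzp => hρ p hp (by omega)) hsm hsmb hffb
    (fun p hp hzp τ => XC_LcQ (by rw [← hfbd]; exact hsmb) (by omega) hp hzp τ) g hgd he.ge
    (fun p hp hzp => (hz4 p hp (by omega)).1)
    (fun p hp hzp => by rw [he]; exact (hz4 p hp (by omega)).2.1) Cm hCm hM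
    C' havg κ0 (κ0 * f.natDegree + 1)
    (4 ^ (z + 2 + m * ((κ0 * e + 1) * L + 1))) (csum + gsum + 2) R hR hR0 (by
      intro t X y κ hy hX htb hXk hpr ht0
      have hb := eval_bound3 f X κ0 1 t htb (Nat.one_le_pow _ _ (by omega)) (by omega)
      rw [sc_one] at hb
      have hgb : ∀ j, ((g j).eval t).natAbs ≤ X ^ (κ0 * e + 1) := by
        intro j
        have h2 := hgsl j
        have h3 := eval_bound3 (g j) X κ0 1 t htb (Nat.one_le_pow _ _ (by omega)) (by omega)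
        rw [sc_one] at h3
        refine h3.trans (Nat.pow_le_pow_right (by omega) ?_)
        exact Nat.add_le_add_right (Nat.mul_le_mul_left _ (hgle j)) _
      have hGc := gC_card (by omega) hpr hgb (fun q hq h => hGp q hq t h)
      have hGt : G.eval t ≠ 0 := by
        rw [hG, eval_prod]
        refine prod_ne_zero_iff.2 fun c _ => ?_
        rw [gJ_eval]
        exact prod_ne_zero_iff.2 fun j _ => (hpr j).1
      have h1 := rankGen (A := A) (B := B) (D := D) (f := f) (G := G) (t := t) hN00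
        (by rw [← hfbd]; exact hfG) (z := z) (y := y)
        (X := X) (κ := κ) (mm := m * ((κ0 * e + 1) * L + 1))
        (M := κ0 * f.natDegree + 1) (by rw [← hfbd]; exact hsmb) (by omega) hy (by omega)
        (by rw [← hfbd]; exact hffb) hGt hGc ht0
        hb hXk
      rw [← hfbd] at h1
      have h2 : fb.eval t ≠ 0 := by
        intro h
        have h3 := hNe t
        rw [h, mul_zero] at h3
        exact mul_ne_zero hGt ht0 h3.symm
      rw [hRd]
      simp only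
      rw [if_pos h2, pow_one]
      exact_mod_cast h1)
  obtain ⟨C1, hC1, hs⟩ := shortP f g L z n' e (by omega) (by omega) R hR hmain θ hθ
  obtain ⟨C2, hC2, hg⟩ := gq_two n' e
  refine ⟨z, by omega, C1 * C2, by positivity, fun q r x H hq hH hcop hsz => ?_⟩
  have h1 := hs q r x H hq hH (by
    intro p hp hzp hpq hdv
    have hpi : Prime (p : ℤ) := Nat.prime_iff_prime_int.1 hp
    have h2 : (p : ℤ) ∣ N0 * fb.eval r := by
      rw [hNe]
      exact hdv.mul_left _
    rcases hpi.dvd_or_dvd h2 with h3 | h3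
    · exact hnd N0 hN00 (by omega) p hp hzp h3
    · rw [hfbd] at h3
      exact hcop p hp hzp hpq h3) hsz
  rw [hRd] at h1
  rw [← hfbd, ← he]
  refine h1.trans ?_
  have hHr : (2 : ℝ) ≤ H := by exact_mod_cast hH
  have hlH : 0 < Real.log H := Real.log_pos (by linarith)
  have hφ : (0 : ℝ) < q.totient := by exact_mod_cast Nat.totient_pos.2 (by omega)
  have hqφ : 1 ≤ (q : ℝ) / (q.totient : ℝ) := by
    rw [one_le_div hφ]
    exact_mod_cast Nat.totient_le q
  calc C1 * ((H : ℝ) / q) * (gq z n' q * gq z e q) / (Real.log H) ^ m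
      ≤ C1 * ((H : ℝ) / q) * (C2 * ((q : ℝ) / (q.totient : ℝ)) ^ (fb.natDegree + e)) /
          (Real.log H) ^ m := by
        refine div_le_div_of_nonneg_right ?_ (by positivity)
        refine mul_le_mul_of_nonneg_left ?_ (by positivity)
        refine (hg z q (by omega) hq).trans ?_
        refine mul_le_mul_of_nonneg_left ?_ hC2
        exact pow_le_pow_right₀ hqφ (by omega)
    _ = _ := by ring

end Pool.Agent.H27.PG
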