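import Mathlib
import Pool.Agent.H64.MM.Fin
import Pool.Agent.H27.PG.B4

/-!
# General families at almost prime values
-/

set_option autoImplicit false

namespace Pool.Agent.H27.PG

open Finset Pool.Agent.W262.RK Pool.Agent.W762.RK2 Polynomial
open Pool.Agent.H64.PM (fT sqf_part)
open Pool.Agent.H64.MM (Tw rk rk_scale)

lemma map_eval_castB (P : ℤ[X]) (t : ℤ) :
    (P.map (Int.castRingHom ℚ)).eval (t : ℚ) = ((P.eval t : ℤ) : ℚ) := by
  rw [eval_map]
  exact Polynomial.eval₂_at_intCast (Int.castRingHom ℚ) t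

set_option maxHeartbeats 1000000 in
/-- **the first moment for general families** -/
theorem famG (A B D : ℤ[X]) (hsq : Squarefree ((A * B * (A - B)).map (Int.castRingHom ℚ)))
    (hD : D ≠ 0) (hco : IsCoprime (D.map (Int.castRingHom ℚ))
      ((A * B * (A - B)).map (Int.castRingHom ℚ)))
    {m : ℕ} (g : Fin m → ℤ[X])
    (hirr : ∀ j, Irreducible ((g j).map (Int.castRingHom ℚ)))
    (hna : ∀ i j, i ≠ j → ¬ Associated ((g i).map (Int.castRingHom ℚ))
      ((g j).map (Int.castRingHom ℚ))) (h1 : nfg g A = nfg g B) (h2 : nfg g B = nfg g (A - B))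
    (L : ℕ) (θ : ℝ) (hθ : 0 < θ) :
    ∃ K : ℝ, 0 ≤ K ∧ ∀ (q H : ℕ) (r x : ℤ), 1 ≤ q → 2 ≤ H →
      IsCoprime ((A * B * (A - B) * D).eval r) (q : ℤ) →
      (((|x| : ℤ) : ℝ) + H) ^ θ ≤ (H : ℝ) / q →
      ∑ t ∈ (Ioc x (x + H)).filter (fun t : ℤ => t ≡ r [ZMOD q] ∧
        (∀ j, Rg L H ((g j).eval t)) ∧ (A * B * (A - B) * D).eval t ≠ 0),
        (2 : ℝ) ^ rk (Tw (A.eval t : ℤ) (B.eval t : ℤ) (D.eval t : ℤ)) ≤
        K * ((H : ℝ) / q) * ((q : ℝ) / (q.totient : ℝ)) ^
          ((A * B * (A - B) * D).natDegree + ∑ j, (g j).natDegree) / (Real.log H) ^ m := by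
  classical
  have hDm0 : D.map (Int.castRingHom ℚ) ≠ 0 := by
    intro h
    apply hD
    exact Polynomial.map_injective (Int.castRingHom ℚ) Int.cast_injective
      (by rw [Polynomial.map_zero]; exact h)
  have hABC0 : A * B * (A - B) ≠ 0 := by
    intro h
    rw [h, Polynomial.map_zero] at hsq
    exact hsq.ne_zero rfl
  obtain ⟨s, r1, hs, hDs⟩ := sqf_part _ hDm0
  have hs0 : s ≠ 0 := hs.ne_zero
  obtain ⟨N3, S, hN3, hS⟩ := hclearB s
  have hN3q : (N3 : ℚ) ≠ 0 := by exact_mod_cast hN3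
  have hcast : ∀ c : ℤ, (Int.castRingHom ℚ) c = (c : ℚ) := fun c => rfl
  set D1 : ℤ[X] := C N3 * S with hD1
  have hD1m : D1.map (Int.castRingHom ℚ) = C ((N3 : ℚ) ^ 2) * s := by
    rw [hD1, Polynomial.map_mul, map_C, hS, hcast, ← mul_assoc, ← C_mul]
    congr 2
    ring
  have hD10 : D1 ≠ 0 := by
    intro h
    rw [h, Polynomial.map_zero] at hD1m
    exact mul_ne_zero (C_ne_zero.2 (pow_ne_zero 2 hN3q)) hs0 hD1m.symm
  have hfe : fT A B D1 = A * B * (A - B) * D1 := rfl
  have hsqf : Squarefree ((fT A B D1).map (Int.castRingHom ℚ)) := by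
    rw [hfe, Polynomial.map_mul, hD1m]
    have hu : IsUnit (C ((N3 : ℚ) ^ 2)) := by
      rw [isUnit_C, isUnit_iff_ne_zero]
      exact pow_ne_zero _ hN3q
    have hco' : IsCoprime ((A * B * (A - B)).map (Int.castRingHom ℚ)) s := by
      rw [hDs] at hco
      exact (IsCoprime.of_mul_left_left hco).symm
    have h3 : Squarefree ((A * B * (A - B)).map (Int.castRingHom ℚ) * s) :=
      (squarefree_mul_iff).2 ⟨hco'.isRelPrime, hsq, hs⟩
    have hass : Associated ((A * B * (A - B)).map (Int.castRingHom ℚ) * s)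
        (C ((N3 : ℚ) ^ 2) * ((A * B * (A - B)).map (Int.castRingHom ℚ) * s)) :=
      (associated_isUnit_mul_left_iff hu).2 (Associated.refl _) |>.symm
    have h4 := hass.squarefree_iff.1 h3
    have h5 : (A * B * (A - B)).map (Int.castRingHom ℚ) * (C ((N3 : ℚ) ^ 2) * s) =
        C ((N3 : ℚ) ^ 2) * ((A * B * (A - B)).map (Int.castRingHom ℚ) * s) := by ring
    rw [h5]
    exact h4
  have hdeg : (fT A B D1).natDegree ≤ (A * B * (A - B) * D).natDegree := by
    rw [hfe, natDegree_mul hABC0 hD10, natDegree_mul hABC0 hD]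
    refine Nat.add_le_add_left ?_ _
    rw [← natDegree_map_eq_of_injective (f := Int.castRingHom ℚ) Int.cast_injective D1, hD1m,
      ← natDegree_map_eq_of_injective (f := Int.castRingHom ℚ) Int.cast_injective D,
      natDegree_C_mul (pow_ne_zero 2 hN3q)]
    refine natDegree_le_of_dvd ?_ hDm0
    rw [hDs]
    exact Dvd.intro _ rfl
  obtain ⟨N4, Q, hN4, hQ⟩ := hclearB (C (((N3 : ℚ) ^ 2)⁻¹) * r1 ^ 2)
  have hDval : ∀ t : ℤ, ((D.eval t : ℤ) : ℚ) = s.eval (t : ℚ) * (r1.eval (t : ℚ)) ^ 2 := by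
    intro t
    rw [← map_eval_castB, hDs, eval_mul, eval_pow]
  have hD1val : ∀ t : ℤ, ((D1.eval t : ℤ) : ℚ) = (N3 : ℚ) ^ 2 * s.eval (t : ℚ) := by
    intro t
    rw [← map_eval_castB, hD1m, eval_mul, eval_C]
  have hQD : ∀ t : ℤ, N4 * D.eval t = D1.eval t * Q.eval t := by
    intro t
    have h3 : ((N4 * D.eval t : ℤ) : ℚ) = ((D1.eval t * Q.eval t : ℤ) : ℚ) := by
      rw [Int.cast_mul, Int.cast_mul, hDval, hD1val, ← map_eval_castB Q, hQ]
      simp only [eval_mul, eval_C, eval_pow]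
      field_simp
    exact_mod_cast h3
  obtain ⟨z, hz, K, hK, hmain⟩ := fam_intG A B D1 hsqf g hirr hna (nfg g A) rfl h1.symm
    (h2.symm.trans h1.symm) L N4.natAbs θ hθ
  refine ⟨K, hK, fun q H r x hq hH hcop hsz => ?_⟩
  have h3 := hmain q r x H hq hH (by
    intro p hp hzp hpq hd
    have hpi : Prime (p : ℤ) := Nat.prime_iff_prime_int.1 hp
    have hpq' : (p : ℤ) ∣ (q : ℤ) := Int.natCast_dvd_natCast.2 hpq
    rw [hfe, eval_mul] at hd
    have h4 : (p : ℤ) ∣ (A * B * (A - B) * D).eval r := by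
      rw [eval_mul]
      rcases hpi.dvd_or_dvd hd with h5 | h5
      · exact h5.mul_right _
      · have h6 : (p : ℤ) ∣ N4 * D.eval r := by
          rw [hQD]
          exact h5.mul_right _
        rcases hpi.dvd_or_dvd h6 with h7 | h7
        · exfalso
          have := Nat.le_of_dvd (Int.natAbs_pos.2 hN4) (Int.natCast_dvd.1 h7)
          omega
        · exact h7.mul_left _
    exact hpi.not_isUnit (hcop.isUnit_of_dvd' h4 hpq')) hsz
  have hHr : (2 : ℝ) ≤ H := by exact_mod_cast hH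
  have hlH : 0 < Real.log H := Real.log_pos (by linarith)
  have hφ : (0 : ℝ) < q.totient := by exact_mod_cast Nat.totient_pos.2 (by omega)
  have hqφ : 1 ≤ (q : ℝ) / (q.totient : ℝ) := by
    rw [one_le_div hφ]
    exact_mod_cast Nat.totient_le q
  have hnn : ∀ t : ℤ, 0 ≤ (if (fT A B D1).eval t ≠ 0 then (2 : ℝ) ^ Module.finrank ℤ
      (EAB ((A * D1).eval t) ((B * D1).eval t)).toAffine.Point else 0) := by
    intro t
    split_ifs
    · positivity
    · exact le_rfl
  calc ∑ t ∈ (Ioc x (x + H)).filter (fun t : ℤ => t ≡ r [ZMOD q] ∧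
        (∀ j, Rg L H ((g j).eval t)) ∧ (A * B * (A - B) * D).eval t ≠ 0),
        (2 : ℝ) ^ rk (Tw (A.eval t : ℤ) (B.eval t : ℤ) (D.eval t : ℤ))
      = ∑ t ∈ (Ioc x (x + H)).filter (fun t : ℤ => t ≡ r [ZMOD q] ∧
        (∀ j, Rg L H ((g j).eval t)) ∧ (A * B * (A - B) * D).eval t ≠ 0),
        (if (fT A B D1).eval t ≠ 0 then (2 : ℝ) ^ Module.finrank ℤ
          (EAB ((A * D1).eval t) ((B * D1).eval t)).toAffine.Point else 0) := by
        refine sum_congr rfl fun t ht => ?_
        have ht0 := (mem_filter.1 ht).2.2.2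
        rw [eval_mul] at ht0
        have hABCt := left_ne_zero_of_mul ht0
        have hDt := right_ne_zero_of_mul ht0
        have hDt' : ((D.eval t : ℤ) : ℚ) ≠ 0 := by exact_mod_cast hDt
        rw [hDval] at hDt'
        have hst := left_ne_zero_of_mul hDt'
        have hrt : r1.eval (t : ℚ) ≠ 0 := fun h => hDt' (by rw [h]; ring)
        have hD1t : D1.eval t ≠ 0 := by
          intro h
          have h4 := hD1val t
          rw [h, Int.cast_zero] at h4
          exact mul_ne_zero (pow_ne_zero 2 hN3q) hst h4.symm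
        have hft : (fT A B D1).eval t ≠ 0 := by
          rw [hfe, eval_mul]
          exact mul_ne_zero hABCt hD1t
        rw [if_pos hft]
        congr 1
        refine rk_scale _ _ _ _ _ (r1.eval (t : ℚ) / N3) (div_ne_zero hrt hN3q) ?_ ?_
        · rw [eval_mul, Int.cast_mul, hDval, hD1val]
          field_simp
        · rw [eval_mul, Int.cast_mul, hDval, hD1val]
          field_simp
    _ ≤ ∑ t ∈ (Ioc x (x + H)).filter (fun t : ℤ => t ≡ r [ZMOD q] ∧
        ∀ j, Rg L H ((g j).eval t)),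
        (if (fT A B D1).eval t ≠ 0 then (2 : ℝ) ^ Module.finrank ℤ
          (EAB ((A * D1).eval t) ((B * D1).eval t)).toAffine.Point else 0) := by
        refine sum_le_sum_of_subset_of_nonneg ?_ fun t _ _ => hnn t
        intro t ht
        rw [mem_filter] at ht ⊢
        exact ⟨ht.1, ht.2.1, ht.2.2.1⟩
    _ ≤ _ := h3
    _ ≤ _ := by
        refine div_le_div_of_nonneg_right ?_ (by positivity)
        refine mul_le_mul_of_nonneg_left ?_ (by positivity)
        exact pow_le_pow_right₀ hqφ (by omega)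

end Pool.Agent.H27.PG
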