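import Mathlib
import Pool.Agent.H27.PG.G7

/-!
# The twists of one curve at almost prime values in progressions in short intervals
-/

set_option autoImplicit false

namespace Pool.Agent.H27.PG

open Finset Pool.Agent.W262.RK Pool.Agent.W762.RK2 Polynomial
open Pool.Agent.H64.MM (Tw rk rk_scale)

/-- clearing the denominators -/
lemma hclear (q : ℚ[X]) : ∃ (N : ℤ) (Q : ℤ[X]), N ≠ 0 ∧
    Q.map (Int.castRingHom ℚ) = C (N : ℚ) * q := by
  obtain ⟨b, hbM, hb⟩ := IsLocalization.integerNormalization_spec (nonZeroDivisors ℤ) q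
  refine ⟨b, IsLocalization.integerNormalization (nonZeroDivisors ℤ) q,
    nonZeroDivisors.ne_zero hbM, ?_⟩
  have h1 : (algebraMap ℤ ℚ) = Int.castRingHom ℚ := rfl
  rw [← h1, hb]
  ext i
  simp

lemma map_eval_cast (P : ℤ[X]) (t : ℤ) :
    (P.map (Int.castRingHom ℚ)).eval (t : ℚ) = ((P.eval t : ℤ) : ℚ) := by
  rw [eval_map]
  exact Polynomial.eval₂_at_intCast (Int.castRingHom ℚ) t

set_option maxHeartbeats 1000000 in
/-- **the moments of the rank for the twists** -/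
theorem twG (k : ℕ) (a0 b0 : ℚ) (ha0 : a0 ≠ 0) (hb0 : b0 ≠ 0) (hab0 : a0 ≠ b0) (P : ℤ[X])
    (hP : P ≠ 0) {m : ℕ} (g : Fin m → ℤ[X])
    (hirr : ∀ j, Irreducible ((g j).map (Int.castRingHom ℚ)))
    (hna : ∀ i j, i ≠ j → ¬ Associated ((g i).map (Int.castRingHom ℚ))
      ((g j).map (Int.castRingHom ℚ))) (L : ℕ) (θ : ℝ) (hθ : 0 < θ) :
    ∃ K : ℝ, 0 ≤ K ∧ ∀ (q H : ℕ) (r A : ℤ), 1 ≤ q → 2 ≤ H →
      IsCoprime (P.eval r) (q : ℤ) →
      (((|A| : ℤ) : ℝ) + H) ^ θ ≤ (H : ℝ) / q →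
      ∑ t ∈ (Ioc A (A + H)).filter (fun t : ℤ => t ≡ r [ZMOD q] ∧
        (∀ j, Rg L H ((g j).eval t)) ∧ P.eval t ≠ 0),
        ((2 : ℝ) ^ rk (Tw a0 b0 (P.eval t : ℤ))) ^ k ≤
        K * ((H : ℝ) / q) * ((q : ℝ) / (q.totient : ℝ)) ^ (P.natDegree + ∑ j, (g j).natDegree) /
          (Real.log H) ^ m := by
  classical
  obtain ⟨J, S, c, r1, hc, hsq, hSa, hPe, hdeg⟩ := decomp P hP g hirr hna
  set x : ℚ := a0 * c with hx
  set y : ℚ := b0 * c with hy
  have hx0 : x ≠ 0 := mul_ne_zero ha0 hc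
  have hy0 : y ≠ 0 := mul_ne_zero hb0 hc
  have hxy : x ≠ y := fun h => hab0 (mul_right_cancel₀ hc h)
  set N : ℚ := (x.den : ℚ) * y.den with hN
  have hxd : (x.den : ℚ) ≠ 0 := by exact_mod_cast x.den_ne_zero
  have hyd : (y.den : ℚ) ≠ 0 := by exact_mod_cast y.den_ne_zero
  have hN0 : N ≠ 0 := mul_ne_zero hxd hyd
  set A1 : ℤ := x.num * x.den * y.den ^ 2 with hA
  set B1 : ℤ := y.num * y.den * x.den ^ 2 with hB
  have hAx : (A1 : ℚ) = x * N ^ 2 := by
    rw [hA, hN]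
    push_cast
    have h1 := Rat.mul_den_eq_num x
    linear_combination (-(x.den : ℚ) * y.den ^ 2) * h1
  have hBy : (B1 : ℚ) = y * N ^ 2 := by
    rw [hB, hN]
    push_cast
    have h1 := Rat.mul_den_eq_num y
    linear_combination (-(y.den : ℚ) * x.den ^ 2) * h1
  have hA0 : A1 ≠ 0 := by
    intro h
    have : (A1 : ℚ) = 0 := by exact_mod_cast h
    rw [hAx] at this
    exact mul_ne_zero hx0 (pow_ne_zero _ hN0) this
  have hB0 : B1 ≠ 0 := by
    intro h
    have : (B1 : ℚ) = 0 := by exact_mod_cast h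
    rw [hBy] at this
    exact mul_ne_zero hy0 (pow_ne_zero _ hN0) this
  have hAB : A1 - B1 ≠ 0 := by
    intro h
    have h1 : (A1 : ℚ) = B1 := by exact_mod_cast (sub_eq_zero.1 h)
    rw [hAx, hBy] at h1
    exact hxy (mul_right_cancel₀ (pow_ne_zero _ hN0) h1)
  -- the values
  have hval : ∀ t : ℤ, ((P.eval t : ℤ) : ℚ) = c * (((gJ J g * S).eval t : ℤ) : ℚ) *
      (r1.eval (t : ℚ)) ^ 2 := by
    intro t
    rw [← map_eval_cast, hPe, eval_mul, eval_mul, eval_C, eval_pow, map_eval_cast]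
  have hS0 : S ≠ 0 := by
    rintro rfl
    rw [mul_zero, Polynomial.map_zero] at hsq
    exact hsq.ne_zero rfl
  have hne : ∀ t : ℤ, P.eval t ≠ 0 → S.eval t ≠ 0 ∧ r1.eval (t : ℚ) ≠ 0 := by
    intro t ht
    have ht' : ((P.eval t : ℤ) : ℚ) ≠ 0 := by exact_mod_cast ht
    rw [hval] at ht'
    constructor
    · intro h
      exact ht' (by rw [eval_mul, h]; simp)
    · intro h
      exact ht' (by rw [h]; ring)
  have hrk : ∀ t : ℤ, P.eval t ≠ 0 → ((2 : ℝ) ^ rk (Tw a0 b0 (P.eval t : ℤ))) ^ k =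
      Rt k A1 B1 S J g t := by
    intro t ht
    obtain ⟨hSt, hrt⟩ := hne t ht
    unfold Rt
    rw [if_pos hSt]
    congr 2
    rw [eval_mul, eval_C, eval_mul (p := C B1), eval_C]
    refine rk_scale _ _ a0 b0 _ (r1.eval (t : ℚ) / N) (div_ne_zero hrt hN0) ?_ ?_
    · rw [hval]
      push_cast
      rw [hAx, hx]
      field_simp
    · rw [hval]
      push_cast
      rw [hBy, hy]
      field_simp
  -- clearing the denominators
  obtain ⟨Nc, Q, hNc, hQ⟩ := hclear (C c * (gJ J g).map (Int.castRingHom ℚ) * r1 ^ 2)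
  have hPS : ∀ t : ℤ, Nc * P.eval t = Q.eval t * S.eval t := by
    intro t
    have h1 : ((Nc * P.eval t : ℤ) : ℚ) = ((Q.eval t * S.eval t : ℤ) : ℚ) := by
      rw [Int.cast_mul, Int.cast_mul, ← map_eval_cast, ← map_eval_cast, ← map_eval_cast, hQ, hPe]
      simp only [eval_mul, eval_C, eval_pow, Polynomial.map_mul]
      ring
    exact_mod_cast h1
  obtain ⟨z, hz, K, hK, hmain⟩ := tw_int k A1 B1 hA0 hB0 hAB S hS0 g hirr hna J hsq hSa L Nc.natAbs
    θ hθ
  refine ⟨K, hK, fun q H r A hq hH hcop hsz => ?_⟩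
  have h1 := hmain q r A H hq hH (by
    intro p hp hzp hpq hd
    have hpi : Prime (p : ℤ) := Nat.prime_iff_prime_int.1 hp
    have h2 : (p : ℤ) ∣ Nc * P.eval r := by
      rw [hPS]
      exact hd.mul_left _
    rcases hpi.dvd_or_dvd h2 with h3 | h3
    · have := Nat.le_of_dvd (Int.natAbs_pos.2 hNc) (Int.natCast_dvd.1 h3)
      omega
    · have h4 : IsUnit (p : ℤ) := hcop.isUnit_of_dvd' h3 (Int.natCast_dvd_natCast.2 hpq)
      exact hpi.not_isUnit h4) hsz
  have hHr : (2 : ℝ) ≤ H := by exact_mod_cast hH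
  have hlH : 0 < Real.log H := Real.log_pos (by linarith)
  have hφ : (0 : ℝ) < q.totient := by exact_mod_cast Nat.totient_pos.2 (by omega)
  have hqφ : 1 ≤ (q : ℝ) / (q.totient : ℝ) := by
    rw [one_le_div hφ]
    exact_mod_cast Nat.totient_le q
  calc ∑ t ∈ (Ioc A (A + H)).filter (fun t : ℤ => t ≡ r [ZMOD q] ∧
        (∀ j, Rg L H ((g j).eval t)) ∧ P.eval t ≠ 0),
        ((2 : ℝ) ^ rk (Tw a0 b0 (P.eval t : ℤ))) ^ k
      = ∑ t ∈ (Ioc A (A + H)).filter (fun t : ℤ => t ≡ r [ZMOD q] ∧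
        (∀ j, Rg L H ((g j).eval t)) ∧ P.eval t ≠ 0), Rt k A1 B1 S J g t :=
        sum_congr rfl fun t ht => hrk t (mem_filter.1 ht).2.2.2
    _ ≤ ∑ t ∈ (Ioc A (A + H)).filter (fun t : ℤ => t ≡ r [ZMOD q] ∧
        ∀ j, Rg L H ((g j).eval t)), Rt k A1 B1 S J g t := by
        refine sum_le_sum_of_subset_of_nonneg ?_ fun t _ _ => ?_
        · intro t ht
          rw [mem_filter] at ht ⊢
          exact ⟨ht.1, ht.2.1, ht.2.2.1⟩
        · unfold Rt
          split_ifs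
          · positivity
          · exact le_rfl
    _ ≤ _ := h1
    _ ≤ _ := by
        refine div_le_div_of_nonneg_right ?_ (by positivity)
        refine mul_le_mul_of_nonneg_left ?_ (by positivity)
        exact pow_le_pow_right₀ hqφ (by omega)

end Pool.Agent.H27.PG
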